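import Mathlib

/-!
# The norm of a null function is controlled modulo lower terms
-/

set_option autoImplicit false

open Finset

namespace Pool.Agent.LS3

theorem orth_bound {α : Type*} [DecidableEq α] [Fintype α] (s : ℕ) (f : Finset α → ℤ)
    (A : Finset α → ℝ) (N : ℕ → Finset α → ℝ) (X : ℝ)
    (hnull : ∀ R : Finset α, R.card < s →
      ∑ U ∈ (powersetCard s univ).filter (fun U => R ⊆ U), f U = 0)
    (hf : ∀ T : Finset α, T.card = s →
      (f T : ℝ) = A T - ∑ j ∈ range s, ∑ U ∈ powersetCard j T, N j U)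
    (hA : ∀ T : Finset α, T.card = s → |A T| ≤ X) :
    ∑ U ∈ powersetCard s (univ : Finset α), |(f U : ℝ)| ≤ ((Fintype.card α).choose s : ℝ) * X := by
  classical
  set P : Finset (Finset α) := powersetCard s univ with hP
  have hmem : ∀ T ∈ P, T.card = s := fun T hT => (mem_powersetCard.1 hT).2
  have hcard : (P.card : ℝ) = ((Fintype.card α).choose s : ℝ) := by
    rw [hP, card_powersetCard, card_univ]
  -- the lower terms are orthogonal to `f`
  have horth : ∑ T ∈ P, (f T : ℝ) * ∑ j ∈ range s, ∑ U ∈ powersetCard j T, N j U = 0 := by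
    simp_rw [mul_sum]
    rw [sum_comm]
    refine sum_eq_zero fun j hj => ?_
    rw [mem_range] at hj
    rw [sum_comm' (s := P) (t := fun T => powersetCard j T) (t' := powersetCard j univ)
      (s' := fun U => P.filter (fun T => U ⊆ T))]
    · refine sum_eq_zero fun U hU => ?_
      rw [← sum_mul]
      have h1 := hnull U (by rw [(mem_powersetCard.1 hU).2]; exact hj)
      have h2 : ∑ T ∈ P.filter (fun T => U ⊆ T), (f T : ℝ) = 0 := by exact_mod_cast h1
      rw [h2, zero_mul]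
    · intro T U
      simp only [mem_filter, mem_powersetCard, subset_univ, true_and]
      tauto
  have hS2 : ∑ T ∈ P, (f T : ℝ) ^ 2 ≤ X * ∑ T ∈ P, |(f T : ℝ)| := by
    have h1 : ∑ T ∈ P, (f T : ℝ) ^ 2 = ∑ T ∈ P, (f T : ℝ) * A T := by
      have h2 : ∑ T ∈ P, (f T : ℝ) ^ 2 = ∑ T ∈ P, (f T : ℝ) * A T -
          ∑ T ∈ P, (f T : ℝ) * ∑ j ∈ range s, ∑ U ∈ powersetCard j T, N j U := by
        rw [← sum_sub_distrib]
        refine sum_congr rfl fun T hT => ?_
        rw [← mul_sub, ← hf T (hmem T hT)]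
        ring
      rw [h2, horth, sub_zero]
    rw [h1, mul_sum]
    refine sum_le_sum fun T hT => ?_
    calc (f T : ℝ) * A T ≤ |(f T : ℝ) * A T| := le_abs_self _
      _ = |(f T : ℝ)| * |A T| := abs_mul _ _
      _ ≤ |(f T : ℝ)| * X := mul_le_mul_of_nonneg_left (hA T (hmem T hT)) (abs_nonneg _)
      _ = X * |(f T : ℝ)| := mul_comm _ _
  have hCS : (∑ T ∈ P, |(f T : ℝ)|) ^ 2 ≤ (P.card : ℝ) * ∑ T ∈ P, (f T : ℝ) ^ 2 := by
    have h1 := sq_sum_le_card_mul_sum_sq (s := P) (f := fun T => |(f T : ℝ)|)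
    simpa [sq_abs] using h1
  have hnn : 0 ≤ ∑ T ∈ P, |(f T : ℝ)| := sum_nonneg fun _ _ => abs_nonneg _
  rw [← hcard]
  rcases hnn.eq_or_lt with h0 | h0
  · rw [← h0]
    rcases P.eq_empty_or_nonempty with h1 | ⟨T, hT⟩
    · rw [h1]
      simp
    · have : 0 ≤ X := (abs_nonneg _).trans (hA T (hmem T hT))
      positivity
  · have h1 : (∑ T ∈ P, |(f T : ℝ)|) * (∑ T ∈ P, |(f T : ℝ)|) ≤
        ((P.card : ℝ) * X) * (∑ T ∈ P, |(f T : ℝ)|) := by
      calc _ = (∑ T ∈ P, |(f T : ℝ)|) ^ 2 := by ring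
        _ ≤ (P.card : ℝ) * ∑ T ∈ P, (f T : ℝ) ^ 2 := hCS
        _ ≤ (P.card : ℝ) * (X * ∑ T ∈ P, |(f T : ℝ)|) :=
          mul_le_mul_of_nonneg_left hS2 (Nat.cast_nonneg _)
        _ = _ := by ring
    exact le_of_mul_le_mul_right h1 h0

end Pool.Agent.LS3
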