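import Pool.Agent.Lib.MP_2c0b9b_co_NL.Level2
import Pool.Agent.Lib.MP_2c0b9b_co_NL.Orth

/-!
# Correction of the discrepancy, level by level
-/

set_option autoImplicit false

open Finset

namespace Pool.Agent.LS3

section
variable {γ : Type*} {v : ℕ}

/-- The discrepancy after the first `n` levels. -/
private def cD2 (d : ZMod 3 → Finset (Fin v) → ℤ)
    (e : (s : ℕ) → (Fin s → Fin v) × (Fin s → Fin v) → γ → Finset (Fin v) → ℤ)
    (F : (s : ℕ) → (Fin s → Fin v) × (Fin s → Fin v) → ZMod 3 → Finset γ) (n : ℕ) (i : ZMod 3)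
    (T : Finset (Fin v)) : ℤ :=
  d i T + ∑ s ∈ range n, chg2 (e s) (F s) i T

theorem correct2 [DecidableEq γ] (t k v : ℕ) (hv : 1 ≤ v)
    (d : ZMod 3 → Finset (Fin v) → ℤ)
    (hsum : ∀ T : Finset (Fin v), T.card ≤ t → ∑ i, d i T = 0)
    (hrel : ∀ i, Rel t k (d i))
    (hbd : ∀ i, ∀ T : Finset (Fin v), T.card ≤ t → |d i T| ≤ nX t v)
    (Y : (s : ℕ) → (Fin s → Fin v) × (Fin s → Fin v) → ZMod 3 → Finset γ)
    (e : (s : ℕ) → (Fin s → Fin v) × (Fin s → Fin v) → γ → Finset (Fin v) → ℤ)
    (he0 : ∀ s ≤ t, ∀ p, Oct p → ∀ a, ∀ g ∈ Y s p a, ∀ T, T.card < s → e s p g T = 0)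
    (he1 : ∀ s ≤ t, ∀ p, Oct p → ∀ a, ∀ g ∈ Y s p a, ∀ T, T.card = s → e s p g T = pod p T)
    (he2 : ∀ s ≤ t, ∀ p, Oct p → ∀ a, ∀ g ∈ Y s p a, ∀ T, |e s p g T| ≤ 1)
    (her : ∀ s ≤ t, ∀ p, Oct p → ∀ a, ∀ g ∈ Y s p a, Rel t k (e s p g))
    (κ : ℕ → ℕ → ℝ)
    (hκ : ∀ s ≤ t, ∀ p : (Fin s → Fin v) × (Fin s → Fin v), Oct p → ∀ T : Finset (Fin v),
      T.card ≤ t → |κ s T.card * ∑ U ∈ powersetCard s T, (pod p U : ℝ)| ≤ 1)
    (hmean : ∀ s ≤ t, ∀ p, Oct p → ∀ a, ∀ T : Finset (Fin v), T.card ≤ t →
      |∑ g ∈ Y s p a, (e s p g T : ℝ) -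
        (nP t v : ℕ) * (κ s T.card * ∑ U ∈ powersetCard s T, (pod p U : ℝ))| ≤
          ((nI t v + 1 : ℕ) : ℝ))
    (hcard : ∀ s ≤ t, ∀ p, Oct p → ∀ a,
      |((Y s p a).card : ℝ) - (nP t v : ℕ)| ≤ ((nI t v + 1 : ℕ) : ℝ)) :
    ∃ F : (s : ℕ) → (Fin s → Fin v) × (Fin s → Fin v) → ZMod 3 → Finset γ,
      (∀ s p a, F s p a ⊆ Y s p a) ∧ (∀ s p a, ¬ Oct p → F s p a = ∅) ∧
      ∀ i, ∀ T : Finset (Fin v), T.card ≤ t →
        d i T + ∑ s ∈ range (t + 1), chg2 (e s) (F s) i T = 0 := by
  have claim : ∀ n ≤ t + 1, ∃ F : (s : ℕ) → (Fin s → Fin v) × (Fin s → Fin v) → ZMod 3 →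
      Finset γ,
      (∀ s p a, F s p a ⊆ Y s p a) ∧ (∀ s p a, ¬ Oct p → F s p a = ∅) ∧
      (∀ T : Finset (Fin v), T.card ≤ t → ∑ i, cD2 d e F n i T = 0) ∧
      (∀ i, Rel t k (cD2 d e F n i)) ∧
      (∀ i, ∀ T : Finset (Fin v), T.card < n → cD2 d e F n i T = 0) ∧
      ∃ (A : ZMod 3 → Finset (Fin v) → ℝ) (N : ZMod 3 → ℕ → Finset (Fin v) → ℝ),
        (∀ i, ∀ T : Finset (Fin v), T.card ≤ t → (cD2 d e F n i T : ℝ) =
          A i T - ∑ j ∈ range n, κ j T.card * ∑ U ∈ powersetCard j T, N i j U) ∧
        ∀ i, ∀ T : Finset (Fin v), T.card ≤ t → |A i T| ≤ nX t v + n * (6 * nI t v + 1) := by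
    intro n
    induction n with
    | zero =>
      intro _
      have e0 : ∀ i T, cD2 d e (fun _ _ _ => ∅) 0 i T = d i T := by
        intro i T
        unfold cD2
        simp
      refine ⟨fun _ _ _ => ∅, fun _ _ _ => empty_subset _, fun _ _ _ _ => rfl, ?_, ?_, ?_,
        fun i T => (d i T : ℝ), fun _ _ _ => 0, ?_, ?_⟩
      · intro T hT
        simp only [e0]
        exact hsum T hT
      · intro i
        have : cD2 d e (fun _ _ _ => ∅) 0 i = d i := funext fun T => e0 i T
        rw [this]
        exact hrel i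
      · intro i T hT
        exact absurd hT (Nat.not_lt_zero _)
      · intro i T hT
        rw [e0]
        simp
      · intro i T hT
        have h1 : ((|d i T| : ℤ) : ℝ) ≤ ((nX t v : ℕ) : ℝ) := by
          exact_mod_cast hbd i T hT
        rw [Int.cast_abs] at h1
        simpa using h1
    | succ s ih =>
      intro hs
      obtain ⟨F, hF1, hF2, hF3, hF4, hF5, A, N, hA1, hA2⟩ := ih (by omega)
      have hst : s ≤ t := by omega
      -- the norm of the discrepancy at level `s`
      have hnorm : ∀ i, ∑ U ∈ powersetCard s (univ : Finset (Fin v)), |cD2 d e F s i U| ≤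
          ((v ^ s * (nX t v + (t + 1) * (6 * nI t v + 1)) : ℕ) : ℤ) := by
        intro i
        have h1 := orth_bound s (cD2 d e F s i) (A i) (fun j U => κ j s * N i j U)
          (nX t v + s * (6 * nI t v + 1)) (by
            intro R hR
            rw [hF4 i s hst R hR.le, hF5 i R hR, mul_zero])
          (by
            intro T hT
            rw [hA1 i T (by omega), hT]
            congr 1
            refine sum_congr rfl fun j _ => ?_
            rw [mul_sum])
          (fun T hT => hA2 i T (by omega))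
        rw [Fintype.card_fin] at h1
        have h2 : ((v.choose s : ℕ) : ℝ) * (nX t v + s * (6 * nI t v + 1)) ≤
            ((v ^ s : ℕ) : ℝ) * (nX t v + (t + 1) * (6 * nI t v + 1)) := by
          have h3 : ((v.choose s : ℕ) : ℝ) ≤ ((v ^ s : ℕ) : ℝ) := by
            exact_mod_cast Nat.choose_le_pow v s
          have h4 : (s : ℝ) ≤ (t : ℝ) + 1 := by
            have : (s : ℝ) ≤ (t : ℝ) := by exact_mod_cast hst
            linarith
          have h5 : (0 : ℝ) ≤ 6 * nI t v + 1 := by positivity
          have h6 : (nX t v : ℝ) + s * (6 * nI t v + 1) ≤ nX t v + (t + 1) * (6 * nI t v + 1) := by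
            have := mul_le_mul_of_nonneg_right h4 h5
            linarith
          exact mul_le_mul h3 h6 (by positivity) (by positivity)
        have h7 : ((∑ U ∈ powersetCard s (univ : Finset (Fin v)), |cD2 d e F s i U| : ℤ) : ℝ) ≤
            (((v ^ s * (nX t v + (t + 1) * (6 * nI t v + 1)) : ℕ) : ℤ) : ℝ) := by
          push_cast
          push_cast at h2
          exact h1.trans h2
        exact_mod_cast h7
      obtain ⟨f, hf1, hf2, hf3, hf4, hf5, hf6⟩ := level2 t k v s hst
        (v ^ s * (nX t v + (t + 1) * (6 * nI t v + 1))) (nI t v + 1) (nP t v) (nM t v)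
        (cD2 d e F s) hF3 hF4 hF5 hnorm (by
          unfold nM
          have h1 : v ^ s * v ^ s ≤ v ^ (2 * t) := by
            rw [← pow_add]
            exact Nat.pow_le_pow_right hv (by omega)
          calc 10 * v ^ s * (v ^ s * (nX t v + (t + 1) * (6 * nI t v + 1)))
              = 10 * (v ^ s * v ^ s) * (nX t v + (t + 1) * (6 * nI t v + 1)) := by ring
            _ ≤ 10 * v ^ (2 * t) * (nX t v + (t + 1) * (6 * nI t v + 1)) := by
              apply Nat.mul_le_mul_right
              exact Nat.mul_le_mul_left _ h1)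
        (Y s) (e s) (he0 s hst) (he1 s hst) (he2 s hst) (her s hst) (κ s) (hκ s hst)
        (hmean s hst) (hcard s hst) (by unfold nP; exact le_rfl) (by omega)
      have hstep : ∀ i T, cD2 d e (Function.update F s f) (s + 1) i T =
          cD2 d e F s i T + chg2 (e s) f i T := by
        intro i T
        unfold cD2
        rw [Finset.sum_range_succ, Function.update_self, ← add_assoc]
        congr 2
        refine Finset.sum_congr rfl fun s' hs' => ?_
        rw [mem_range] at hs'
        rw [Function.update_of_ne (by omega)]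
      refine ⟨Function.update F s f, ?_, ?_, ?_, ?_, ?_, fun i T => A i T +
        ((chg2 (e s) f i T : ℝ) + κ s T.card * ∑ U ∈ powersetCard s T, (cD2 d e F s i U : ℝ)),
        fun i => Function.update (N i) s (fun U => (cD2 d e F s i U : ℝ)), ?_, ?_⟩
      · intro s'
        by_cases h : s' = s
        · subst h
          rw [Function.update_self]
          exact hf1
        · rw [Function.update_of_ne h]
          exact hF1 s'
      · intro s'
        by_cases h : s' = s
        · subst h
          rw [Function.update_self]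
          exact hf2
        · rw [Function.update_of_ne h]
          exact hF2 s'
      · intro T hT
        simp only [hstep]
        rw [Finset.sum_add_distrib, hF3 T hT, hf3, add_zero]
      · intro i
        have : cD2 d e (Function.update F s f) (s + 1) i =
            fun T => cD2 d e F s i T + chg2 (e s) f i T := funext fun T => hstep i T
        rw [this]
        intro s' hs' R hR
        rw [Finset.sum_add_distrib, hF4 i s' hs' R hR, hf4 i s' hs' R hR, mul_add]
      · intro i T hT
        rw [hstep]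
        exact hf5 i T hT
      · intro i T hT
        rw [hstep, Finset.sum_range_succ]
        simp only [Function.update_self]
        have h1 : ∑ j ∈ range s, κ j T.card * ∑ U ∈ powersetCard j T,
            Function.update (N i) s (fun U => (cD2 d e F s i U : ℝ)) j U =
            ∑ j ∈ range s, κ j T.card * ∑ U ∈ powersetCard j T, N i j U := by
          refine sum_congr rfl fun j hj => ?_
          rw [mem_range] at hj
          rw [Function.update_of_ne (by omega)]
        rw [h1, Int.cast_add, hA1 i T hT]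
        ring
      · intro i T hT
        refine (abs_add_le _ _).trans ?_
        have h1 := hA2 i T hT
        have h2 := hf6 i T hT
        push_cast
        linarith
  obtain ⟨F, h1, h2, _, _, h5, _⟩ := claim (t + 1) le_rfl
  exact ⟨F, h1, h2, fun i T hT => h5 i T (Nat.lt_succ_of_le hT)⟩

end

end Pool.Agent.LS3
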