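import Pool.Agent.Lib.MP_2c0b9b_co_NL.GadS

/-!
# The discrepancy of three balanced pools with the same octahedron
-/

set_option autoImplicit false

open Finset

namespace Pool.Agent.LS3

theorem pool_disc (t v s : ℕ) (p : (Fin s → Fin v) × (Fin s → Fin v)) (_hp : Oct p)
    (Y : ZMod 3 → Finset (Finset (Fin v))) (hY : ∀ a, ∀ S ∈ Y a, Disjoint S (opts p))
    (E : ℝ) (m : ℕ → ℝ)
    (hbal : ∀ a, ∀ R : Finset (Fin v), R.card ≤ t → Disjoint R (opts p) →
      |(((Y a).filter (fun S => R ⊆ S)).card : ℝ) - m R.card| ≤ E)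
    (T : Finset (Fin v)) (hT : T.card ≤ t) (i : ZMod 3) :
    |3 * (∑ a, ∑ S ∈ Y a, ∑ J : Finset (Fin s),
        if T ⊆ S ∪ tr p J ∧ a + par J = i then (1 : ℝ) else 0) -
      ∑ a, ∑ S ∈ Y a, ∑ J : Finset (Fin s), if T ⊆ S ∪ tr p J then (1 : ℝ) else 0| ≤
      4 * 2 ^ s * E := by
  classical
  set R : Finset (Fin v) := T \ opts p with hR
  have hRt : R.card ≤ t := (card_le_card sdiff_subset).trans hT
  have hRd : Disjoint R (opts p) := sdiff_disjoint
  set g : Finset (Fin s) → ℝ := fun J => if T ∩ opts p ⊆ tr p J then 1 else 0 with hg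
  set h : ZMod 3 → ℝ := fun a => (((Y a).filter (fun S => R ⊆ S)).card : ℝ) with hh
  have hsub : ∀ a, ∀ S ∈ Y a, ∀ J : Finset (Fin s),
      (T ⊆ S ∪ tr p J ↔ R ⊆ S ∧ T ∩ opts p ⊆ tr p J) := by
    intro a S hS J
    have hd := hY a S hS
    constructor
    · intro hTS
      constructor
      · intro x hx
        rw [hR, mem_sdiff] at hx
        rcases mem_union.1 (hTS hx.1) with h1 | h1
        · exact h1
        · exact absurd (tr_subset_opts J h1) hx.2
      · intro x hx
        rw [mem_inter] at hx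
        rcases mem_union.1 (hTS hx.1) with h1 | h1
        · exact absurd hx.2 (disjoint_left.1 hd h1)
        · exact h1
    · rintro ⟨h1, h2⟩ x hx
      by_cases hxo : x ∈ opts p
      · exact mem_union_right _ (h2 (mem_inter.2 ⟨hx, hxo⟩))
      · exact mem_union_left _ (h1 (mem_sdiff.2 ⟨hx, hxo⟩))
  have hind : ∀ a, ∀ S ∈ Y a, ∀ J : Finset (Fin s),
      (if T ⊆ S ∪ tr p J then (1 : ℝ) else 0) = g J * (if R ⊆ S then 1 else 0) := by
    intro a S hS J
    simp only [hg, hsub a S hS J]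
    by_cases h1 : R ⊆ S <;> by_cases h2 : T ∩ opts p ⊆ tr p J <;> simp [h1, h2]
  have hsumS : ∀ a, ∑ S ∈ Y a, (if R ⊆ S then (1 : ℝ) else 0) = h a := by
    intro a
    rw [hh, sum_boole]
  have e2 : ∑ a, ∑ S ∈ Y a, ∑ J : Finset (Fin s), (if T ⊆ S ∪ tr p J then (1 : ℝ) else 0) =
      ∑ J : Finset (Fin s), g J * ∑ a, h a := by
    have : ∀ a : ZMod 3, ∑ S ∈ Y a, ∑ J : Finset (Fin s),
        (if T ⊆ S ∪ tr p J then (1 : ℝ) else 0) = ∑ J : Finset (Fin s), g J * h a := by
      intro a
      rw [sum_comm]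
      refine sum_congr rfl fun J _ => ?_
      rw [← hsumS a, mul_sum]
      exact sum_congr rfl fun S hS => hind a S hS J
    rw [sum_congr rfl fun a _ => this a, sum_comm]
    refine sum_congr rfl fun J _ => ?_
    rw [mul_sum]
  have e1 : ∑ a, ∑ S ∈ Y a, ∑ J : Finset (Fin s),
      (if T ⊆ S ∪ tr p J ∧ a + par J = i then (1 : ℝ) else 0) =
      ∑ J : Finset (Fin s), g J * h (i - par J) := by
    have h1 : ∀ a : ZMod 3, ∑ S ∈ Y a, ∑ J : Finset (Fin s),
        (if T ⊆ S ∪ tr p J ∧ a + par J = i then (1 : ℝ) else 0) =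
        ∑ J : Finset (Fin s), if a = i - par J then g J * h a else 0 := by
      intro a
      rw [sum_comm]
      refine sum_congr rfl fun J _ => ?_
      have h2 : (a + par J = i) ↔ (a = i - par J) := eq_sub_iff_add_eq.symm
      by_cases h3 : a = i - par J
      · rw [if_pos h3, ← hsumS a, mul_sum]
        refine sum_congr rfl fun S hS => ?_
        rw [← hind a S hS J]
        simp only [h2.2 h3, and_true]
      · rw [if_neg h3]
        refine sum_eq_zero fun S _ => ?_
        rw [if_neg]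
        rintro ⟨-, h4⟩
        exact h3 (h2.1 h4)
    rw [sum_congr rfl fun a _ => h1 a, sum_comm]
    refine sum_congr rfl fun J _ => ?_
    rw [sum_ite_eq' univ (i - par J) (fun a => g J * h a), if_pos (mem_univ _)]
  rw [e1, e2, mul_sum, ← sum_sub_distrib]
  have hE : 0 ≤ E := (abs_nonneg _).trans (hbal 0 R hRt hRd)
  have hdiff : ∀ a b, |h a - h b| ≤ 2 * E := by
    intro a b
    have h1 := hbal a R hRt hRd
    have h2 := hbal b R hRt hRd
    rw [abs_le] at h1 h2 ⊢
    simp only [hh]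
    constructor <;> linarith [h1.1, h1.2, h2.1, h2.2]
  have hone : ∀ b : ZMod 3, |3 * h b - ∑ a, h a| ≤ 4 * E := by
    intro b
    have h1 : 3 * h b - ∑ a, h a = ∑ a : ZMod 3, (h b - h a) := by
      rw [sum_sub_distrib, sum_const, card_univ, ZMod.card]
      simp
    have h2 : ∑ a : ZMod 3, (h b - h a) = ∑ a ∈ univ.erase b, (h b - h a) := by
      rw [← add_sum_erase univ (fun a => h b - h a) (mem_univ b)]
      simp
    rw [h1, h2]
    refine (abs_sum_le_sum_abs _ _).trans ?_
    refine (sum_le_sum fun a _ => hdiff b a).trans ?_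
    rw [sum_const, card_erase_of_mem (mem_univ b), card_univ, ZMod.card, nsmul_eq_mul]
    norm_num
    linarith
  refine (abs_sum_le_sum_abs _ _).trans ?_
  have hterm : ∀ J : Finset (Fin s), |3 * (g J * h (i - par J)) - g J * ∑ a, h a| ≤ 4 * E := by
    intro J
    have h1 : 3 * (g J * h (i - par J)) - g J * ∑ a, h a =
        g J * (3 * h (i - par J) - ∑ a, h a) := by ring
    rw [h1, abs_mul]
    have h2 : |g J| ≤ 1 := by
      simp only [hg]
      split_ifs <;> simp
    calc _ ≤ 1 * (4 * E) := mul_le_mul h2 (hone _) (abs_nonneg _) (by norm_num)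
      _ = 4 * E := one_mul _
  refine (sum_le_sum fun J _ => hterm J).trans ?_
  rw [sum_const, card_univ, Fintype.card_finset, Fintype.card_fin, nsmul_eq_mul]
  push_cast
  linarith

end Pool.Agent.LS3
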