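import Mathlib

/-!
# Successive choice of pools with disjoint blocks
-/

set_option autoImplicit false

open Finset

namespace Pool.Agent.LS3

theorem select_pools {ι σ γ : Type*} [DecidableEq ι] [DecidableEq σ] [DecidableEq γ]
    (L : Finset ι) (cand : ι → Finset σ) (bl : ι → σ → Finset γ) (b m : ℕ)
    (hb : ∀ i ∈ L, ∀ o ∈ cand i, (bl i o).card ≤ b)
    (hinj : ∀ i ∈ L, ∀ c : γ, ((cand i).filter (fun o => c ∈ bl i o)).card ≤ 1)
    (good : ι → Finset σ → Prop)
    (hgood : ∀ i ∈ L, ∀ A ⊆ cand i, (cand i \ A).card ≤ L.card * (m * b) →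
      ∃ Y ⊆ A, Y.card ≤ m ∧ good i Y) :
    ∃ Y : ι → Finset σ, (∀ i ∈ L, Y i ⊆ cand i ∧ (Y i).card ≤ m ∧ good i (Y i)) ∧
      ∀ i ∈ L, ∀ j ∈ L, i ≠ j → ∀ o ∈ Y i, ∀ o' ∈ Y j, Disjoint (bl i o) (bl j o') := by
  have main : ∀ L' : Finset ι, L' ⊆ L → ∃ Y : ι → Finset σ,
      (∀ i ∈ L', Y i ⊆ cand i ∧ (Y i).card ≤ m ∧ good i (Y i)) ∧
      ∀ i ∈ L', ∀ j ∈ L', i ≠ j → ∀ o ∈ Y i, ∀ o' ∈ Y j, Disjoint (bl i o) (bl j o') := by
    intro L'
    induction L' using Finset.induction_on with
    | empty =>
      intro _
      exact ⟨fun _ => ∅, fun i hi => absurd hi (notMem_empty i),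
        fun i hi => absurd hi (notMem_empty i)⟩
    | insert i L' hi ih =>
      intro hL
      have hiL : i ∈ L := hL (mem_insert_self i L')
      have hL' : L' ⊆ L := fun j hj => hL (mem_insert_of_mem hj)
      obtain ⟨Y, hY1, hY2⟩ := ih hL'
      set U : Finset γ := L'.biUnion (fun j => (Y j).biUnion (fun o => bl j o)) with hU
      have hUcard : U.card ≤ L.card * (m * b) := by
        calc U.card ≤ L'.card * (m * b) := by
              apply card_biUnion_le_card_mul
              intro j hj
              obtain ⟨h1, h2, -⟩ := hY1 j hj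
              calc _ ≤ (Y j).card * b := by
                    apply card_biUnion_le_card_mul
                    intro o ho
                    exact hb j (hL' hj) o (h1 ho)
                _ ≤ m * b := Nat.mul_le_mul_right _ h2
          _ ≤ L.card * (m * b) := Nat.mul_le_mul_right _ (card_le_card hL')
      set A : Finset σ := (cand i).filter (fun o => Disjoint (bl i o) U) with hA
      have hAc : (cand i \ A).card ≤ L.card * (m * b) := by
        refine le_trans ?_ hUcard
        have h1 : cand i \ A ⊆ U.biUnion (fun c => (cand i).filter (fun o => c ∈ bl i o)) := by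
          intro o ho
          rw [mem_sdiff, hA, mem_filter] at ho
          obtain ⟨ho1, ho2⟩ := ho
          have h2 : ¬ Disjoint (bl i o) U := fun h => ho2 ⟨ho1, h⟩
          rw [not_disjoint_iff] at h2
          obtain ⟨c, hc1, hc2⟩ := h2
          exact mem_biUnion.2 ⟨c, hc2, mem_filter.2 ⟨ho1, hc1⟩⟩
        calc (cand i \ A).card ≤ _ := card_le_card h1
          _ ≤ U.card * 1 := card_biUnion_le_card_mul _ _ _ (fun c _ => hinj i hiL c)
          _ = U.card := mul_one _
      obtain ⟨Yi, hYi1, hYi2, hYi3⟩ := hgood i hiL A (filter_subset _ _) hAc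
      have hYiU : ∀ o ∈ Yi, ∀ j ∈ L', ∀ o' ∈ Y j, Disjoint (bl i o) (bl j o') := by
        intro o ho j hj o' ho'
        have h1 : Disjoint (bl i o) U := (mem_filter.1 (hYi1 ho)).2
        refine disjoint_of_subset_right ?_ h1
        intro c hc
        exact mem_biUnion.2 ⟨j, hj, mem_biUnion.2 ⟨o', ho', hc⟩⟩
      refine ⟨Function.update Y i Yi, ?_, ?_⟩
      · intro j hj
        rcases mem_insert.1 hj with rfl | hj'
        · rw [Function.update_self]
          exact ⟨hYi1.trans (filter_subset _ _), hYi2, hYi3⟩
        · have hne : j ≠ i := fun h => hi (h ▸ hj')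
          rw [Function.update_of_ne hne]
          exact hY1 j hj'
      · intro j hj l hl hjl o ho o' ho'
        rcases mem_insert.1 hj with rfl | hj'
        · rcases mem_insert.1 hl with rfl | hl'
          · exact absurd rfl hjl
          · have hne : l ≠ j := fun h => hjl h.symm
            rw [Function.update_self] at ho
            rw [Function.update_of_ne hne] at ho'
            exact hYiU o ho l hl' o' ho'
        · have hne : j ≠ i := fun h => hi (h ▸ hj')
          rw [Function.update_of_ne hne] at ho
          rcases mem_insert.1 hl with rfl | hl'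
          · rw [Function.update_self] at ho'
            exact (hYiU o' ho' j hj' o ho).symm
          · have hne' : l ≠ i := fun h => hi (h ▸ hl')
            rw [Function.update_of_ne hne'] at ho'
            exact hY2 j hj' l hl' hjl o ho o' ho'
  exact main L (Subset.refl L)

end Pool.Agent.LS3
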