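import Pool.Agent.Lib.MP_2c0b9b_co_NL.PoolBal
import Pool.Agent.Lib.MP_2c0b9b_co_NL.Select
import Pool.Agent.Lib.MP_2c0b9b_co_NL.PoolDisc
import Pool.Agent.Lib.MP_2c0b9b_co_NL.Correct2

/-!
# The absorption theorem with small cost
-/

set_option autoImplicit false

open Finset

namespace Pool.Agent.LS3

theorem mu_zero (k v s : ℕ) (h : 0 < (v - 2 * s).choose (k - s)) : mu k v s 0 = 1 := by
  unfold mu
  rw [Nat.sub_zero, Nat.sub_zero]
  exact div_self (by exact_mod_cast h.ne')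

theorem choose_sub_le (n m r : ℕ) (hr : r ≤ m) (hn : m ≤ n) :
    (n - r).choose (m - r) ≤ n.choose m := by
  induction r with
  | zero => exact le_rfl
  | succ r ih =>
    refine le_trans ?_ (ih (by omega))
    obtain ⟨n', hn'⟩ : ∃ n', n - r = n' + 1 := ⟨n - r - 1, by omega⟩
    obtain ⟨m', hm'⟩ : ∃ m', m - r = m' + 1 := ⟨m - r - 1, by omega⟩
    have h1 : n - (r + 1) = n' := by omega
    have h2 : m - (r + 1) = m' := by omega
    rw [h1, h2, hn', hm', Nat.choose_succ_succ]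
    exact Nat.le_add_right _ _

theorem mu_nonneg (k v s r : ℕ) : 0 ≤ mu k v s r := by
  unfold mu
  positivity

theorem mu_le_one (k v s r : ℕ) (hr : r ≤ k - s) (hk : k - s ≤ v - 2 * s) :
    mu k v s r ≤ 1 := by
  unfold mu
  have h1 : 0 < (v - 2 * s).choose (k - s) := Nat.choose_pos hk
  rw [div_le_one (by exact_mod_cast h1)]
  exact_mod_cast choose_sub_le _ _ _ hr hk

/-- The index type of the pools. -/
abbrev Idx2 (v : ℕ) : Type := (s : ℕ) × (((Fin s → Fin v) × (Fin s → Fin v)) × ZMod 3)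

open Classical in
/-- The set of all pools. -/
noncomputable def gL (t v : ℕ) : Finset (Idx2 v) :=
  (range (t + 1)).sigma (fun s =>
    ((univ : Finset ((Fin s → Fin v) × (Fin s → Fin v))).filter Oct) ×ˢ (univ : Finset (ZMod 3)))

theorem mem_gL {t v : ℕ} {x : Idx2 v} : x ∈ gL t v ↔ x.1 ≤ t ∧ Oct x.2.1 := by
  unfold gL
  simp only [mem_sigma, mem_range, mem_product, mem_filter, mem_univ, true_and, and_true]
  rw [Nat.lt_succ_iff]

theorem sum_gL {M : Type*} [AddCommMonoid M] (t v : ℕ) (h : Idx2 v → M)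
    (h0 : ∀ s p a, ¬ Oct p → h ⟨s, (p, a)⟩ = 0) :
    ∑ x ∈ gL t v, h x = ∑ s ∈ range (t + 1), ∑ p : (Fin s → Fin v) × (Fin s → Fin v),
      ∑ a : ZMod 3, h ⟨s, (p, a)⟩ := by
  classical
  unfold gL
  rw [sum_sigma]
  refine sum_congr rfl fun s _ => ?_
  rw [sum_product, sum_filter]
  refine sum_congr rfl fun p _ => ?_
  split_ifs with hp
  · rfl
  · symm
    exact sum_eq_zero fun a _ => h0 s p a hp

theorem gL_card (t v : ℕ) : (gL t v).card ≤ 3 * ∑ s ∈ range (t + 1), v ^ (2 * s) := by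
  classical
  unfold gL
  rw [card_sigma, mul_sum]
  refine sum_le_sum fun s _ => ?_
  rw [card_product, card_univ, ZMod.card, mul_comm]
  apply Nat.mul_le_mul_left
  refine (card_filter_le _ _).trans ?_
  rw [card_univ, Fintype.card_prod, Fintype.card_fun, Fintype.card_fin, Fintype.card_fin]
  rw [two_mul, pow_add]

/-- Choice of the pools. -/
theorem choose_pools (t k v : ℕ) (hk : 2 * t ≤ k)
    (hbig : ∀ s ≤ t, nP t v * nK t v ≤ (v - 2 * s).choose (k - s)) :
    ∃ Y : (s : ℕ) → (Fin s → Fin v) × (Fin s → Fin v) → ZMod 3 → Finset (Finset (Fin v)),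
      (∀ s ≤ t, ∀ p, Oct p → ∀ a, ∀ S ∈ Y s p a, S.card = k - s ∧ Disjoint S (opts p)) ∧
      (∀ s ≤ t, ∀ p, Oct p → ∀ a, ∀ R : Finset (Fin v), R.card ≤ t → Disjoint R (opts p) →
        |(((Y s p a).filter (fun S => R ⊆ S)).card : ℝ) - (nP t v : ℕ) * mu k v s R.card| ≤
          ((nI t v + 1 : ℕ) : ℝ)) ∧
      ∀ x ∈ gL t v, ∀ y ∈ gL t v, x ≠ y → ∀ S ∈ Y x.1 x.2.1 x.2.2, ∀ S' ∈ Y y.1 y.2.1 y.2.2,
        ∀ J J', S ∪ tr x.2.1 J ≠ S' ∪ tr y.2.1 J' := by
  classical
  have hP : 1 ≤ nP t v := by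
    unfold nP
    exact Nat.mul_pos (by omega) (by omega)
  have hK : 1 ≤ nK t v := by
    unfold nK
    apply Nat.mul_pos
    · apply Nat.mul_pos (by norm_num)
      refine sum_pos' (fun _ _ => Nat.zero_le _) ⟨0, mem_range.2 (by omega), ?_⟩
      simp
    · apply Nat.mul_pos (by omega) (by positivity)
  obtain ⟨Y, hY1, hY2⟩ := select_pools (gL t v)
    (fun x => powersetCard (k - x.1) (univ \ opts x.2.1))
    (fun x S => (univ : Finset (Finset (Fin x.1))).image (fun J => S ∪ tr x.2.1 J))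
    (2 ^ t) (nP t v + nI t v + 1)
    (by
      intro x hx S _
      rw [mem_gL] at hx
      refine card_image_le.trans ?_
      rw [card_univ, Fintype.card_finset, Fintype.card_fin]
      exact Nat.pow_le_pow_right (by norm_num) hx.1)
    (by
      intro x hx c
      rw [mem_gL] at hx
      rw [card_le_one]
      intro S hS S' hS'
      rw [mem_filter, mem_powersetCard, mem_image] at hS hS'
      obtain ⟨⟨h1, -⟩, q, -, hq⟩ := hS
      obtain ⟨⟨h1', -⟩, q', -, hq'⟩ := hS'
      exact (blkS_inj hx.2 (disjoint_of_subset_left h1 sdiff_disjoint)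
        (disjoint_of_subset_left h1' sdiff_disjoint) (hq.trans hq'.symm)).1)
    (fun x Y => ∀ R : Finset (Fin v), R.card ≤ t → Disjoint R (opts x.2.1) →
      |((Y.filter (fun S => R ⊆ S)).card : ℝ) - (nP t v : ℕ) * mu k v x.1 R.card| ≤
        ((nI t v + 1 : ℕ) : ℝ))
    (by
      intro x hx A hA hcard
      rw [mem_gL] at hx
      have h1 : (powersetCard (k - x.1) (univ \ opts x.2.1) \ A).card ≤ nK t v := by
        refine hcard.trans ?_
        unfold nK
        exact Nat.mul_le_mul_right _ (gL_card t v)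
      obtain ⟨Y, hYA, hY⟩ := balanced_pool t k v x.1 x.2.1 hx.2 hx.1 hk (nP t v) (nK t v) hP hK
        (hbig x.1 hx.1) A hA h1
      refine ⟨Y, hYA, ?_, ?_⟩
      · have h2 := hY ∅ (by simp) (disjoint_empty_left _)
        have h3 : Y.filter (fun S => (∅ : Finset (Fin v)) ⊆ S) = Y := by
          apply filter_true_of_mem
          intro S _
          exact empty_subset S
        rw [h3, card_empty, mu_zero k v x.1 (lt_of_lt_of_le (Nat.mul_pos hP hK) (hbig x.1 hx.1)),
          mul_one] at h2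
        have h4 := (abs_le.1 h2).2
        have h5 : (Y.card : ℝ) ≤ ((nP t v + nI t v + 1 : ℕ) : ℝ) := by
          push_cast
          linarith
        exact_mod_cast h5
      · intro R hR hRd
        have := hY R hR hRd
        push_cast
        exact this)
  refine ⟨fun s p a => Y ⟨s, (p, a)⟩, ?_, ?_, ?_⟩
  · intro s hs p hp a S hS
    obtain ⟨h1, -, -⟩ := hY1 ⟨s, (p, a)⟩ (mem_gL.2 ⟨hs, hp⟩)
    have h2 := mem_powersetCard.1 (h1 hS)
    exact ⟨h2.2, disjoint_of_subset_left h2.1 sdiff_disjoint⟩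
  · intro s hs p hp a
    exact (hY1 ⟨s, (p, a)⟩ (mem_gL.2 ⟨hs, hp⟩)).2.2
  · rintro x hx y hy hxy S hS S' hS' J J' h
    have hd := hY2 x hx y hy hxy S hS S' hS'
    rw [disjoint_left] at hd
    exact hd (mem_image.2 ⟨J, mem_univ _, rfl⟩) (mem_image.2 ⟨J', mem_univ _, h.symm⟩)

/-- The effect of a move on the counts. -/
theorem swap2 {s v : ℕ} (p : (Fin s → Fin v) × (Fin s → Fin v)) (S T : Finset (Fin v))
    (a i : ZMod 3) :
    (∑ J : Finset (Fin s), if T ⊆ S ∪ tr p J ∧ a + 1 - par J = i then (1 : ℤ) else 0) =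
      (∑ J : Finset (Fin s), if T ⊆ S ∪ tr p J ∧ a + par J = i then (1 : ℤ) else 0) +
        sg i a * effS p S T := by
  unfold effS
  rw [mul_sum, ← sum_add_distrib]
  refine sum_congr rfl fun J _ => ?_
  have h := ab_par_sg J a i
  by_cases hT : T ⊆ S ∪ tr p J
  · simp only [hT, true_and, if_true]
    rw [mul_comm (sg i a), ← h]
    ring
  · simp only [hT, false_and, if_false]
    ring

/-- The index type of the blocks of all gadgets. -/
abbrev BIdx2 (v : ℕ) : Type := (x : Idx2 v) × (Finset (Fin v) × Finset (Fin x.1))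

theorem mean_eff (t k v s : ℕ) (p : (Fin s → Fin v) × (Fin s → Fin v)) (hp : Oct p)
    (Y : Finset (Finset (Fin v))) (hY : ∀ S ∈ Y, Disjoint S (opts p)) (n E : ℕ)
    (hbal : ∀ R : Finset (Fin v), R.card ≤ t → Disjoint R (opts p) →
      |((Y.filter (fun S => R ⊆ S)).card : ℝ) - n * mu k v s R.card| ≤ (E : ℝ))
    (T : Finset (Fin v)) (hT : T.card ≤ t) :
    |∑ S ∈ Y, (effS p S T : ℝ) -
      n * (mu k v s (T.card - s) * ∑ U ∈ powersetCard s T, (pod p U : ℝ))| ≤ (E : ℝ) := by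
  have h1 : ∑ S ∈ Y, (effS p S T : ℝ) = ((Y.filter (fun S => T \ opts p ⊆ S)).card : ℝ) *
      ∑ U ∈ powersetCard s T, (pod p U : ℝ) := by
    rw [card_filter, Nat.cast_sum, sum_mul]
    refine sum_congr rfl fun S hS => ?_
    rw [effS_eq hp (hY S hS) T]
    split_ifs <;> simp
  rw [h1]
  have hEnn : (0 : ℝ) ≤ (E : ℝ) := Nat.cast_nonneg _
  by_cases h2 : ∑ U ∈ powersetCard s T, pod p U = 0
  · have h3 : ∑ U ∈ powersetCard s T, (pod p U : ℝ) = 0 := by exact_mod_cast h2
    rw [h3]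
    simp
  · have h3 := pod_sum_card hp h2
    have h4 : T.card - s = (T \ opts p).card := by omega
    have h5 := hbal (T \ opts p) (by omega) sdiff_disjoint
    have h6 : |∑ U ∈ powersetCard s T, (pod p U : ℝ)| ≤ 1 := by
      have := pod_sum_abs hp T
      have h7 : ((|∑ U ∈ powersetCard s T, pod p U| : ℤ) : ℝ) ≤ 1 := by exact_mod_cast this
      rw [Int.cast_abs] at h7
      push_cast at h7
      exact h7
    rw [h4]
    have h8 : ((Y.filter (fun S => T \ opts p ⊆ S)).card : ℝ) *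
        (∑ U ∈ powersetCard s T, (pod p U : ℝ)) -
        n * (mu k v s (T \ opts p).card * ∑ U ∈ powersetCard s T, (pod p U : ℝ)) =
        (((Y.filter (fun S => T \ opts p ⊆ S)).card : ℝ) - n * mu k v s (T \ opts p).card) *
        ∑ U ∈ powersetCard s T, (pod p U : ℝ) := by ring
    rw [h8, abs_mul]
    calc _ ≤ (E : ℝ) * 1 := mul_le_mul h5 h6 (abs_nonneg _) hEnn
      _ = E := mul_one _

/-- Splitting a sum over the blocks of all gadgets. -/
theorem sum_blocks {M : Type*} [AddCommMonoid M] {v : ℕ} (I : Finset (Idx2 v))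
    (Y : Idx2 v → Finset (Finset (Fin v))) (f : BIdx2 v → M) :
    ∑ y ∈ (I.sigma (fun x => Y x ×ˢ (univ : Finset (Finset (Fin x.1)))) : Finset (BIdx2 v)), f y =
      ∑ x ∈ I, ∑ S ∈ Y x, ∑ J : Finset (Fin x.1), f ⟨x, (S, J)⟩ := by
  rw [sum_sigma]
  refine sum_congr rfl fun x _ => ?_
  rw [sum_product]

/-- The discrepancy of all pools. -/
theorem pools_disc (t v : ℕ)
    (Y : (s : ℕ) → (Fin s → Fin v) × (Fin s → Fin v) → ZMod 3 → Finset (Finset (Fin v)))
    (hY : ∀ s ≤ t, ∀ p, Oct p → ∀ a, ∀ S ∈ Y s p a, Disjoint S (opts p)) (E : ℕ)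
    (m : ℕ → ℕ → ℝ)
    (hbal : ∀ s ≤ t, ∀ p, Oct p → ∀ a, ∀ R : Finset (Fin v), R.card ≤ t →
      Disjoint R (opts p) →
        |(((Y s p a).filter (fun S => R ⊆ S)).card : ℝ) - m s R.card| ≤ (E : ℝ))
    (T : Finset (Fin v)) (hT : T.card ≤ t) (i : ZMod 3) :
    |3 * (∑ x ∈ gL t v, ∑ S ∈ Y x.1 x.2.1 x.2.2, ∑ J : Finset (Fin x.1),
        if T ⊆ S ∪ tr x.2.1 J ∧ x.2.2 + par J = i then (1 : ℝ) else 0) -
      ∑ x ∈ gL t v, ∑ S ∈ Y x.1 x.2.1 x.2.2, ∑ J : Finset (Fin x.1),
        if T ⊆ S ∪ tr x.2.1 J then (1 : ℝ) else 0| ≤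
      4 * E * ((∑ s ∈ range (t + 1), v ^ (2 * s) * 2 ^ s : ℕ) : ℝ) := by
  classical
  have e1 : ∀ h : Idx2 v → ℝ, ∑ x ∈ gL t v, h x = ∑ s ∈ range (t + 1),
      ∑ p ∈ (univ : Finset ((Fin s → Fin v) × (Fin s → Fin v))).filter Oct,
        ∑ a : ZMod 3, h ⟨s, (p, a)⟩ := by
    intro h
    unfold gL
    rw [sum_sigma]
    refine sum_congr rfl fun s _ => ?_
    rw [sum_product]
  rw [e1, e1, mul_sum, ← sum_sub_distrib]
  refine (abs_sum_le_sum_abs _ _).trans ?_
  rw [Nat.cast_sum, mul_sum]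
  refine sum_le_sum fun s hs => ?_
  have hst : s ≤ t := Nat.lt_succ_iff.1 (mem_range.1 hs)
  rw [mul_sum, ← sum_sub_distrib]
  refine (abs_sum_le_sum_abs _ _).trans ?_
  have h2 : ∀ p ∈ (univ : Finset ((Fin s → Fin v) × (Fin s → Fin v))).filter Oct,
      |3 * (∑ a : ZMod 3, ∑ S ∈ Y s p a, ∑ J : Finset (Fin s),
        if T ⊆ S ∪ tr p J ∧ a + par J = i then (1 : ℝ) else 0) -
        ∑ a : ZMod 3, ∑ S ∈ Y s p a, ∑ J : Finset (Fin s),
        if T ⊆ S ∪ tr p J then (1 : ℝ) else 0| ≤ 4 * 2 ^ s * E := by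
    intro p hp
    have hp' : Oct p := (mem_filter.1 hp).2
    exact pool_disc t v s p hp' (Y s p) (hY s hst p hp') E (m s) (hbal s hst p hp') T hT i
  refine (sum_le_sum h2).trans ?_
  rw [sum_const, nsmul_eq_mul]
  have h3 : (((univ : Finset ((Fin s → Fin v) × (Fin s → Fin v))).filter Oct).card : ℝ) ≤
      ((v ^ (2 * s) : ℕ) : ℝ) := by
    have : ((univ : Finset ((Fin s → Fin v) × (Fin s → Fin v))).filter Oct).card ≤
        v ^ (2 * s) := by
      refine (card_filter_le _ _).trans ?_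
      rw [card_univ, Fintype.card_prod, Fintype.card_fun, Fintype.card_fin, Fintype.card_fin]
      rw [two_mul, pow_add]
    exact_mod_cast this
  calc _ ≤ ((v ^ (2 * s) : ℕ) : ℝ) * (4 * 2 ^ s * (E : ℝ)) :=
        mul_le_mul_of_nonneg_right h3 (by positivity)
    _ = 4 * (E : ℝ) * ((v ^ (2 * s) * 2 ^ s : ℕ) : ℝ) := by push_cast; ring

theorem absorb2 (t k v : ℕ) (hv : 1 ≤ v) (hk : 2 * t ≤ k) (_hkv : k ≤ v)
    (hdiv : ∀ i ≤ t, 3 ∣ (v - i).choose (k - i))
    (hbig : ∀ s ≤ t, nP t v * nK t v ≤ (v - 2 * s).choose (k - s)) :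
    G (t + 1) k v := by
  classical
  obtain ⟨Y, hY1, hY2, hY3⟩ := choose_pools t k v hk hbig
  have hPK : 0 < nP t v * nK t v := by
    apply Nat.mul_pos
    · unfold nP
      exact Nat.mul_pos (by omega) (by omega)
    · unfold nK
      apply Nat.mul_pos
      · apply Nat.mul_pos (by norm_num)
        refine sum_pos' (fun _ _ => Nat.zero_le _) ⟨0, mem_range.2 (by omega), ?_⟩
        simp
      · apply Nat.mul_pos (by omega) (by positivity)
  have hCpos : ∀ s ≤ t, 0 < (v - 2 * s).choose (k - s) :=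
    fun s hs => lt_of_lt_of_le hPK (hbig s hs)
  have hkvs : ∀ s ≤ t, k - s ≤ v - 2 * s := by
    intro s hs
    by_contra hcon
    have := hCpos s hs
    rw [Nat.choose_eq_zero_of_lt (by omega)] at this
    exact absurd this (lt_irrefl 0)
  set P : Finset (Finset (Fin v)) := powersetCard k univ with hP
  set Yx : Idx2 v → Finset (Finset (Fin v)) := fun x => Y x.1 x.2.1 x.2.2 with hYx
  set J : Finset (BIdx2 v) := (gL t v).sigma
    (fun x => Yx x ×ˢ (univ : Finset (Finset (Fin x.1)))) with hJ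
  set F : BIdx2 v → Finset (Fin v) := fun y => y.2.1 ∪ tr y.1.2.1 y.2.2 with hF
  have hJmem : ∀ y : BIdx2 v, y ∈ J → y.1 ∈ gL t v ∧ y.2.1 ∈ Y y.1.1 y.1.2.1 y.1.2.2 := by
    intro y hy
    rw [hJ, mem_sigma, mem_product] at hy
    exact ⟨hy.1, hy.2.1⟩
  have hFP : ∀ y ∈ J, F y ∈ P := by
    intro y hy
    obtain ⟨hx, hS⟩ := hJmem y hy
    have hx' := mem_gL.1 hx
    obtain ⟨h1, h2⟩ := hY1 _ hx'.1 _ hx'.2 _ _ hS
    rw [hP, mem_powersetCard]
    refine ⟨subset_univ _, ?_⟩
    simp only [hF]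
    rw [blkS_card hx'.2 h2, h1]
    have := hx'.1
    omega
  have hFinj : Set.InjOn F J := by
    rintro ⟨x, q⟩ hy ⟨x', q'⟩ hy' h
    obtain ⟨hx, hS⟩ := hJmem _ (mem_coe.1 hy)
    obtain ⟨hx', hS'⟩ := hJmem _ (mem_coe.1 hy')
    by_cases hxx : x = x'
    · subst hxx
      have hx0 := mem_gL.1 hx
      obtain ⟨-, h2⟩ := hY1 _ hx0.1 _ hx0.2 _ _ hS
      obtain ⟨-, h2'⟩ := hY1 _ hx0.1 _ hx0.2 _ _ hS'
      have := blkS_inj hx0.2 h2 h2' h
      obtain ⟨q1, q2⟩ := q
      obtain ⟨q1', q2'⟩ := q'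
      simp only at this
      obtain ⟨rfl, rfl⟩ := this
      rfl
    · exact absurd h (hY3 x hx x' hx' hxx _ hS _ hS' _ _)
  -- rounding
  set S₀ : Finset (Finset (Fin v)) := P \ J.image F with hS₀
  set IT : Finset (Finset (Fin v)) := univ.filter (fun T => T.card ≤ t) with hIT
  obtain ⟨χ₁, hχ₁⟩ := rounding3 S₀ IT (fun B T => if T ⊆ B then (1 : ℝ) else 0) (by
    intro B _ T _
    split_ifs <;> simp)
  -- base colouring
  obtain ⟨χ₀, hχ₀⟩ := ab_split P J F hFP hFinj χ₁ (fun y => y.1.2.2 + par y.2.2)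
  have hPT : ∀ T : Finset (Fin v), T.card ≤ t →
      (P.filter (fun B => T ⊆ B)).card = (v - T.card).choose (k - T.card) := by
    intro T hT
    rw [hP, card_filter_powersetCard_subset T univ k (subset_univ _) (by omega), card_univ,
      Fintype.card_fin]
  set d : ZMod 3 → Finset (Fin v) → ℤ := fun i T =>
    (((P.filter (fun B => χ₀ B = i)).filter (fun B => T ⊆ B)).card : ℤ) -
      (((v - T.card).choose (k - T.card) / 3 : ℕ) : ℤ) with hd
  have hrel : ∀ i, Rel t k (d i) := by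
    intro i
    apply ab_rel_sub
    · apply ab_rel_count
      intro B hB
      exact (mem_powersetCard.1 (mem_filter.1 hB).1).2
    · exact ab_rel_tau t k v (Fintype.card_fin v) (by omega) hdiv
  have hff : ∀ (i : ZMod 3) (T : Finset (Fin v)),
      (P.filter (fun B => χ₀ B = i)).filter (fun B => T ⊆ B) =
        P.filter (fun B => T ⊆ B ∧ χ₀ B = i) := by
    intro i T
    rw [filter_filter]
    apply filter_congr
    intro B _
    exact and_comm
  have hfib : ∀ (T : Finset (Fin v)),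
      ∑ i, (P.filter (fun B => T ⊆ B ∧ χ₀ B = i)).card = (P.filter (fun B => T ⊆ B)).card := by
    intro T
    rw [card_eq_sum_card_fiberwise (f := χ₀) (t := univ) (fun _ _ => mem_coe.2 (mem_univ _))]
    refine sum_congr rfl fun i _ => ?_
    rw [filter_filter]
  have hsum : ∀ T : Finset (Fin v), T.card ≤ t → ∑ i, d i T = 0 := by
    intro T hT
    simp only [hd, sum_sub_distrib, hff]
    rw [← Nat.cast_sum, hfib T, hPT T hT, sum_const, card_univ, ZMod.card, nsmul_eq_mul]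
    have := Nat.mul_div_cancel' (hdiv T.card hT)
    omega
  have hbd : ∀ i, ∀ T : Finset (Fin v), T.card ≤ t → |d i T| ≤ nX t v := by
    intro i T hT
    have hGs : ∑ i : ZMod 3, (J.filter (fun y => T ⊆ F y ∧
        y.1.2.2 + par y.2.2 = i)).card = (J.filter (fun y => T ⊆ F y)).card := by
      rw [card_eq_sum_card_fiberwise (f := fun y : BIdx2 v => y.1.2.2 + par y.2.2)
        (t := univ) (fun _ _ => mem_coe.2 (mem_univ _))]
      refine sum_congr rfl fun i _ => ?_
      rw [filter_filter]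
    have hSs : ∑ i : ZMod 3, (S₀.filter (fun B => T ⊆ B ∧ χ₁ B = i)).card =
        (S₀.filter (fun B => T ⊆ B)).card := by
      rw [card_eq_sum_card_fiberwise (f := χ₁) (t := univ) (fun _ _ => mem_coe.2 (mem_univ _))]
      refine sum_congr rfl fun i _ => ?_
      rw [filter_filter]
    have hN : (P.filter (fun B => T ⊆ B)).card =
        (S₀.filter (fun B => T ⊆ B)).card + (J.filter (fun y => T ⊆ F y)).card := by
      rw [← hfib T, ← hSs, ← hGs, ← sum_add_distrib]
      exact sum_congr rfl fun i _ => hχ₀ _ i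
    have h1 := hχ₀ (fun B => T ⊆ B) i
    rw [← hS₀] at h1
    have h2 := hχ₁ T (mem_filter.2 ⟨mem_univ _, hT⟩) i
    rw [sum_boole, sum_boole, filter_filter] at h2
    have h3 : (S₀.filter (fun B => χ₁ B = i ∧ T ⊆ B)) = S₀.filter (fun B => T ⊆ B ∧ χ₁ B = i) := by
      apply filter_congr
      intro B _
      exact and_comm
    rw [h3] at h2
    have h4 : 3 * d i T = (3 * ((S₀.filter (fun B => T ⊆ B ∧ χ₁ B = i)).card : ℤ) -
        (S₀.filter (fun B => T ⊆ B)).card) +
        (3 * ((J.filter (fun y => T ⊆ F y ∧ y.1.2.2 + par y.2.2 = i)).card : ℤ) -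
        (J.filter (fun y => T ⊆ F y)).card) := by
      simp only [hd, hff]
      have h5 := Nat.mul_div_cancel' (hdiv T.card hT)
      have h6 := hPT T hT
      omega
    have h8 : ((IT.card : ℕ) : ℝ) ≤ (nI t v : ℝ) := by
      exact_mod_cast ab_small_card t v
    have h10 := pools_disc t v Y (fun s hs p hp a S hS => (hY1 s hs p hp a S hS).2)
      (nI t v + 1) (fun s r => (nP t v : ℕ) * mu k v s r)
      (fun s hs p hp a R hR hRd => hY2 s hs p hp a R hR hRd) T hT i
    have h11 : ((J.filter (fun y => T ⊆ F y ∧ y.1.2.2 + par y.2.2 = i)).card : ℝ) =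
        ∑ x ∈ gL t v, ∑ S ∈ Y x.1 x.2.1 x.2.2, ∑ J : Finset (Fin x.1),
        if T ⊆ S ∪ tr x.2.1 J ∧ x.2.2 + par J = i then (1 : ℝ) else 0 := by
      rw [card_filter, Nat.cast_sum, hJ, sum_blocks]
      refine sum_congr rfl fun x _ => sum_congr rfl fun S _ => sum_congr rfl fun q _ => ?_
      simp only [hF]
      split_ifs <;> simp
    have h12 : ((J.filter (fun y => T ⊆ F y)).card : ℝ) =
        ∑ x ∈ gL t v, ∑ S ∈ Y x.1 x.2.1 x.2.2, ∑ J : Finset (Fin x.1),
        if T ⊆ S ∪ tr x.2.1 J then (1 : ℝ) else 0 := by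
      rw [card_filter, Nat.cast_sum, hJ, sum_blocks]
      refine sum_congr rfl fun x _ => sum_congr rfl fun S _ => sum_congr rfl fun q _ => ?_
      simp only [hF]
      split_ifs <;> simp
    rw [← h11, ← h12] at h10
    have h4' : 3 * (d i T : ℝ) = (3 * ((S₀.filter (fun B => T ⊆ B ∧ χ₁ B = i)).card : ℝ) -
        (S₀.filter (fun B => T ⊆ B)).card) +
        (3 * ((J.filter (fun y => T ⊆ F y ∧ y.1.2.2 + par y.2.2 = i)).card : ℝ) -
        (J.filter (fun y => T ⊆ F y)).card) := by exact_mod_cast h4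
    have h9 : |(d i T : ℝ)| ≤ (nX t v : ℝ) := by
      unfold nX
      have hI0 : (0 : ℝ) ≤ (nI t v : ℝ) := Nat.cast_nonneg _
      have hS0 : (0 : ℝ) ≤ ((∑ s ∈ range (t + 1), v ^ (2 * s) * 2 ^ s : ℕ) : ℝ) :=
        Nat.cast_nonneg _
      have hprod : (0 : ℝ) ≤ ((nI t v : ℝ) + 1) *
          ((∑ s ∈ range (t + 1), v ^ (2 * s) * 2 ^ s : ℕ) : ℝ) := by positivity
      push_cast at h10 hprod ⊢
      rw [abs_le] at h2 h10 ⊢
      constructor
      · nlinarith [h2.1, h2.2, h10.1, h10.2]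
      · nlinarith [h2.1, h2.2, h10.1, h10.2]
    have : ((|d i T| : ℤ) : ℝ) ≤ ((nX t v : ℕ) : ℝ) := by
      rw [Int.cast_abs]
      exact h9
    exact_mod_cast this
  obtain ⟨w, hw1, hw2, hw3⟩ := correct2 t k v hv d hsum hrel hbd Y
    (fun s p S T => effS p S T)
    (fun s hs p hp a S hS T hT => effS_zero hp (hY1 s hs p hp a S hS).2 T hT)
    (fun s hs p hp a S hS T hT => effS_pod hp (hY1 s hs p hp a S hS).2 T hT)
    (fun s hs p hp a S hS T => effS_abs hp (hY1 s hs p hp a S hS).2 T)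
    (fun s hs p hp a S hS => effS_rel t k hp (hY1 s hs p hp a S hS).2 (by
      rw [(hY1 s hs p hp a S hS).1]
      omega))
    (fun s r => mu k v s (r - s))
    (by
      intro s hs p hp T hT
      have h1 : |∑ U ∈ powersetCard s T, (pod p U : ℝ)| ≤ 1 := by
        have := pod_sum_abs hp T
        have h7 : ((|∑ U ∈ powersetCard s T, pod p U| : ℤ) : ℝ) ≤ 1 := by exact_mod_cast this
        rw [Int.cast_abs] at h7
        push_cast at h7
        exact h7
      rw [abs_mul]
      have h2 := mu_nonneg k v s (T.card - s)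
      have h3 := mu_le_one k v s (T.card - s) (by omega) (hkvs s hs)
      rw [abs_of_nonneg h2]
      exact mul_le_one₀ h3 (abs_nonneg _) h1)
    (by
      intro s hs p hp a T hT
      exact mean_eff t k v s p hp (Y s p a) (fun S hS => (hY1 s hs p hp a S hS).2) (nP t v)
        (nI t v + 1) (fun R hR hRd => hY2 s hs p hp a R hR hRd) T hT)
    (by
      intro s hs p hp a
      have h2 := hY2 s hs p hp a ∅ (by simp) (disjoint_empty_left _)
      have h3 : (Y s p a).filter (fun S => (∅ : Finset (Fin v)) ⊆ S) = Y s p a := by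
        apply filter_true_of_mem
        intro S _
        exact empty_subset S
      rw [h3, card_empty, mu_zero k v s (hCpos s hs), mul_one] at h2
      exact h2)
  -- the final colouring
  obtain ⟨χ, hχ⟩ := ab_split P J F hFP hFinj χ₁
    (fun y => if y.2.1 ∈ w y.1.1 y.1.2.1 y.1.2.2 then y.1.2.2 + 1 - par y.2.2
      else y.1.2.2 + par y.2.2)
  have hmain : ∀ (T : Finset (Fin v)), T.card ≤ t → ∀ i : ZMod 3,
      3 * (P.filter (fun B => T ⊆ B ∧ χ B = i)).card = (P.filter (fun B => T ⊆ B)).card := by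
    intro T hT i
    have h1 := hχ (fun B => T ⊆ B) i
    have h2 := hχ₀ (fun B => T ⊆ B) i
    have h3 : ((J.filter (fun y => T ⊆ F y ∧
        (if y.2.1 ∈ w y.1.1 y.1.2.1 y.1.2.2 then y.1.2.2 + 1 - par y.2.2
          else y.1.2.2 + par y.2.2) = i)).card : ℤ) =
        (J.filter (fun y => T ⊆ F y ∧ y.1.2.2 + par y.2.2 = i)).card +
        ∑ s ∈ range (t + 1), chg2 (fun p S T => effS p S T) (w s) i T := by
      rw [card_filter, card_filter, Nat.cast_sum, Nat.cast_sum, hJ, sum_blocks, sum_blocks]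
      have h4 : ∑ s ∈ range (t + 1), chg2 (fun p S T => effS p S T) (w s) i T =
          ∑ x ∈ gL t v, ∑ S ∈ w x.1 x.2.1 x.2.2, sg i x.2.2 * effS x.2.1 S T := by
        rw [sum_gL t v (fun x => ∑ S ∈ w x.1 x.2.1 x.2.2, sg i x.2.2 * effS x.2.1 S T)]
        · rfl
        · intro s p a hp
          simp only
          rw [hw2 s p a hp, sum_empty]
      rw [h4, ← sum_add_distrib]
      refine sum_congr rfl fun x hx => ?_
      have h5 : ∑ S ∈ w x.1 x.2.1 x.2.2, sg i x.2.2 * effS x.2.1 S T =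
          ∑ S ∈ Yx x, if S ∈ w x.1 x.2.1 x.2.2 then sg i x.2.2 * effS x.2.1 S T else 0 := by
        rw [← sum_filter]
        congr 1
        ext S
        simp only [mem_filter]
        exact ⟨fun h => ⟨hw1 _ _ _ h, h⟩, fun h => h.2⟩
      rw [h5, ← sum_add_distrib]
      refine sum_congr rfl fun S _ => ?_
      simp only [hF]
      by_cases hS : S ∈ w x.1 x.2.1 x.2.2
      · simp only [hS, if_true]
        have := swap2 x.2.1 S T x.2.2 i
        push_cast
        exact this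
      · simp only [hS, if_false, add_zero]
    have h4 := hw3 i T hT
    have h5 := Nat.mul_div_cancel' (hdiv T.card hT)
    have h6 := hPT T hT
    simp only [hd, hff] at h4
    omega
  have hgood : Good (t + 1) P := ⟨χ, fun T hT i => hmain T (by omega) i⟩
  have := (good_powersetCard_iff (univ : Finset (Fin v))).1 hgood
  rwa [card_univ, Fintype.card_fin] at this

end Pool.Agent.LS3
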