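import Pool.Agent.Lib.MP_2c0b9b_co_NL.Defs
import Pool.Agent.Lib.MP_2c0b9b_co.Gadget

/-!
# The gadgets `(p, S)`
-/

set_option autoImplicit false

open Finset

namespace Pool.Agent.LS3

section
variable {α : Type*} [DecidableEq α] {s : ℕ} {p : (Fin s → α) × (Fin s → α)}

private theorem GadS_fst (h : Oct p) (J : Finset (Fin s)) (i : Fin s) :
    p.1 i ∈ tr p J ↔ i ∉ J := by
  rw [PodAux.mem_tr]
  constructor
  · rintro ⟨j, ⟨_, h2⟩ | ⟨h1, h2⟩⟩
    · exact absurd h2.symm (PodAux.oct_ne h)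
    · rwa [← PodAux.oct_inj1 h h2]
  · exact fun h1 => ⟨i, Or.inr ⟨h1, rfl⟩⟩

private theorem GadS_snd (h : Oct p) (J : Finset (Fin s)) (i : Fin s) :
    p.2 i ∈ tr p J ↔ i ∈ J := by
  rw [PodAux.mem_tr]
  constructor
  · rintro ⟨j, ⟨h1, h2⟩ | ⟨_, h2⟩⟩
    · rwa [← PodAux.oct_inj2 h h2]
    · exact absurd h2 (PodAux.oct_ne h)
  · exact fun h1 => ⟨i, Or.inl ⟨h1, rfl⟩⟩

private theorem GadS_opts (a : α) : a ∈ opts p ↔ ∃ i, p.1 i = a ∨ p.2 i = a := by
  unfold opts
  rw [mem_image]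
  constructor
  · rintro ⟨x, -, hx⟩
    rcases x with i | i
    · exact ⟨i, Or.inl hx⟩
    · exact ⟨i, Or.inr hx⟩
  · rintro ⟨i, hx | hx⟩
    · exact ⟨Sum.inl i, mem_univ _, hx⟩
    · exact ⟨Sum.inr i, mem_univ _, hx⟩

private theorem GadS_tr_le (J : Finset (Fin s)) (T : Finset α) :
    tr p J ⊆ T ↔ ∀ i, (i ∈ J → p.2 i ∈ T) ∧ (i ∉ J → p.1 i ∈ T) := by
  constructor
  · intro h i
    exact ⟨fun hi => h (PodAux.mem_tr.2 ⟨i, Or.inl ⟨hi, rfl⟩⟩),
      fun hi => h (PodAux.mem_tr.2 ⟨i, Or.inr ⟨hi, rfl⟩⟩)⟩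
  · intro h a ha
    obtain ⟨i, ⟨h1, rfl⟩ | ⟨h1, rfl⟩⟩ := PodAux.mem_tr.1 ha
    · exact (h i).1 h1
    · exact (h i).2 h1

/-- Sign reversing involution. -/
private theorem GadS_flip (P : Finset (Fin s) → Prop) [DecidablePred P] (i : Fin s)
    (hP : ∀ J, P (symmDiff J {i}) ↔ P J) :
    ∑ J : Finset (Fin s), (if P J then (-1 : ℤ) ^ J.card else 0) = 0 := by
  have hinv : ∀ J : Finset (Fin s), symmDiff (symmDiff J {i}) {i} = J := fun J =>
    symmDiff_symmDiff_cancel_right _ _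
  have h3 : ∑ J : Finset (Fin s), (if P J then (-1 : ℤ) ^ J.card else 0) =
      ∑ J : Finset (Fin s),
        if P (symmDiff J {i}) then (-1 : ℤ) ^ (symmDiff J {i}).card else 0 :=
    (Equiv.sum_comp (Function.Involutive.toPerm (fun J : Finset (Fin s) => symmDiff J {i})
      hinv) (fun J => if P J then (-1 : ℤ) ^ J.card else 0)).symm
  have key : ∑ J : Finset (Fin s), (if P J then (-1 : ℤ) ^ J.card else 0) =
      - ∑ J : Finset (Fin s), (if P J then (-1 : ℤ) ^ J.card else 0) := by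
    refine h3.trans ?_
    rw [← Finset.sum_neg_distrib]
    refine Finset.sum_congr rfl fun J _ => ?_
    simp only [hP, gad_pow_flip]
    split_ifs <;> simp
  omega

private theorem GadS_symm (J : Finset (Fin s)) {i j : Fin s} (hij : j ≠ i) :
    j ∈ symmDiff J {i} ↔ j ∈ J := by
  rw [Finset.mem_symmDiff, Finset.mem_singleton]
  tauto

private theorem GadS_sum (h : Oct p) (T : Finset α) :
    ∑ U ∈ powersetCard s T, pod p U =
      ∑ J : Finset (Fin s), if tr p J ⊆ T then (-1 : ℤ) ^ J.card else 0 := by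
  unfold pod
  rw [Finset.sum_comm]
  refine Finset.sum_congr rfl fun J _ => ?_
  rw [Finset.sum_ite_eq]
  have hiff : tr p J ∈ powersetCard s T ↔ tr p J ⊆ T := by
    rw [mem_powersetCard]
    exact ⟨fun h1 => h1.1, fun h1 => ⟨h1, PodAux.card_tr h J⟩⟩
  simp only [hiff]

/-- A missed pair. -/
private theorem GadS_a (h : Oct p) {T : Finset α} {i : Fin s} (h1 : p.1 i ∉ T)
    (h2 : p.2 i ∉ T) : ∑ U ∈ powersetCard s T, pod p U = 0 := by
  rw [GadS_sum h]
  refine Finset.sum_eq_zero fun J _ => ?_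
  rw [if_neg]
  intro h3
  rw [GadS_tr_le] at h3
  by_cases hi : i ∈ J
  · exact h2 ((h3 i).1 hi)
  · exact h1 ((h3 i).2 hi)

/-- A contained pair. -/
private theorem GadS_b (h : Oct p) {T : Finset α} {i : Fin s} (h1 : p.1 i ∈ T)
    (h2 : p.2 i ∈ T) : ∑ U ∈ powersetCard s T, pod p U = 0 := by
  rw [GadS_sum h]
  have hstep : ∀ J, tr p J ⊆ T → tr p (symmDiff J {i}) ⊆ T := by
    intro J hJ
    rw [GadS_tr_le] at hJ ⊢
    intro j
    by_cases hj : j = i
    · subst hj
      exact ⟨fun _ => h2, fun _ => h1⟩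
    · rw [GadS_symm J hj]
      exact hJ j
  refine GadS_flip (fun J => tr p J ⊆ T) i fun J => ⟨fun h3 => ?_, hstep J⟩
  have h4 := hstep _ h3
  rwa [symmDiff_symmDiff_cancel_right] at h4

/-- The transversal defined by `T`. -/
private def GadS_J (p : (Fin s → α) × (Fin s → α)) (T : Finset α) : Finset (Fin s) :=
  univ.filter fun i => p.2 i ∈ T

private theorem GadS_mem_J (T : Finset α) (i : Fin s) : i ∈ GadS_J p T ↔ p.2 i ∈ T := by
  unfold GadS_J
  rw [mem_filter]
  exact ⟨fun h => h.2, fun h => ⟨mem_univ _, h⟩⟩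

private theorem GadS_tr_J {T : Finset α} (hT : ∀ i, p.1 i ∈ T ↔ p.2 i ∉ T) (J : Finset (Fin s)) :
    tr p J ⊆ T ↔ J = GadS_J p T := by
  rw [GadS_tr_le]
  constructor
  · intro h3
    ext i
    rw [GadS_mem_J]
    constructor
    · exact (h3 i).1
    · intro h4
      by_contra h5
      exact (hT i).1 ((h3 i).2 h5) h4
  · rintro rfl i
    rw [GadS_mem_J]
    exact ⟨id, (hT i).2⟩

/-- The remaining case. -/
private theorem GadS_c (h : Oct p) {T : Finset α} (hT : ∀ i, p.1 i ∈ T ↔ p.2 i ∉ T) :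
    ∑ U ∈ powersetCard s T, pod p U = (-1) ^ (GadS_J p T).card := by
  rw [GadS_sum h]
  simp only [GadS_tr_J hT]
  rw [Finset.sum_ite_eq']
  rw [if_pos (mem_univ _)]

private theorem GadS_cases (p : (Fin s → α) × (Fin s → α)) (T : Finset α) :
    (∃ i, p.1 i ∉ T ∧ p.2 i ∉ T) ∨ (∃ i, p.1 i ∈ T ∧ p.2 i ∈ T) ∨
      ∀ i, p.1 i ∈ T ↔ p.2 i ∉ T := by
  by_cases h1 : ∃ i, p.1 i ∉ T ∧ p.2 i ∉ T
  · exact Or.inl h1
  · by_cases h2 : ∃ i, p.1 i ∈ T ∧ p.2 i ∈ T
    · exact Or.inr (Or.inl h2)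
    · refine Or.inr (Or.inr fun i => ⟨fun h3 h4 => h2 ⟨i, h3, h4⟩, fun h3 => ?_⟩)
      by_contra h4
      exact h1 ⟨i, h4, h3⟩

theorem opts_card (h : Oct p) : (opts p).card = 2 * s := by
  unfold opts
  rw [card_image_of_injective _ h, card_univ, Fintype.card_sum, Fintype.card_fin]
  omega

theorem tr_subset_opts (J : Finset (Fin s)) : tr p J ⊆ opts p := by
  rw [GadS_tr_le]
  intro i
  exact ⟨fun _ => (GadS_opts _).2 ⟨i, Or.inr rfl⟩, fun _ => (GadS_opts _).2 ⟨i, Or.inl rfl⟩⟩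

theorem blkS_card (h : Oct p) {S : Finset α} (hS : Disjoint S (opts p)) (J : Finset (Fin s)) :
    (S ∪ tr p J).card = S.card + s := by
  rw [card_union_of_disjoint (disjoint_of_subset_right (tr_subset_opts J) hS),
    PodAux.card_tr h J]

private theorem GadS_mem_opts {S : Finset α} (hS : Disjoint S (opts p)) {J : Finset (Fin s)}
    {a : α} (ha : a ∈ opts p) : a ∈ S ∪ tr p J ↔ a ∈ tr p J := by
  rw [mem_union]
  exact ⟨fun h => h.resolve_left fun h1 => Finset.disjoint_left.1 hS h1 ha, Or.inr⟩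

private theorem GadS_mem_other {S : Finset α} {J : Finset (Fin s)}
    {a : α} (ha : a ∉ opts p) : a ∈ S ∪ tr p J ↔ a ∈ S := by
  rw [mem_union]
  exact ⟨fun h => h.resolve_right fun h1 => ha (tr_subset_opts J h1), Or.inl⟩

theorem blkS_inj (h : Oct p) {S S' : Finset α} (hS : Disjoint S (opts p))
    (hS' : Disjoint S' (opts p)) {J J' : Finset (Fin s)} (e : S ∪ tr p J = S' ∪ tr p J') :
    S = S' ∧ J = J' := by
  constructor
  · ext a
    by_cases ha : a ∈ opts p
    · exact ⟨fun h1 => absurd ha (Finset.disjoint_left.mp hS h1),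
        fun h1 => absurd ha (Finset.disjoint_left.mp hS' h1)⟩
    · rw [← GadS_mem_other (J := J) (S := S) ha, e, GadS_mem_other ha]
  · ext i
    have ha : p.2 i ∈ opts p := (GadS_opts _).2 ⟨i, Or.inr rfl⟩
    rw [← GadS_snd h J, ← GadS_mem_opts hS ha, e, GadS_mem_opts hS' ha, GadS_snd h]

/-- The number of transversals inside `T`, with signs. -/
theorem pod_sum_abs (h : Oct p) (T : Finset α) : |∑ U ∈ powersetCard s T, pod p U| ≤ 1 := by
  rcases GadS_cases p T with ⟨i, h1, h2⟩ | ⟨i, h1, h2⟩ | h1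
  · rw [GadS_a h h1 h2]
    simp
  · rw [GadS_b h h1 h2]
    simp
  · rw [GadS_c h h1, abs_pow, abs_neg, abs_one, one_pow]

theorem pod_sum_card (h : Oct p) {T : Finset α} (hT : ∑ U ∈ powersetCard s T, pod p U ≠ 0) :
    (T \ opts p).card + s = T.card := by
  rcases GadS_cases p T with ⟨i, h1, h2⟩ | ⟨i, h1, h2⟩ | h1
  · exact absurd (GadS_a h h1 h2) hT
  · exact absurd (GadS_b h h1 h2) hT
  · have h2 : T ∩ opts p = tr p (GadS_J p T) := by
      ext a
      rw [mem_inter]
      constructor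
      · rintro ⟨h3, h4⟩
        obtain ⟨i, hi | hi⟩ := (GadS_opts a).1 h4
        · subst hi
          rw [GadS_fst h, GadS_mem_J]
          exact (h1 i).1 h3
        · subst hi
          rw [GadS_snd h, GadS_mem_J]
          exact h3
      · intro h3
        exact ⟨((GadS_tr_J h1 _).2 rfl) h3, tr_subset_opts _ h3⟩
    have h3 := Finset.card_sdiff_add_card_inter T (opts p)
    rw [h2, PodAux.card_tr h] at h3
    exact h3

private theorem GadS_sub {S : Finset α} (hS : Disjoint S (opts p)) (T : Finset α)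
    (J : Finset (Fin s)) : T ⊆ S ∪ tr p J ↔ T \ opts p ⊆ S ∧ T ∩ opts p ⊆ tr p J := by
  constructor
  · intro h1
    constructor
    · intro a ha
      obtain ⟨h2, h3⟩ := mem_sdiff.1 ha
      exact (GadS_mem_other h3).1 (h1 h2)
    · intro a ha
      obtain ⟨h2, h3⟩ := mem_inter.1 ha
      exact (GadS_mem_opts hS h3).1 (h1 h2)
  · rintro ⟨h1, h2⟩ a ha
    rw [mem_union]
    by_cases h3 : a ∈ opts p
    · exact Or.inr (h2 (mem_inter.2 ⟨ha, h3⟩))
    · exact Or.inl (h1 (mem_sdiff.2 ⟨ha, h3⟩))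

private theorem GadS_inter (h : Oct p) (T : Finset α) (J : Finset (Fin s)) :
    T ∩ opts p ⊆ tr p J ↔ ∀ i, (p.1 i ∈ T → i ∉ J) ∧ (p.2 i ∈ T → i ∈ J) := by
  constructor
  · intro h1 i
    constructor
    · intro h2
      exact (GadS_fst h J i).1 (h1 (mem_inter.2 ⟨h2, (GadS_opts _).2 ⟨i, Or.inl rfl⟩⟩))
    · intro h2
      exact (GadS_snd h J i).1 (h1 (mem_inter.2 ⟨h2, (GadS_opts _).2 ⟨i, Or.inr rfl⟩⟩))
  · intro h1 a ha
    obtain ⟨h2, h3⟩ := mem_inter.1 ha
    obtain ⟨i, hi | hi⟩ := (GadS_opts a).1 h3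
    · subst hi
      exact (GadS_fst h J i).2 ((h1 i).1 h2)
    · subst hi
      exact (GadS_snd h J i).2 ((h1 i).2 h2)

theorem effS_eq (h : Oct p) {S : Finset α} (hS : Disjoint S (opts p)) (T : Finset α) :
    effS p S T = if T \ opts p ⊆ S then ∑ U ∈ powersetCard s T, pod p U else 0 := by
  unfold effS
  simp only [GadS_sub hS, GadS_inter h]
  split_ifs with hT
  · simp only [hT, true_and]
    rcases GadS_cases p T with ⟨i, h1, h2⟩ | ⟨i, h1, h2⟩ | h1
    · rw [GadS_a h h1 h2]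
      have hstep : ∀ J : Finset (Fin s), (∀ j, (p.1 j ∈ T → j ∉ J) ∧ (p.2 j ∈ T → j ∈ J)) →
          ∀ j, (p.1 j ∈ T → j ∉ symmDiff J {i}) ∧ (p.2 j ∈ T → j ∈ symmDiff J {i}) := by
        intro J hJ j
        by_cases hj : j = i
        · subst hj
          exact ⟨fun h3 => absurd h3 h1, fun h3 => absurd h3 h2⟩
        · rw [GadS_symm J hj]
          exact hJ j
      refine GadS_flip (fun J => ∀ j, (p.1 j ∈ T → j ∉ J) ∧ (p.2 j ∈ T → j ∈ J)) i
        fun J => ⟨fun h3 => ?_, hstep J⟩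
      have h4 := hstep _ h3
      rwa [symmDiff_symmDiff_cancel_right] at h4
    · rw [GadS_b h h1 h2]
      refine Finset.sum_eq_zero fun J _ => ?_
      rw [if_neg]
      intro h3
      exact (h3 i).1 h1 ((h3 i).2 h2)
    · rw [GadS_c h h1]
      have h2 : ∀ J : Finset (Fin s), (∀ j, (p.1 j ∈ T → j ∉ J) ∧ (p.2 j ∈ T → j ∈ J)) ↔
          J = GadS_J p T := by
        intro J
        constructor
        · intro h3
          ext i
          rw [GadS_mem_J]
          constructor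
          · intro h4
            by_contra h5
            exact (h3 i).1 ((h1 i).2 h5) h4
          · exact (h3 i).2
        · rintro rfl i
          rw [GadS_mem_J]
          exact ⟨(h1 i).1, id⟩
      simp only [h2]
      rw [Finset.sum_ite_eq', if_pos (mem_univ _)]
  · simp [hT]

theorem effS_abs (h : Oct p) {S : Finset α} (hS : Disjoint S (opts p)) (T : Finset α) :
    |effS p S T| ≤ 1 := by
  rw [effS_eq h hS]
  split_ifs
  · exact pod_sum_abs h T
  · simp

theorem effS_zero (h : Oct p) {S : Finset α} (hS : Disjoint S (opts p)) (T : Finset α)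
    (hT : T.card < s) : effS p S T = 0 := by
  rw [effS_eq h hS, powersetCard_eq_empty.2 hT]
  simp

theorem effS_pod (h : Oct p) {S : Finset α} (hS : Disjoint S (opts p)) (T : Finset α)
    (hT : T.card = s) : effS p S T = pod p T := by
  rw [effS_eq h hS]
  have h1 : powersetCard s T = {T} := by
    rw [← hT]
    exact powersetCard_self T
  rw [h1, sum_singleton]
  split_ifs with h2
  · rfl
  · symm
    unfold pod
    refine Finset.sum_eq_zero fun J _ => ?_
    rw [if_neg]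
    intro h3
    apply h2
    rw [← h3, sdiff_eq_empty_iff_subset.2 (tr_subset_opts J)]
    exact empty_subset _

theorem effS_rel [Fintype α] (t k : ℕ) (h : Oct p) {S : Finset α} (hS : Disjoint S (opts p))
    (hk : S.card + s = k) : Rel t k (effS p S) := by
  intro s' hs' R hR
  unfold effS
  rw [Finset.sum_comm, Finset.mul_sum]
  refine Finset.sum_congr rfl fun J _ => ?_
  rw [← Finset.sum_filter, Finset.sum_const, nsmul_eq_mul]
  have hcard : (S ∪ tr p J).card = k := by rw [blkS_card h hS, hk]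
  by_cases h1 : R ⊆ S ∪ tr p J
  · rw [if_pos h1, gad_count R _ h1 s' hR, hcard]
  · rw [if_neg h1, mul_zero]
    have h2 : (((powersetCard s' univ).filter (fun U => R ⊆ U)).filter
        (fun U => U ⊆ S ∪ tr p J)) = ∅ := by
      rw [Finset.eq_empty_iff_forall_notMem]
      intro U hU
      simp only [mem_filter] at hU
      exact h1 (hU.1.2.trans hU.2)
    rw [h2]
    simp

end

end Pool.Agent.LS3
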