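import Pool.Agent.Lib.MP_2c0b9b_co_NL.Defs

/-!
# Numerical estimates for near linear block sizes
-/

set_option autoImplicit false

open Finset

namespace Pool.Agent.LS3

private theorem NumB_aux (v j : ℕ) (h : 2 * j ≤ v) : (v + 1) ^ j * v ≤ v ^ j * (v + 2 * j) := by
  induction j with
  | zero => simp
  | succ j ih =>
    have ih' := ih (by omega)
    calc (v + 1) ^ (j + 1) * v = (v + 1) * ((v + 1) ^ j * v) := by ring
      _ ≤ (v + 1) * (v ^ j * (v + 2 * j)) := Nat.mul_le_mul_left _ ih'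
      _ = v ^ j * ((v + 1) * (v + 2 * j)) := by ring
      _ ≤ v ^ j * (v * (v + 2 * (j + 1))) := by
        apply Nat.mul_le_mul_left
        nlinarith
      _ = v ^ (j + 1) * (v + 2 * (j + 1)) := by ring

private theorem NumB_two (v j : ℕ) (h : 2 * j ≤ v) : (v + 1) ^ j ≤ 2 * v ^ j := by
  rcases Nat.eq_zero_or_pos v with h0 | h0
  · subst h0
    have : j = 0 := by omega
    subst this
    norm_num
  · have h1 := NumB_aux v j h
    have h2 : (v + 1) ^ j * v ≤ (2 * v ^ j) * v := by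
      refine h1.trans ?_
      calc v ^ j * (v + 2 * j) ≤ v ^ j * (2 * v) := by
            apply Nat.mul_le_mul_left
            omega
        _ = (2 * v ^ j) * v := by ring
    exact Nat.le_of_mul_le_mul_right h2 h0

private theorem NumB_geom (q t : ℕ) (hq : 2 ≤ q) : ∑ s ∈ range (t + 1), q ^ s ≤ 2 * q ^ t := by
  induction t with
  | zero => simp
  | succ t ih =>
    rw [sum_range_succ]
    have : 2 * q ^ t ≤ q ^ (t + 1) := by
      rw [pow_succ, mul_comm]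
      exact Nat.mul_le_mul_left _ hq
    omega

/-- The cost, when `v` is not small. -/
theorem cost_le (t v : ℕ) (ht : 4 ≤ t) (hv : 80 * t ≤ v) :
    nP t v * nK t v ≤ 2 ^ (9 * t) * v ^ (14 * t) := by
  obtain ⟨w, hw⟩ : ∃ w : ℕ, w = v ^ t := ⟨_, rfl⟩
  obtain ⟨A, hA⟩ : ∃ A : ℕ, A = 2 ^ t := ⟨_, rfl⟩
  have hv0 : 0 < v := by omega
  have hA1 : 16 ≤ A := by
    rw [hA]
    calc 16 = 2 ^ 4 := by norm_num
      _ ≤ 2 ^ t := Nat.pow_le_pow_right (by norm_num) ht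
  have hw1 : 13 * (t + 1) ≤ w := by
    rw [hw]
    calc 13 * (t + 1) ≤ v := by omega
      _ = v ^ 1 := (pow_one v).symm
      _ ≤ v ^ t := Nat.pow_le_pow_right hv0 (by omega)
  have hw0 : 1 ≤ w := by omega
  have hI : nI t v ≤ 2 * w := by
    rw [hw]
    exact NumB_two v t (by omega)
  have hS1 : ∑ s ∈ range (t + 1), v ^ (2 * s) * 2 ^ s ≤ 2 * (A * w ^ 2) := by
    have h1 : ∑ s ∈ range (t + 1), v ^ (2 * s) * 2 ^ s = ∑ s ∈ range (t + 1), (2 * v ^ 2) ^ s := by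
      refine sum_congr rfl fun s _ => ?_
      rw [mul_pow, ← pow_mul, mul_comm]
    rw [h1]
    refine (NumB_geom _ _ (by nlinarith)).trans (le_of_eq ?_)
    rw [hA, hw, mul_pow, ← pow_mul, ← pow_mul, mul_comm 2 t]
  have hS2 : ∑ s ∈ range (t + 1), v ^ (2 * s) ≤ 2 * w ^ 2 := by
    have h1 : ∑ s ∈ range (t + 1), v ^ (2 * s) = ∑ s ∈ range (t + 1), (v ^ 2) ^ s := by
      refine sum_congr rfl fun s _ => ?_
      rw [← pow_mul]
    rw [h1]
    refine (NumB_geom _ _ (by nlinarith)).trans (le_of_eq ?_)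
    rw [hw, ← pow_mul, ← pow_mul, mul_comm 2 t]
  have hw2 : w ≤ w ^ 2 := by nlinarith
  have hw3 : w ^ 2 ≤ w ^ 3 := Nat.pow_le_pow_right hw0 (by norm_num)
  have hX : nX t v ≤ 13 * (A * w ^ 3) := by
    have h1 : nX t v ≤ 2 * (2 * w) + 2 * (2 * w + 1) * (2 * (A * w ^ 2)) := by
      unfold nX
      gcongr
    refine h1.trans ?_
    have h2 : w ≤ A * w ^ 3 := by nlinarith
    have h3 : A * w ^ 2 ≤ A * w ^ 3 := Nat.mul_le_mul_left _ hw3
    calc 2 * (2 * w) + 2 * (2 * w + 1) * (2 * (A * w ^ 2)) =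
          4 * w + 8 * (A * w ^ 3) + 4 * (A * w ^ 2) := by ring
      _ ≤ _ := by
        have h4 : 16 * w ≤ A * w ^ 3 := by nlinarith
        omega
  have hw25 : v ^ (2 * t) = w ^ 2 := by rw [hw, ← pow_mul, mul_comm]
  have hM : nM t v ≤ 140 * (A * w ^ 5) := by
    unfold nM
    rw [hw25]
    have h1 : (t + 1) * (6 * nI t v + 1) ≤ A * w ^ 3 := by
      calc (t + 1) * (6 * nI t v + 1) ≤ (t + 1) * (13 * w) := by
            apply Nat.mul_le_mul_left
            omega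
        _ = (13 * (t + 1)) * w := by ring
        _ ≤ w * w := Nat.mul_le_mul_right _ hw1
        _ ≤ A * w ^ 3 := by nlinarith
    calc 10 * w ^ 2 * (nX t v + (t + 1) * (6 * nI t v + 1)) ≤
          10 * w ^ 2 * (13 * (A * w ^ 3) + A * w ^ 3) :=
          Nat.mul_le_mul_left _ (Nat.add_le_add hX h1)
      _ = 140 * (A * w ^ 5) := by ring
  have hAw5 : 1 ≤ A * w ^ 5 := Nat.mul_pos (by omega) (pow_pos hw0 5)
  have hP : nP t v ≤ 843 * (A * w ^ 6) := by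
    unfold nP
    calc (2 * nM t v + 1) * (nI t v + 1) ≤ (281 * (A * w ^ 5)) * (3 * w) :=
          Nat.mul_le_mul (by omega) (by omega)
      _ = 843 * (A * w ^ 6) := by ring
  have hAw6 : 3 * w ≤ A * w ^ 6 := by
    have h1 : w ≤ w ^ 6 := by
      calc w = w ^ 1 := (pow_one w).symm
        _ ≤ w ^ 6 := Nat.pow_le_pow_right hw0 (by norm_num)
    exact Nat.mul_le_mul (by omega) h1
  have hK : nK t v ≤ 5064 * (A ^ 2 * w ^ 8) := by
    unfold nK
    rw [← hA]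
    calc 3 * (∑ s ∈ range (t + 1), v ^ (2 * s)) * ((nP t v + nI t v + 1) * A) ≤
          3 * (2 * w ^ 2) * ((844 * (A * w ^ 6)) * A) := by
          refine Nat.mul_le_mul (Nat.mul_le_mul_left _ hS2) (Nat.mul_le_mul_right _ ?_)
          omega
      _ = 5064 * (A ^ 2 * w ^ 8) := by ring
  have hfin : (843 * 5064) * (A ^ 3) ≤ 2 ^ (9 * t) := by
    calc (843 * 5064) * (A ^ 3) ≤ 2 ^ 24 * A ^ 3 := Nat.mul_le_mul_right _ (by norm_num)
      _ = 2 ^ (24 + 3 * t) := by rw [hA, ← pow_mul, ← pow_add, mul_comm t 3]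
      _ ≤ 2 ^ (9 * t) := Nat.pow_le_pow_right (by norm_num) (by omega)
  calc nP t v * nK t v ≤ (843 * (A * w ^ 6)) * (5064 * (A ^ 2 * w ^ 8)) := Nat.mul_le_mul hP hK
    _ = ((843 * 5064) * A ^ 3) * w ^ 14 := by ring
    _ ≤ 2 ^ (9 * t) * w ^ 14 := Nat.mul_le_mul_right _ hfin
    _ = 2 ^ (9 * t) * v ^ (14 * t) := by rw [hw, ← pow_mul, mul_comm t 14]

/-- A lower bound for binomial coefficients. -/
theorem choose_ge (n m : ℕ) (h : m ≤ n) : n ^ m ≤ m ^ m * n.choose m := by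
  have h1 : n ^ m * m.factorial ≤ m ^ m * n.descFactorial m := by
    rw [← Nat.descFactorial_self m, Nat.descFactorial_eq_prod_range,
      Nat.descFactorial_eq_prod_range]
    have e : ∀ a : ℕ, a ^ m = ∏ _i ∈ range m, a := fun a => by simp
    rw [e n, e m, ← prod_mul_distrib, ← prod_mul_distrib]
    refine prod_le_prod' fun i hi => ?_
    have hi' : i < m := mem_range.1 hi
    obtain ⟨c, rfl⟩ := Nat.exists_eq_add_of_lt hi'
    obtain ⟨d, rfl⟩ := Nat.exists_eq_add_of_le h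
    have e1 : i + c + 1 - i = c + 1 := by omega
    have e2 : i + c + 1 + d - i = c + 1 + d := by omega
    rw [e1, e2]
    nlinarith
  rw [Nat.descFactorial_eq_factorial_mul_choose] at h1
  have h2 : n ^ m * m.factorial ≤ (m ^ m * n.choose m) * m.factorial := by
    calc _ ≤ _ := h1
      _ = _ := by ring
  exact Nat.le_of_mul_le_mul_right h2 (Nat.factorial_pos m)

private theorem NumB_log (t : ℕ) (ht : 4 ≤ t) : 2 ≤ Nat.log 2 t := by
  have : Nat.log 2 4 ≤ Nat.log 2 t := Nat.log_mono_right ht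
  have h2 : Nat.log 2 4 = 2 := by
    rw [show (4:ℕ) = 2 ^ 2 by norm_num]
    exact Nat.log_pow (by norm_num) 2
  omega

private theorem NumB_exp (t m : ℕ) (ht : 4 ≤ t) (h1 : 99 * t * Nat.log 2 t ≤ m) :
    2 ^ (24 * t) * m ^ (14 * t) ≤ 2 ^ m := by
  have hL := NumB_log t ht
  obtain ⟨L, hLe⟩ : ∃ L : ℕ, L = Nat.log 2 t := ⟨_, rfl⟩
  rw [← hLe] at h1 hL
  have h99 : 198 * t ≤ 99 * t * L := by nlinarith
  induction m, h1 using Nat.le_induction with
  | base =>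
    have htL : t ≤ 2 ^ (L + 1) := by
      rw [hLe]
      exact (Nat.lt_pow_succ_log_self (by norm_num) t).le
    have hLL : L ≤ 2 ^ (L - 1) := by
      have := Nat.lt_two_pow_self (n := L - 1)
      omega
    have h2 : 99 * t * L ≤ 2 ^ (7 + 2 * L) := by
      calc 99 * t * L ≤ 2 ^ 7 * 2 ^ (L + 1) * 2 ^ (L - 1) := by
            gcongr
            norm_num
        _ = 2 ^ (7 + 2 * L) := by
          rw [← pow_add, ← pow_add]
          congr 1
          omega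
    have h3 : 2 ^ 24 * (99 * t * L) ^ 14 ≤ 2 ^ (99 * L) := by
      calc 2 ^ 24 * (99 * t * L) ^ 14 ≤ 2 ^ 24 * (2 ^ (7 + 2 * L)) ^ 14 :=
            Nat.mul_le_mul_left _ (Nat.pow_le_pow_left h2 14)
        _ = 2 ^ (24 + (7 + 2 * L) * 14) := by rw [← pow_mul, ← pow_add]
        _ ≤ 2 ^ (99 * L) := Nat.pow_le_pow_right (by norm_num) (by omega)
    calc 2 ^ (24 * t) * (99 * t * L) ^ (14 * t) = (2 ^ 24 * (99 * t * L) ^ 14) ^ t := by
          rw [mul_pow (2 ^ 24), ← pow_mul, ← pow_mul]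
      _ ≤ (2 ^ (99 * L)) ^ t := Nat.pow_le_pow_left h3 t
      _ = 2 ^ (99 * t * L) := by
        rw [← pow_mul]
        congr 1
        ring
  | succ m hm ih =>
    have h2 := NumB_two m (14 * t) (by omega)
    calc 2 ^ (24 * t) * (m + 1) ^ (14 * t) ≤ 2 ^ (24 * t) * (2 * m ^ (14 * t)) :=
          Nat.mul_le_mul_left _ h2
      _ = 2 * (2 ^ (24 * t) * m ^ (14 * t)) := by ring
      _ ≤ 2 * 2 ^ m := Nat.mul_le_mul_left _ ih
      _ = 2 ^ (m + 1) := by rw [pow_succ, mul_comm]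

/-- Near linear range. -/
theorem num_a (t n m : ℕ) (ht : 4 ≤ t) (h1 : 99 * t * Nat.log 2 t ≤ m) (h2 : 2 * m ≤ n) :
    m ^ m * (2 ^ (10 * t) * n ^ (14 * t)) ≤ n ^ m := by
  have hL := NumB_log t ht
  have h99 : 198 * t ≤ 99 * t * Nat.log 2 t := by nlinarith
  have h3 := NumB_exp t m ht h1
  obtain ⟨e, he⟩ : ∃ e, m = 14 * t + e := ⟨m - 14 * t, by omega⟩
  have h4 : 2 ^ (10 * t) * m ^ (14 * t) ≤ 2 ^ e := by
    have h5 : (2 ^ (10 * t) * m ^ (14 * t)) * 2 ^ (14 * t) ≤ 2 ^ e * 2 ^ (14 * t) := by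
      calc (2 ^ (10 * t) * m ^ (14 * t)) * 2 ^ (14 * t) =
            (2 ^ (10 * t) * 2 ^ (14 * t)) * m ^ (14 * t) := by ring
        _ = 2 ^ (24 * t) * m ^ (14 * t) := by
          rw [← pow_add]
          congr 2
          ring
        _ ≤ 2 ^ m := h3
        _ = 2 ^ e * 2 ^ (14 * t) := by
          rw [← pow_add]
          congr 1
          omega
    exact Nat.le_of_mul_le_mul_right h5 (by positivity)
  have e1 : m ^ m = m ^ (14 * t) * m ^ e := by rw [← pow_add, ← he]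
  have e2 : n ^ m = n ^ e * n ^ (14 * t) := by
    rw [← pow_add]
    congr 1
    omega
  rw [e1, e2]
  calc m ^ (14 * t) * m ^ e * (2 ^ (10 * t) * n ^ (14 * t)) =
        (2 ^ (10 * t) * m ^ (14 * t)) * m ^ e * n ^ (14 * t) := by ring
    _ ≤ 2 ^ e * m ^ e * n ^ (14 * t) := by gcongr
    _ = (2 * m) ^ e * n ^ (14 * t) := by rw [mul_pow]
    _ ≤ n ^ e * n ^ (14 * t) := by gcongr

private theorem NumB_L (L : ℕ) (hL : 2 ≤ L) :
    100 ^ 39 * 1024 * L ^ 39 ≤ 6399 ^ 25 * 2 ^ (11 * L) := by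
  have h5 : ∀ L : ℕ, 5 ≤ L → 100 ^ 39 * 1024 * L ^ 39 ≤ 6399 ^ 25 * 2 ^ (11 * L) := by
    intro L hL
    induction L, hL using Nat.le_induction with
    | base => norm_num
    | succ L hL ih =>
      have h1 : 5 * (L + 1) ≤ 6 * L := by omega
      have h2 : (L + 1) ^ 39 ≤ 2 ^ 11 * L ^ 39 := by
        have h3 : 5 ^ 39 * (L + 1) ^ 39 ≤ 5 ^ 39 * (2 ^ 11 * L ^ 39) := by
          calc 5 ^ 39 * (L + 1) ^ 39 = (5 * (L + 1)) ^ 39 := by rw [mul_pow]
            _ ≤ (6 * L) ^ 39 := Nat.pow_le_pow_left h1 39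
            _ = 6 ^ 39 * L ^ 39 := by rw [mul_pow]
            _ ≤ (5 ^ 39 * 2 ^ 11) * L ^ 39 := Nat.mul_le_mul_right _ (by norm_num)
            _ = 5 ^ 39 * (2 ^ 11 * L ^ 39) := by rw [mul_assoc]
        exact Nat.le_of_mul_le_mul_left h3 (by positivity)
      calc 100 ^ 39 * 1024 * (L + 1) ^ 39 ≤ 100 ^ 39 * 1024 * (2 ^ 11 * L ^ 39) :=
            Nat.mul_le_mul_left _ h2
        _ = 2 ^ 11 * (100 ^ 39 * 1024 * L ^ 39) := by rw [mul_left_comm]
        _ ≤ 2 ^ 11 * (6399 ^ 25 * 2 ^ (11 * L)) := Nat.mul_le_mul_left _ ih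
        _ = 6399 ^ 25 * (2 ^ 11 * 2 ^ (11 * L)) := by rw [mul_left_comm]
        _ = 6399 ^ 25 * 2 ^ (11 * (L + 1)) := by
          rw [← pow_add]
          congr 2
          ring
  rcases Nat.lt_or_ge L 5 with h | h
  · interval_cases L <;> norm_num
  · exact h5 L h

/-- Linear range. -/
theorem num_b (t n m : ℕ) (ht : 4 ≤ t) (h1 : 39 * t ≤ m) (h2 : m ≤ 100 * t * Nat.log 2 t)
    (h3 : 6399 * t ^ 2 ≤ n) : m ^ m * (2 ^ (10 * t) * n ^ (14 * t)) ≤ n ^ m := by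
  have hL := NumB_log t ht
  obtain ⟨L, hLe⟩ : ∃ L : ℕ, L = Nat.log 2 t := ⟨_, rfl⟩
  rw [← hLe] at h2 hL
  have htL : 2 ^ L ≤ t := by
    rw [hLe]
    exact Nat.pow_log_le_self 2 (by omega)
  have hmn : m ≤ n := by
    have hLt : L ≤ t := (Nat.lt_two_pow_self.le).trans htL
    calc m ≤ 100 * t * L := h2
      _ ≤ 100 * t * t := Nat.mul_le_mul_left _ hLt
      _ ≤ 6399 * t ^ 2 := by nlinarith
      _ ≤ n := h3
  have h4 : m ^ 39 * 2 ^ 10 ≤ n ^ 25 := by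
    calc m ^ 39 * 2 ^ 10 ≤ (100 * t * L) ^ 39 * 2 ^ 10 :=
          Nat.mul_le_mul_right _ (Nat.pow_le_pow_left h2 39)
      _ = (100 ^ 39 * 1024 * L ^ 39) * t ^ 39 := by
        rw [mul_pow, mul_pow]
        ring
      _ ≤ (6399 ^ 25 * 2 ^ (11 * L)) * t ^ 39 := Nat.mul_le_mul_right _ (NumB_L L hL)
      _ = 6399 ^ 25 * (2 ^ L) ^ 11 * t ^ 39 := by
        rw [← pow_mul, mul_comm L 11]
      _ ≤ 6399 ^ 25 * t ^ 11 * t ^ 39 := by gcongr
      _ = (6399 * t ^ 2) ^ 25 := by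
        rw [mul_pow, ← pow_mul, mul_assoc, ← pow_add]
      _ ≤ n ^ 25 := Nat.pow_le_pow_left h3 25
  obtain ⟨e, he⟩ : ∃ e, m = 39 * t + e := ⟨m - 39 * t, by omega⟩
  have e1 : m ^ m = m ^ (39 * t) * m ^ e := by rw [← pow_add, ← he]
  have e2 : n ^ m = n ^ (25 * t) * n ^ e * n ^ (14 * t) := by
    rw [← pow_add, ← pow_add]
    congr 1
    omega
  rw [e1, e2]
  calc m ^ (39 * t) * m ^ e * (2 ^ (10 * t) * n ^ (14 * t)) =
        (m ^ 39 * 2 ^ 10) ^ t * m ^ e * n ^ (14 * t) := by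
        rw [mul_pow, ← pow_mul, ← pow_mul]
        ring
    _ ≤ (n ^ 25) ^ t * n ^ e * n ^ (14 * t) := by gcongr
    _ = n ^ (25 * t) * n ^ e * n ^ (14 * t) := by rw [← pow_mul]

theorem cost2 (t k v : ℕ) (ht : 4 ≤ t) (h40 : 40 * t ≤ k) (hkv : 2 * k ≤ v)
    (h : (80 * t) ^ 2 ≤ v ∨ 100 * t * Nat.log 2 t ≤ k) :
    ∀ s ≤ t, nP t v * nK t v ≤ (v - 2 * s).choose (k - s) := by
  intro s hs
  have hL := NumB_log t ht
  obtain ⟨n, hn⟩ : ∃ n : ℕ, n = v - 2 * s := ⟨_, rfl⟩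
  obtain ⟨m, hm⟩ : ∃ m : ℕ, m = k - s := ⟨_, rfl⟩
  rw [← hn, ← hm]
  have hm39 : 39 * t ≤ m := by omega
  have hnm : 2 * m ≤ n := by omega
  have hvn : 39 * v ≤ 40 * n := by omega
  have h1 := cost_le t v ht (by omega)
  have h2 : v ^ 14 ≤ 2 * n ^ 14 := by
    have h3 : 39 ^ 14 * v ^ 14 ≤ 39 ^ 14 * (2 * n ^ 14) := by
      calc 39 ^ 14 * v ^ 14 = (39 * v) ^ 14 := by rw [mul_pow]
        _ ≤ (40 * n) ^ 14 := Nat.pow_le_pow_left hvn 14
        _ = 40 ^ 14 * n ^ 14 := by rw [mul_pow]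
        _ ≤ (39 ^ 14 * 2) * n ^ 14 := Nat.mul_le_mul_right _ (by norm_num)
        _ = 39 ^ 14 * (2 * n ^ 14) := by rw [mul_assoc]
    exact Nat.le_of_mul_le_mul_left h3 (by positivity)
  have h4 : nP t v * nK t v ≤ 2 ^ (10 * t) * n ^ (14 * t) := by
    calc nP t v * nK t v ≤ 2 ^ (9 * t) * v ^ (14 * t) := h1
      _ = 2 ^ (9 * t) * (v ^ 14) ^ t := by rw [← pow_mul]
      _ ≤ 2 ^ (9 * t) * (2 * n ^ 14) ^ t := Nat.mul_le_mul_left _ (Nat.pow_le_pow_left h2 t)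
      _ = 2 ^ (9 * t) * 2 ^ t * n ^ (14 * t) := by rw [mul_pow, ← pow_mul, mul_assoc]
      _ = 2 ^ (10 * t) * n ^ (14 * t) := by
        rw [← pow_add]
        congr 2
        ring
  have h5 : m ^ m * (2 ^ (10 * t) * n ^ (14 * t)) ≤ n ^ m := by
    have h99 : 100 * t * Nat.log 2 t = 99 * t * Nat.log 2 t + t * Nat.log 2 t := by ring
    have htL : t ≤ t * Nat.log 2 t := Nat.le_mul_of_pos_right _ (by omega)
    rcases h with h | h
    · by_cases hc : m ≤ 100 * t * Nat.log 2 t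
      · refine num_b t n m ht hm39 hc ?_
        have h6 : 2 * s ≤ t ^ 2 := by nlinarith
        have h7 : (80 * t) ^ 2 = 6400 * t ^ 2 := by ring
        rw [h7] at h
        omega
      · exact num_a t n m ht (by omega) hnm
    · exact num_a t n m ht (by omega) hnm
  have h6 : m ^ m * (nP t v * nK t v) ≤ m ^ m * n.choose m :=
    (Nat.mul_le_mul_left _ h4).trans (h5.trans (choose_ge n m (by omega)))
  exact Nat.le_of_mul_le_mul_left h6 (pow_pos (by omega) m)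

end Pool.Agent.LS3
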