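import Pool.Agent.Lib.MP_2c0b9b_co.Pods
import Pool.Agent.Lib.MP_2c0b9b_co.Defs2

/-!
# Near linear block sizes: definitions

Gadgets are now pairs `(p, S)` of an octahedron `p` and a set `S` disjoint from its points; the
blocks are `S ∪ tr p J`.
-/

set_option autoImplicit false

open Finset

namespace Pool.Agent.LS3

section
variable {α : Type*} [DecidableEq α]

/-- The points of an octahedron. -/
def opts {s : ℕ} (p : (Fin s → α) × (Fin s → α)) : Finset α := univ.image (Sum.elim p.1 p.2)

/-- The effect of a move of the gadget `(p, S)`. -/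
def effS {s : ℕ} (p : (Fin s → α) × (Fin s → α)) (S T : Finset α) : ℤ :=
  ∑ J : Finset (Fin s), if T ⊆ S ∪ tr p J then (-1) ^ J.card else 0

end

/-! ### Constants -/

/-- Bound for the number of sets with at most `t` points. -/
def nI (t v : ℕ) : ℕ := (v + 1) ^ t

/-- Bound for the first discrepancy. -/
def nX (t v : ℕ) : ℕ :=
  2 * nI t v + 2 * (nI t v + 1) * ∑ s ∈ range (t + 1), v ^ (2 * s) * 2 ^ s

/-- Bound for the number of moves at one level. -/
def nM (t v : ℕ) : ℕ := 10 * v ^ (2 * t) * (nX t v + (t + 1) * (6 * nI t v + 1))

/-- Size of the pools. -/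
def nP (t v : ℕ) : ℕ := (2 * nM t v + 1) * (nI t v + 1)

/-- Bound for the number of blocks in all pools. -/
def nK (t v : ℕ) : ℕ :=
  3 * (∑ s ∈ range (t + 1), v ^ (2 * s)) * ((nP t v + nI t v + 1) * 2 ^ t)

/-- The probability that a random `(k - s)`-subset of a set with `v - 2 s` points contains a
given set with `r` points. -/
noncomputable def mu (k v s r : ℕ) : ℝ :=
  ((v - 2 * s - r).choose (k - s - r) : ℝ) / ((v - 2 * s).choose (k - s) : ℝ)

/-! ### The web basis -/

/-- Multiplication by the variable `x a` in the algebra of functions on finite sets (with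
`x a * x a = 0`). -/
def xm (a : ℕ) (f : Finset ℕ → ℤ) (U : Finset ℕ) : ℤ := if a ∈ U then f (U.erase a) else 0

/-- The stack of unmatched openers among `0, ..., n - 1` (the last one first), when the elements
of `B` are closers and the other points are openers. -/
def st : ℕ → Finset ℕ → List ℕ
  | 0, _ => []
  | (n + 1), B => if n ∈ B then (st n B).tail else n :: st n B

/-- The product of `x b - x a` over the matched pairs `a < b`, and of `x b` over the unmatched
closers `b`, all below `n`. -/
def wb : ℕ → Finset ℕ → Finset ℕ → ℤ
  | 0, _ => fun U => if U = ∅ then 1 else 0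
  | (n + 1), B =>
    if n ∈ B then
      (match st n B with
        | [] => xm n (wb n B)
        | a :: _ => fun U => xm n (wb n B) U - xm a (wb n B) U)
    else wb n B

/-- All closers below `n` are matched. -/
def bal : ℕ → Finset ℕ → Prop
  | 0, _ => True
  | (n + 1), B => bal n B ∧ (n ∈ B → st n B ≠ [])

end Pool.Agent.LS3
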