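import Pool.Agent.Lib.MP_2c0b9b_co.FinalB
import Pool.Agent.Lib.MP_2c0b9b_co_NL.Absorb2
import Pool.Agent.Lib.MP_2c0b9b_co_NL.NumB

/-!
# Large sets of size three: blocks of near linear size
-/

set_option autoImplicit false

open Finset

namespace Pool.Agent.LS3

/-- The cost condition for all block sizes. -/
theorem cost_all (t k v : ℕ) (ht : 4 ≤ t) (h1 : 40 * t ≤ k) (h2 : k + 40 * t ≤ v)
    (h : (80 * t) ^ 2 ≤ v ∨ (100 * t * Nat.log 2 t ≤ k ∧ k + 100 * t * Nat.log 2 t ≤ v)) :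
    ∀ s ≤ t, nP t v * nK t v ≤ (v - 2 * s).choose (k - s) := by
  intro s hs
  rcases Nat.le_total (2 * k) v with h3 | h3
  · exact cost2 t k v ht h1 h3 (h.imp_right fun h => h.1) s hs
  · have h4 := cost2 t (v - k) v ht (by omega) (by omega)
      (h.imp_right fun h => by have := h.2; omega) s hs
    have h5 : v - k - s = (v - 2 * s) - (k - s) := by omega
    rw [h5, Nat.choose_symm (by omega)] at h4
    exact h4

theorem G_near (t k v : ℕ) (ht : 4 ≤ t) (h1 : 40 * t ≤ k) (h2 : k + 40 * t ≤ v)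
    (h : (80 * t) ^ 2 ≤ v ∨ (100 * t * Nat.log 2 t ≤ k ∧ k + 100 * t * Nat.log 2 t ≤ v))
    (hdiv : ∀ i ≤ t, 3 ∣ (v - i).choose (k - i)) : G (t + 1) k v :=
  absorb2 t k v (by omega) (by omega) (by omega) hdiv (cost_all t k v ht h1 h2 h)

theorem near_linear_blocks : ∀ t k v : ℕ, 4 ≤ t → 40 * t ≤ k → k + 40 * t ≤ v →
      ((80 * t) ^ 2 ≤ v ∨ (100 * t * Nat.log 2 t ≤ k ∧ k + 100 * t * Nat.log 2 t ≤ v)) →
      ((∃ f : Finset (Fin v) → Fin 3, ∀ j : Fin 3, ∀ T : Finset (Fin v), T.card = t →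
          3 * ((Finset.powersetCard k (Finset.univ : Finset (Fin v))).filter
                (fun B => f B = j ∧ T ⊆ B)).card = (v - t).choose (k - t))
        ↔ ∀ i : ℕ, i ≤ t → 3 ∣ (v - i).choose (k - i)) := by
  intro t k v ht h1 h2 h
  refine ⟨fun h' => dvd_of_LS (by omega) (by omega) h', fun h' => ?_⟩
  exact LS_of_G (by omega) (by omega) (G_near t k v ht h1 h2 h h')

theorem near_linear_reduction : ∀ t : ℕ, 4 ≤ t →
      ((∀ k v : ℕ, t ≤ k → k ≤ v →
        ((∃ f : Finset (Fin v) → Fin 3, ∀ j : Fin 3, ∀ T : Finset (Fin v), T.card = t →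
          3 * ((Finset.powersetCard k (Finset.univ : Finset (Fin v))).filter
                (fun B => f B = j ∧ T ⊆ B)).card = (v - t).choose (k - t))
        ↔ ∀ i : ℕ, i ≤ t → 3 ∣ (v - i).choose (k - i))) ↔
      (∀ m k : ℕ, 3 ^ m < 100 * t * Nat.log 2 t → 3 ^ m ≤ k → k ≤ 3 ^ m + t → t < k →
        k < 3 ^ (m + 1) →
        ∃ f : Finset (Fin (3 ^ (m + 1) + t)) → Fin 3, ∀ j : Fin 3,
          ∀ T : Finset (Fin (3 ^ (m + 1) + t)), T.card = t →
          3 * ((Finset.powersetCard k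
            (Finset.univ : Finset (Fin (3 ^ (m + 1) + t)))).filter
                (fun B => f B = j ∧ T ⊆ B)).card = (3 ^ (m + 1) + t - t).choose (k - t))) := by
  intro t ht
  constructor
  · intro h m k _ h1 h2 h3 h4
    have h5 : 3 ^ m ≤ 3 ^ (m + 1) := Nat.pow_le_pow_right (by norm_num) (by omega)
    exact (h k (3 ^ (m + 1) + t) (by omega) (by omega)).2 (special_dvd t m k h1 h2 h3 h4)
  · intro h k v htk hkv
    refine ⟨fun h' => dvd_of_LS htk hkv h', fun h' => ?_⟩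
    obtain ⟨l, hl1, hl2⟩ := digits t k v htk hkv h'
    apply LS_of_G htk hkv
    refine reduce t (fun m k h1 h2 h3 h4 => ?_) v k l hl1 hl2
    have h5 : 3 ^ (m + 1) = 3 * 3 ^ m := by rw [pow_succ]; ring
    rcases Nat.lt_or_ge (3 ^ m) (100 * t * Nat.log 2 t) with h6 | h6
    · exact G_of_LS (by omega) (by omega) (h m k h6 h1 h2 h3 h4)
    · have h7 : 1 ≤ Nat.log 2 t := Nat.log_pos (by norm_num) (by omega)
      have h8 : 100 * t * 1 ≤ 100 * t * Nat.log 2 t := Nat.mul_le_mul_left _ h7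
      exact G_near t k _ ht (by omega) (by omega) (Or.inr ⟨by omega, by omega⟩)
        (special_dvd t m k h1 h2 h3 h4)

end Pool.Agent.LS3
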