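import Pool.Agent.Lib.MP_2c0b9b_co.Round

/-!
# Rounding with exact row sums
-/

set_option autoImplicit false

open Finset

namespace Pool.Agent.LS3

/-- A nontrivial relation supported on a large finite set. -/
private theorem RoundRows_exists_rel {Ω ι : Type*} [DecidableEq Ω] (R : Finset Ω) (I : Finset ι)
    (a : Ω → ι → ℝ) (hc : I.card < R.card) :
    ∃ l : Ω → ℝ, (∀ B, B ∉ R → l B = 0) ∧ (∃ B ∈ R, l B ≠ 0) ∧
      ∀ T ∈ I, ∑ B ∈ R, l B * a B T = 0 := by
  classical
  let L : (R → ℝ) →ₗ[ℝ] (I → ℝ) :=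
    { toFun := fun l T => ∑ B : R, l B * a B.1 T.1
      map_add' := by
        intro x y
        funext T
        simp [add_mul, Finset.sum_add_distrib]
      map_smul' := by
        intro c x
        funext T
        simp [Finset.mul_sum, mul_assoc] }
  have hker : LinearMap.ker L ≠ ⊥ := by
    apply LinearMap.ker_ne_bot_of_finrank_lt
    simpa using hc
  obtain ⟨l, hl, hl0⟩ := Submodule.exists_mem_ne_zero_of_ne_bot hker
  refine ⟨fun B => if h : B ∈ R then l ⟨B, h⟩ else 0, ?_, ?_, ?_⟩
  · intro B hB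
    simp [hB]
  · by_contra hcon
    push Not at hcon
    apply hl0
    funext B
    have := hcon B.1 B.2
    simpa [B.2] using this
  · intro T hT
    have h1 : L l = 0 := hl
    have h2 := congrFun h1 ⟨T, hT⟩
    have h3 : ∑ B : R, l B * a B.1 T = 0 := h2
    rw [← Finset.sum_attach]
    rw [← h3]
    refine Finset.sum_congr rfl fun B _ => ?_
    simp [B.2]

/-- One rounding step. -/
private theorem RoundRows_step {Ω κ : Type*} [DecidableEq Ω] (S : Finset Ω) (y : Ω → ℝ)
    (hy : ∀ B ∈ S, 0 ≤ y B ∧ y B ≤ 1) (J : Finset κ) (b : Ω → κ → ℝ)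
    (hc : J.card < (S.filter fun B => y B ≠ 0 ∧ y B ≠ 1).card) :
    ∃ z : Ω → ℝ, (∀ B ∈ S, 0 ≤ z B ∧ z B ≤ 1) ∧
      (∀ T ∈ J, ∑ B ∈ S, z B * b B T = ∑ B ∈ S, y B * b B T) ∧
      (∀ B, B ∉ (S.filter fun B => y B ≠ 0 ∧ y B ≠ 1) → z B = y B) ∧
      (S.filter fun B => z B ≠ 0 ∧ z B ≠ 1).card < (S.filter fun B => y B ≠ 0 ∧ y B ≠ 1).card := by
  classical
  let fr : (Ω → ℝ) → Finset Ω := fun y => S.filter fun B => y B ≠ 0 ∧ y B ≠ 1
  obtain ⟨l, hl0, ⟨B₀, hB₀, hlB₀⟩, hrel⟩ := RoundRows_exists_rel (fr y) J b hc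
  have hfrS : fr y ⊆ S := Finset.filter_subset _ _
  have hint : ∀ B ∈ fr y, 0 < y B ∧ y B < 1 := by
    intro B hB
    have h1 := hy B (hfrS hB)
    have h2 := (Finset.mem_filter.mp hB).2
    exact ⟨lt_of_le_of_ne h1.1 (Ne.symm h2.1), lt_of_le_of_ne h1.2 h2.2⟩
  let c : Ω → ℝ := fun B => if 0 < l B then (1 - y B) / l B else y B / (-l B)
  obtain ⟨B₁, hB₁, hB₁min⟩ := Finset.exists_min_image ((fr y).filter fun B => l B ≠ 0) c
    ⟨B₀, Finset.mem_filter.mpr ⟨hB₀, hlB₀⟩⟩
  rw [Finset.mem_filter] at hB₁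
  have hcpos : 0 < c B₁ := by
    have h1 := hint B₁ hB₁.1
    simp only [c]
    split_ifs with h
    · exact div_pos (by linarith) h
    · have h2 : l B₁ < 0 := lt_of_le_of_ne (not_lt.mp h) hB₁.2
      exact div_pos h1.1 (by linarith)
  let z : Ω → ℝ := fun B => y B + c B₁ * l B
  have hzsum : ∀ T ∈ J, ∑ B ∈ S, z B * b B T = ∑ B ∈ S, y B * b B T := by
    intro T hT
    have h1 : ∑ B ∈ S, l B * b B T = 0 := by
      rw [← hrel T hT]
      symm
      apply Finset.sum_subset hfrS
      intro B _ hB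
      rw [hl0 B hB, zero_mul]
    have h2 : ∑ B ∈ S, z B * b B T = ∑ B ∈ S, y B * b B T + c B₁ * ∑ B ∈ S, l B * b B T := by
      rw [Finset.mul_sum, ← Finset.sum_add_distrib]
      refine Finset.sum_congr rfl fun B _ => ?_
      simp only [z]
      ring
    rw [h2, h1, mul_zero, add_zero]
  have hzout : ∀ B, B ∉ fr y → z B = y B := by
    intro B hB
    simp only [z]
    rw [hl0 B hB, mul_zero, add_zero]
  have hzbd : ∀ B ∈ S, 0 ≤ z B ∧ z B ≤ 1 := by
    intro B hB
    by_cases hBf : B ∈ fr y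
    · have h1 := hint B hBf
      by_cases hlB : l B = 0
      · simp only [z, hlB, mul_zero, add_zero]
        exact ⟨h1.1.le, h1.2.le⟩
      · have h2 := hB₁min B (Finset.mem_filter.mpr ⟨hBf, hlB⟩)
        have h3 : c B = if 0 < l B then (1 - y B) / l B else y B / (-l B) := rfl
        rw [h3] at h2
        simp only [z]
        split_ifs at h2 with h
        · rw [le_div_iff₀ h] at h2
          have : 0 < c B₁ * l B := mul_pos hcpos h
          constructor <;> linarith
        · have h4 : l B < 0 := lt_of_le_of_ne (not_lt.mp h) hlB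
          rw [le_div_iff₀ (by linarith)] at h2
          have : c B₁ * l B < 0 := mul_neg_of_pos_of_neg hcpos h4
          constructor <;> linarith
    · rw [hzout B hBf]
      exact hy B hB
  have hzfr : fr z ⊂ fr y := by
    rw [Finset.ssubset_iff_of_subset]
    · refine ⟨B₁, hB₁.1, ?_⟩
      intro hB
      have h2 := (Finset.mem_filter.mp hB).2
      have h3 : c B₁ = if 0 < l B₁ then (1 - y B₁) / l B₁ else y B₁ / (-l B₁) := rfl
      have h4 : z B₁ = y B₁ + c B₁ * l B₁ := rfl
      by_cases h : 0 < l B₁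
      · rw [if_pos h] at h3
        rw [h3, div_mul_cancel₀ _ h.ne'] at h4
        exact h2.2 (by rw [h4]; ring)
      · rw [if_neg h] at h3
        have h5 : l B₁ ≠ 0 := hB₁.2
        apply h2.1
        rw [h4, h3]
        field_simp
        ring
    · intro B hB
      by_contra hBf
      have h1 := Finset.mem_filter.mp hB
      rw [hzout B hBf] at h1
      exact hBf (Finset.mem_filter.mpr h1)
  exact ⟨z, hzbd, hzsum, hzout, Finset.card_lt_card hzfr⟩

/-- Splitting a weighted sum. -/
private theorem RoundRows_split {Ω : Type*} [DecidableEq Ω] (S : Finset Ω) (y g : Ω → ℝ) :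
    ∑ B ∈ S, y B * g B = ∑ B ∈ S.filter (fun B => y B = 1), g B +
      ∑ B ∈ S.filter (fun B => y B ≠ 0 ∧ y B ≠ 1), y B * g B := by
  rw [Finset.sum_filter, Finset.sum_filter, ← Finset.sum_add_distrib]
  refine Finset.sum_congr rfl fun B _ => ?_
  by_cases h : y B = 1
  · simp [h]
  · by_cases h0 : y B = 0
    · simp [h0]
    · simp [h, h0]

theorem rounding_rows {Ω ρ ι : Type*} [DecidableEq Ω] [DecidableEq ρ] (S : Finset Ω)
    (r : Ω → ρ) (I : Finset ι) (a : Ω → ι → ℝ) (ha : ∀ B ∈ S, ∀ T ∈ I, |a B T| ≤ 1)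
    (x : Ω → ℝ) (hx : ∀ B ∈ S, 0 ≤ x B ∧ x B ≤ 1) (W : ρ → ℕ)
    (hW : ∀ q, ∑ B ∈ S.filter (fun B => r B = q), x B = W q) :
    ∃ Y ⊆ S, (∀ q, (Y.filter (fun B => r B = q)).card = W q) ∧
      ∀ T ∈ I, |∑ B ∈ Y, a B T - ∑ B ∈ S, x B * a B T| ≤ 2 * I.card := by
  classical
  let P : (Ω → ℝ) → Prop := fun y => (∀ B ∈ S, 0 ≤ y B ∧ y B ≤ 1) ∧
    (∀ T ∈ I, ∑ B ∈ S, y B * a B T = ∑ B ∈ S, x B * a B T) ∧
    ∀ q, ∑ B ∈ S.filter (fun B => r B = q), y B = W q
  let fr : (Ω → ℝ) → Finset Ω := fun y => S.filter fun B => y B ≠ 0 ∧ y B ≠ 1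
  have hex : ∃ n, ∃ y, P y ∧ (fr y).card = n := ⟨_, x, ⟨hx, fun _ _ => rfl, hW⟩, rfl⟩
  obtain ⟨y, hPy, hyc⟩ := Nat.find_spec hex
  have hmin : ∀ z, P z → (fr y).card ≤ (fr z).card := by
    intro z hz
    rw [hyc]
    exact Nat.find_min' hex ⟨z, hz, rfl⟩
  obtain ⟨hy01, hya, hyW⟩ := hPy
  have hfrS : fr y ⊆ S := Finset.filter_subset _ _
  have hint : ∀ B ∈ fr y, 0 < y B ∧ y B < 1 := by
    intro B hB
    have h1 := hy01 B (hfrS hB)
    have h2 := (Finset.mem_filter.mp hB).2
    exact ⟨lt_of_le_of_ne h1.1 (Ne.symm h2.1), lt_of_le_of_ne h1.2 h2.2⟩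
  let one : Finset Ω := S.filter fun B => y B = 1
  -- the row sums
  have hrow : ∀ q, (W q : ℝ) = ((one.filter fun B => r B = q).card : ℝ) +
      ∑ B ∈ (fr y).filter (fun B => r B = q), y B := by
    intro q
    rw [← hyW q]
    have h1 := RoundRows_split S y (fun B => if r B = q then 1 else 0)
    have h2 : ∑ B ∈ S, y B * (if r B = q then (1 : ℝ) else 0) =
        ∑ B ∈ S.filter (fun B => r B = q), y B := by
      rw [Finset.sum_filter]
      refine Finset.sum_congr rfl fun B _ => ?_
      split_ifs <;> simp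
    have h3 : ∑ B ∈ S.filter (fun B => y B = 1), (if r B = q then (1 : ℝ) else 0) =
        ((one.filter fun B => r B = q).card : ℝ) := by
      rw [← Finset.sum_filter]
      simp [one]
    have h4 : ∑ B ∈ S.filter (fun B => y B ≠ 0 ∧ y B ≠ 1), y B * (if r B = q then (1 : ℝ) else 0) =
        ∑ B ∈ (fr y).filter (fun B => r B = q), y B := by
      rw [Finset.sum_filter (s := fr y)]
      refine Finset.sum_congr rfl fun B _ => ?_
      split_ifs <;> simp
    rw [← h2, h1, h3, h4]
  set Q : Finset ρ := (fr y).image r with hQ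
  have hQ2 : ∀ q ∈ Q, 2 ≤ ((fr y).filter fun B => r B = q).card := by
    intro q hq
    obtain ⟨B, hB, rfl⟩ := Finset.mem_image.1 hq
    by_contra hcon
    have hB' : B ∈ (fr y).filter fun B' => r B' = r B := Finset.mem_filter.2 ⟨hB, rfl⟩
    have h1 : ((fr y).filter fun B' => r B' = r B).card = 1 := by
      have := Finset.card_pos.2 ⟨B, hB'⟩
      omega
    obtain ⟨B₂, hB₂⟩ := Finset.card_eq_one.1 h1
    rw [hB₂, Finset.mem_singleton] at hB'
    have h2 := hrow (r B)
    rw [hB₂, Finset.sum_singleton, ← hB'] at h2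
    have h3 := hint B hB
    have h4 : ((one.filter fun B' => r B' = r B).card : ℝ) < W (r B) := by linarith [h3.1]
    have h5 : (W (r B) : ℝ) < ((one.filter fun B' => r B' = r B).card : ℝ) + 1 := by
      linarith [h3.2]
    have h6 : (one.filter fun B' => r B' = r B).card < W (r B) := by exact_mod_cast h4
    have h7 : W (r B) < (one.filter fun B' => r B' = r B).card + 1 := by exact_mod_cast h5
    omega
  have hcQ : 2 * Q.card ≤ (fr y).card := by
    have h1 : (fr y).card = ∑ q ∈ Q, ((fr y).filter fun B => r B = q).card :=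
      Finset.card_eq_sum_card_image r (fr y)
    rw [h1, mul_comm, ← smul_eq_mul]
    exact Finset.card_nsmul_le_sum Q _ 2 hQ2
  have hcard1 : (fr y).card ≤ I.card + Q.card := by
    by_contra hcon
    push Not at hcon
    let b : Ω → (ι ⊕ ρ) → ℝ := fun B t => Sum.elim (fun T => a B T)
      (fun q => if r B = q then 1 else 0) t
    obtain ⟨z, hz1, hz2, hz3, hz4⟩ := RoundRows_step S y hy01 (I.disjSum Q) b (by
      rw [Finset.card_disjSum]; exact hcon)
    have hPz : P z := by
      refine ⟨hz1, ?_, ?_⟩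
      · intro T hT
        have h1 := hz2 (Sum.inl T) (Finset.inl_mem_disjSum.2 hT)
        have h2 : ∑ B ∈ S, z B * a B T = ∑ B ∈ S, y B * a B T := h1
        rw [h2, hya T hT]
      · intro q
        rw [← hyW q]
        by_cases hq : q ∈ Q
        · have h1 := hz2 (Sum.inr q) (Finset.inr_mem_disjSum.2 hq)
          have h2 : ∑ B ∈ S, z B * (if r B = q then (1 : ℝ) else 0) =
              ∑ B ∈ S, y B * (if r B = q then (1 : ℝ) else 0) := h1
          rw [Finset.sum_filter, Finset.sum_filter]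
          calc ∑ B ∈ S, (if r B = q then z B else 0)
              = ∑ B ∈ S, z B * (if r B = q then (1 : ℝ) else 0) :=
                Finset.sum_congr rfl fun B _ => by split_ifs <;> simp
            _ = ∑ B ∈ S, y B * (if r B = q then (1 : ℝ) else 0) := h2
            _ = ∑ B ∈ S, (if r B = q then y B else 0) :=
                Finset.sum_congr rfl fun B _ => by split_ifs <;> simp
        · refine Finset.sum_congr rfl fun B hB => ?_
          apply hz3
          intro hBf
          apply hq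
          rw [← (Finset.mem_filter.1 hB).2]
          exact Finset.mem_image_of_mem r hBf
    have h1 := hmin z hPz
    have h2 : (fr z).card < (fr y).card := hz4
    omega
  have hcard : (fr y).card ≤ 2 * I.card := by omega
  -- the choice in each row
  have hch : ∀ q, ∃ C ⊆ (fr y).filter (fun B => r B = q),
      (one.filter fun B => r B = q).card + C.card = W q := by
    intro q
    have h1 := hrow q
    have h2 : 0 ≤ ∑ B ∈ (fr y).filter (fun B => r B = q), y B :=
      Finset.sum_nonneg fun B hB => (hint B (Finset.mem_filter.1 hB).1).1.le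
    have h3 : ∑ B ∈ (fr y).filter (fun B => r B = q), y B ≤
        (((fr y).filter (fun B => r B = q)).card : ℝ) := by
      calc ∑ B ∈ (fr y).filter (fun B => r B = q), y B
          ≤ ∑ _B ∈ (fr y).filter (fun B => r B = q), (1 : ℝ) :=
            Finset.sum_le_sum fun B hB => (hint B (Finset.mem_filter.1 hB).1).2.le
        _ = _ := by simp
    have h4 : (one.filter fun B => r B = q).card ≤ W q := by
      have : ((one.filter fun B => r B = q).card : ℝ) ≤ W q := by linarith
      exact_mod_cast this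
    have h5 : W q ≤ (one.filter fun B => r B = q).card + ((fr y).filter (fun B => r B = q)).card := by
      have : (W q : ℝ) ≤ ((one.filter fun B => r B = q).card : ℝ) +
          (((fr y).filter (fun B => r B = q)).card : ℝ) := by linarith
      exact_mod_cast this
    obtain ⟨C, hC1, hC2⟩ := Finset.exists_subset_card_eq
      (s := (fr y).filter (fun B => r B = q)) (n := W q - (one.filter fun B => r B = q).card)
      (by omega)
    exact ⟨C, hC1, by omega⟩
  choose C hC1 hC2 using hch
  let ch : Finset Ω := (fr y).filter fun B => B ∈ C (r B)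
  have hdisj : Disjoint one ch := by
    rw [Finset.disjoint_left]
    intro B hB hB2
    have h1 := (Finset.mem_filter.1 hB).2
    have h2 := (Finset.mem_filter.1 (Finset.mem_filter.1 hB2).1).2.2
    exact h2 h1
  refine ⟨one ∪ ch, ?_, ?_, ?_⟩
  · exact Finset.union_subset (Finset.filter_subset _ _)
      ((Finset.filter_subset _ _).trans hfrS)
  · intro q
    rw [Finset.filter_union, Finset.card_union_of_disjoint
      (Finset.disjoint_filter_filter hdisj), ← hC2 q]
    congr 2
    ext B
    simp only [ch, Finset.mem_filter]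
    constructor
    · rintro ⟨⟨h1, h2⟩, h3⟩
      rwa [h3] at h2
    · intro hB
      have h1 := Finset.mem_filter.1 (hC1 q hB)
      refine ⟨⟨h1.1, ?_⟩, h1.2⟩
      rwa [h1.2]
  · intro T hT
    rw [← hya T hT, RoundRows_split S y (fun B => a B T), Finset.sum_union hdisj]
    have h1 : ∑ B ∈ ch, a B T = ∑ B ∈ fr y, (if B ∈ C (r B) then (1 : ℝ) else 0) * a B T := by
      simp only [ch]
      rw [Finset.sum_filter]
      refine Finset.sum_congr rfl fun B _ => ?_
      split_ifs <;> simp
    have h2 : ∑ B ∈ one, a B T + ∑ B ∈ ch, a B T -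
        (∑ B ∈ S.filter (fun B => y B = 1), a B T +
          ∑ B ∈ S.filter (fun B => y B ≠ 0 ∧ y B ≠ 1), y B * a B T) =
        ∑ B ∈ fr y, ((if B ∈ C (r B) then (1 : ℝ) else 0) - y B) * a B T := by
      rw [h1]
      simp only [sub_mul, Finset.sum_sub_distrib]
      simp only [one, fr]
      ring
    rw [h2]
    calc |∑ B ∈ fr y, ((if B ∈ C (r B) then (1 : ℝ) else 0) - y B) * a B T|
        ≤ ∑ B ∈ fr y, |((if B ∈ C (r B) then (1 : ℝ) else 0) - y B) * a B T| :=
          Finset.abs_sum_le_sum_abs _ _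
      _ ≤ ∑ _B ∈ fr y, (1 : ℝ) := by
          refine Finset.sum_le_sum fun B hB => ?_
          have h3 := hint B hB
          rw [abs_mul]
          refine mul_le_one₀ ?_ (abs_nonneg _) (ha B (hfrS hB) T hT)
          rw [abs_le]
          split_ifs
          · constructor <;> linarith
          · constructor <;> linarith
      _ = ((fr y).card : ℝ) := by simp
      _ ≤ 2 * I.card := by exact_mod_cast hcard

end Pool.Agent.LS3
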