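import Pool.Agent.Lib.MP_2c0b9b_co_NL.GadS
import Pool.Agent.Lib.MP_2c0b9b_co.Round
import Pool.Agent.Lib.MP_2c0b9b_co.Absorb

/-!
# Balanced pools
-/

set_option autoImplicit false

open Finset

namespace Pool.Agent.LS3

theorem balanced_pool (t k v s : ℕ) (p : (Fin s → Fin v) × (Fin s → Fin v)) (hp : Oct p)
    (hs : s ≤ t) (hk : 2 * t ≤ k) (n K : ℕ) (hn : 1 ≤ n) (hK : 1 ≤ K)
    (hnK : n * K ≤ (v - 2 * s).choose (k - s)) (A : Finset (Finset (Fin v)))
    (hA : A ⊆ powersetCard (k - s) (univ \ opts p))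
    (hcard : (powersetCard (k - s) (univ \ opts p) \ A).card ≤ K) :
    ∃ Y ⊆ A, ∀ R : Finset (Fin v), R.card ≤ t → Disjoint R (opts p) →
      |((Y.filter (fun S => R ⊆ S)).card : ℝ) - n * mu k v s R.card| ≤ nI t v + 1 := by
  classical
  set C : ℕ := (v - 2 * s).choose (k - s) with hC
  have hnC : n ≤ C := le_trans (Nat.le_mul_of_pos_right n hK) hnK
  have hCpos : 0 < C := lt_of_lt_of_le hn hnC
  have hCR : (0 : ℝ) < (C : ℝ) := by exact_mod_cast hCpos
  set P : Finset (Finset (Fin v)) := powersetCard (k - s) (univ \ opts p) with hP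
  have hV : (univ \ opts p : Finset (Fin v)).card = v - 2 * s := by
    rw [card_sdiff_of_subset (subset_univ _), card_univ, Fintype.card_fin, opts_card hp]
  set IT : Finset (Finset (Fin v)) := univ.filter (fun T => T.card ≤ t) with hIT
  set x : ℝ := (n : ℝ) / (C : ℝ) with hx
  have hx0 : 0 ≤ x := by positivity
  have hx1 : x ≤ 1 := by
    rw [hx, div_le_one hCR]
    exact_mod_cast hnC
  obtain ⟨Y, hYA, hY⟩ := rounding A IT (fun S T => if T ⊆ S then (1 : ℝ) else 0) (by
    intro B _ T _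
    split_ifs <;> simp) (fun _ => x) (fun _ _ => ⟨hx0, hx1⟩)
  refine ⟨Y, hYA, ?_⟩
  intro R hR hRd
  have h1 := hY R (mem_filter.2 ⟨mem_univ _, hR⟩)
  rw [← mul_sum, sum_boole, sum_boole] at h1
  have hIc : ((IT.card : ℕ) : ℝ) ≤ (nI t v : ℝ) := by
    exact_mod_cast ab_small_card t v
  -- the full count
  have hfull : (P.filter (fun S => R ⊆ S)).card = (v - 2 * s - R.card).choose (k - s - R.card) := by
    rw [hP, card_filter_powersetCard_subset R (univ \ opts p) (k - s)
      (subset_sdiff.2 ⟨subset_univ _, hRd⟩) (by omega), hV]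
  have hsplit : (P.filter (fun S => R ⊆ S)).card =
      (A.filter (fun S => R ⊆ S)).card + ((P \ A).filter (fun S => R ⊆ S)).card := by
    rw [← card_union_of_disjoint, ← filter_union, union_sdiff_of_subset hA]
    exact disjoint_filter_filter disjoint_sdiff
  have hkill : ((P \ A).filter (fun S => R ⊆ S)).card ≤ K := (card_filter_le _ _).trans hcard
  have hmu : (n : ℝ) * mu k v s R.card = x * ((P.filter (fun S => R ⊆ S)).card : ℝ) := by
    rw [hfull, hx]
    unfold mu
    rw [← hC]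
    ring
  have hxK : x * (K : ℝ) ≤ 1 := by
    rw [hx, div_mul_eq_mul_div, div_le_one hCR]
    exact_mod_cast hnK
  have h2 : x * (((P \ A).filter (fun S => R ⊆ S)).card : ℝ) ≤ 1 := by
    refine le_trans ?_ hxK
    apply mul_le_mul_of_nonneg_left _ hx0
    exact_mod_cast hkill
  have h3 : 0 ≤ x * (((P \ A).filter (fun S => R ⊆ S)).card : ℝ) := by positivity
  rw [hmu, hsplit]
  push_cast
  rw [abs_le] at h1 ⊢
  rw [mul_add]
  constructor <;> linarith [h1.1, h1.2]

end Pool.Agent.LS3
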