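import Pool.Agent.Lib.MP_2c0b9b_co_NL.Defs

/-!
# The web basis: elementary facts and the splitting lemma
-/

set_option autoImplicit false

open Finset

namespace Pool.Agent.LS3

theorem xm_comm (a b : ℕ) (f : Finset ℕ → ℤ) : xm a (xm b f) = xm b (xm a f) := by
  funext U
  unfold xm
  by_cases hab : a = b
  · rw [hab]
  · by_cases ha : a ∈ U
    · by_cases hb : b ∈ U
      · rw [if_pos ha, if_pos (mem_erase.2 ⟨fun h => hab h.symm, hb⟩), if_pos hb,
          if_pos (mem_erase.2 ⟨hab, ha⟩), erase_right_comm]
      · rw [if_pos ha, if_neg (fun h => hb (mem_of_mem_erase h)), if_neg hb]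
    · by_cases hb : b ∈ U
      · rw [if_neg ha, if_pos hb, if_neg (fun h => ha (mem_of_mem_erase h))]
      · rw [if_neg ha, if_neg hb]

theorem xm_sub (a : ℕ) (f g : Finset ℕ → ℤ) :
    xm a (fun U => f U - g U) = fun U => xm a f U - xm a g U := by
  funext U
  unfold xm
  split_ifs with h
  · rfl
  · rw [sub_zero]

theorem xm_sum {ι : Type*} (a : ℕ) (I : Finset ι) (c : ι → ℤ) (f : ι → Finset ℕ → ℤ) :
    xm a (fun U => ∑ i ∈ I, c i * f i U) = fun U => ∑ i ∈ I, c i * xm a (f i) U := by
  funext U
  unfold xm
  split_ifs with h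
  · rfl
  · symm
    exact sum_eq_zero fun i _ => mul_zero _

theorem st_mem {n : ℕ} {B : Finset ℕ} {a : ℕ} (h : a ∈ st n B) : a < n ∧ a ∉ B := by
  induction n with
  | zero => exact absurd h (List.not_mem_nil)
  | succ n ih =>
    unfold st at h
    split_ifs at h with hn
    · have h1 := ih (List.mem_of_mem_tail h)
      exact ⟨by omega, h1.2⟩
    · rcases List.mem_cons.1 h with h1 | h1
      · rw [h1]
        exact ⟨by omega, hn⟩
      · have h2 := ih h1
        exact ⟨by omega, h2.2⟩

theorem st_nodup (n : ℕ) (B : Finset ℕ) : (st n B).Nodup := by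
  induction n with
  | zero => exact List.nodup_nil
  | succ n ih =>
    unfold st
    split_ifs with hn
    · exact ih.tail
    · exact List.nodup_cons.2 ⟨fun h => lt_irrefl _ (st_mem h).1, ih⟩

theorem st_length (n : ℕ) (B : Finset ℕ) : (st n B).length ≤ n := by
  induction n with
  | zero => exact le_rfl
  | succ n ih =>
    unfold st
    split_ifs with hn
    · rw [List.length_tail]
      omega
    · rw [List.length_cons]
      omega

theorem st_congr {n : ℕ} {B B' : Finset ℕ} (h : ∀ x < n, (x ∈ B ↔ x ∈ B')) :
    st n B = st n B' := by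
  induction n with
  | zero => rfl
  | succ n ih =>
    have h1 := ih fun x hx => h x (by omega)
    have h2 := h n (by omega)
    unfold st
    by_cases hn : n ∈ B
    · rw [if_pos hn, if_pos (h2.1 hn), h1]
    · rw [if_neg hn, if_neg (fun h' => hn (h2.2 h')), h1]

theorem wb_congr {n : ℕ} {B B' : Finset ℕ} (h : ∀ x < n, (x ∈ B ↔ x ∈ B')) :
    wb n B = wb n B' := by
  induction n with
  | zero => rfl
  | succ n ih =>
    have h1 := ih fun x hx => h x (by omega)
    have h2 := h n (by omega)
    have h3 : st n B = st n B' := st_congr fun x hx => h x (by omega)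
    unfold wb
    by_cases hn : n ∈ B
    · rw [if_pos hn, if_pos (h2.1 hn), h1, h3]
    · rw [if_neg hn, if_neg (fun h' => hn (h2.2 h')), h1]

theorem bal_congr {n : ℕ} {B B' : Finset ℕ} (h : ∀ x < n, (x ∈ B ↔ x ∈ B')) :
    bal n B ↔ bal n B' := by
  induction n with
  | zero => exact Iff.rfl
  | succ n ih =>
    have h1 := ih fun x hx => h x (by omega)
    have h2 := h n (by omega)
    have h3 : st n B = st n B' := st_congr fun x hx => h x (by omega)
    unfold bal
    rw [h1, h2, h3]

/-- the part of the definition of `wb` for a matched closer -/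
private def hm (l : List ℕ) (f : Finset ℕ → ℤ) (U : Finset ℕ) : ℤ :=
  match l with
  | [] => 0
  | b :: _ => xm b f U

private theorem xm_zero (a : ℕ) (U : Finset ℕ) : xm a (fun _ => 0) U = 0 := by
  unfold xm
  split_ifs <;> rfl

private theorem hm_xm (l : List ℕ) (a : ℕ) (f : Finset ℕ → ℤ) (U : Finset ℕ) :
    hm l (xm a f) U = xm a (hm l f) U := by
  cases l with
  | nil =>
    have h1 : hm [] f = fun _ => 0 := rfl
    rw [h1, xm_zero]
    rfl
  | cons b l =>
    have h1 : hm (b :: l) f = xm b f := rfl
    rw [h1, ← xm_comm b a]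
    rfl

private theorem hm_sub (l : List ℕ) (f g : Finset ℕ → ℤ) (U : Finset ℕ) :
    hm l (fun U => f U - g U) U = hm l f U - hm l g U := by
  cases l with
  | nil =>
    change (0 : ℤ) = 0 - 0
    rw [sub_zero]
  | cons b l =>
    change xm b (fun U => f U - g U) U = xm b f U - xm b g U
    rw [xm_sub]

private theorem wb_in {n : ℕ} {B : Finset ℕ} (hn : n ∈ B) :
    wb (n + 1) B = fun U => xm n (wb n B) U - hm (st n B) (wb n B) U := by
  funext U
  have h1 : wb (n + 1) B = (match st n B with
        | [] => xm n (wb n B)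
        | a :: _ => fun U => xm n (wb n B) U - xm a (wb n B) U) := by
    rw [wb]
    exact if_pos hn
  rw [h1]
  cases st n B with
  | nil =>
    change xm n (wb n B) U = xm n (wb n B) U - 0
    rw [sub_zero]
  | cons a l => rfl

private theorem wb_out {n : ℕ} {B : Finset ℕ} (hn : n ∉ B) : wb (n + 1) B = wb n B := by
  rw [wb]
  exact if_neg hn

private theorem st_in {n : ℕ} {B : Finset ℕ} (hn : n ∈ B) : st (n + 1) B = (st n B).tail := by
  rw [st]
  exact if_pos hn

private theorem st_out {n : ℕ} {B : Finset ℕ} (hn : n ∉ B) : st (n + 1) B = n :: st n B := by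
  rw [st]
  exact if_neg hn

private theorem ins_lt {n : ℕ} (Q : Finset ℕ) : ∀ x < n, (x ∈ insert n Q ↔ x ∈ Q) := by
  intro x hx
  rw [mem_insert]
  exact or_iff_right (by omega)

/-- `wb n B` is supported on subsets of `range n`. -/
theorem wb_supp {n : ℕ} {B U : Finset ℕ} (h : wb n B U ≠ 0) : U ⊆ range n := by
  induction n generalizing U with
  | zero =>
    have h1 : wb 0 B U = if U = ∅ then 1 else 0 := rfl
    rw [h1] at h
    split_ifs at h with hU
    · rw [hU]
      exact empty_subset _
    · exact absurd rfl h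
  | succ n ih =>
    have key : ∀ a < n + 1, xm a (wb n B) U ≠ 0 → U ⊆ range (n + 1) := by
      intro a ha h1
      unfold xm at h1
      split_ifs at h1 with haU
      · have h2 := ih h1
        intro x hx
        by_cases hxa : x = a
        · rw [hxa]
          exact mem_range.2 ha
        · have := mem_range.1 (h2 (mem_erase.2 ⟨hxa, hx⟩))
          exact mem_range.2 (by omega)
      · exact absurd rfl h1
    by_cases hn : n ∈ B
    · rw [wb_in hn] at h
      by_cases h1 : xm n (wb n B) U = 0
      · rcases hl : st n B with _ | ⟨a, l⟩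
        · rw [hl] at h
          change xm n (wb n B) U - 0 ≠ 0 at h
          rw [h1, sub_zero] at h
          exact absurd rfl h
        · rw [hl] at h
          change xm n (wb n B) U - xm a (wb n B) U ≠ 0 at h
          rw [h1, zero_sub] at h
          have ha : a < n := (st_mem (B := B) (by rw [hl]; exact List.mem_cons_self)).1
          exact key a (by omega) fun h3 => h (by rw [h3, neg_zero])
      · exact key n (by omega) h1
    · rw [wb_out hn] at h
      exact (ih h).trans (range_subset_range.2 (by omega))

private theorem wb_split' (n : ℕ) (Q : Finset ℕ) (l1 l2 : List ℕ) (a : ℕ)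
    (h : st n Q = l1 ++ a :: l2) :
    st n (insert a Q) = l1 ++ l2.tail ∧
      wb n (insert a Q) = fun U => xm a (wb n Q) U - hm l2 (wb n Q) U := by
  induction n generalizing l1 with
  | zero =>
    have h1 : st 0 Q = [] := rfl
    rw [h1] at h
    simp at h
  | succ n ih =>
    by_cases hn : n ∈ Q
    · rw [st_in hn] at h
      rcases hl : st n Q with _ | ⟨e, l⟩
      · rw [hl] at h
        simp at h
      · rw [hl, List.tail_cons] at h
        have h1 : st n Q = (e :: l1) ++ a :: l2 := by
          rw [hl, h]
          rfl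
        obtain ⟨h2, h3⟩ := ih (e :: l1) h1
        have hn' : n ∈ insert a Q := mem_insert_of_mem hn
        refine ⟨?_, ?_⟩
        · rw [st_in hn', h2]
          rfl
        · rw [wb_in hn', wb_in hn, h2, h3, h1]
          funext U
          change xm n (fun U => xm a (wb n Q) U - hm l2 (wb n Q) U) U -
            xm e (fun U => xm a (wb n Q) U - hm l2 (wb n Q) U) U =
            xm a (fun U => xm n (wb n Q) U - xm e (wb n Q) U) U -
              hm l2 (fun U => xm n (wb n Q) U - xm e (wb n Q) U) U
          rw [hm_sub, hm_xm, hm_xm, xm_sub, xm_sub, xm_sub, xm_comm a n, xm_comm a e]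
          ring
    · rw [st_out hn] at h
      rcases l1 with _ | ⟨e, l1⟩
      · rw [List.nil_append, List.cons.injEq] at h
        obtain ⟨rfl, rfl⟩ := h
        refine ⟨?_, ?_⟩
        · rw [st_in (mem_insert_self _ _), st_congr (ins_lt Q), List.nil_append]
        · rw [wb_in (mem_insert_self _ _), st_congr (ins_lt Q), wb_congr (ins_lt Q), wb_out hn]
      · rw [List.cons_append, List.cons.injEq] at h
        obtain ⟨h1, h2⟩ := h
        obtain ⟨h3, h4⟩ := ih l1 h2
        have ha : a < n := (st_mem (B := Q) (by rw [h2]; simp)).1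
        have hn' : n ∉ insert a Q := by
          rw [mem_insert, not_or]
          exact ⟨by omega, hn⟩
        refine ⟨?_, ?_⟩
        · rw [st_out hn', h3, ← h1]
          rfl
        · rw [wb_out hn', wb_out hn, h4]

/-- Turning an unmatched opener `a` into a closer. -/
theorem wb_split (n : ℕ) (Q : Finset ℕ) (l1 l2 : List ℕ) (a : ℕ)
    (h : st n Q = l1 ++ a :: l2) :
    st n (insert a Q) = l1 ++ l2.tail ∧
      wb n (insert a Q) = (match l2 with
        | [] => xm a (wb n Q)
        | b :: _ => fun U => xm a (wb n Q) U - xm b (wb n Q) U) := by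
  obtain ⟨h1, h2⟩ := wb_split' n Q l1 l2 a h
  refine ⟨h1, ?_⟩
  rw [h2]
  cases l2 with
  | nil =>
    funext U
    change xm a (wb n Q) U - 0 = xm a (wb n Q) U
    rw [sub_zero]
  | cons b l => rfl

private theorem wb_tel (n : ℕ) (Q : Finset ℕ) (U : Finset ℕ) (l2 l1 : List ℕ)
    (h : st n Q = l1 ++ l2) :
    (l2.map (fun a => wb n (insert a Q) U)).sum = hm l2 (wb n Q) U := by
  induction l2 generalizing l1 with
  | nil => rfl
  | cons a l2 ih =>
    rw [List.map_cons, List.sum_cons, ih (l1 ++ [a]) (by rw [h]; simp),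
      (wb_split' n Q l1 l2 a h).2]
    change xm a (wb n Q) U - hm l2 (wb n Q) U + hm l2 (wb n Q) U = xm a (wb n Q) U
    ring

/-- The key identity. -/
theorem wb_key (n : ℕ) (Q : Finset ℕ) (hQ : n ∉ Q) (U : Finset ℕ) :
    xm n (wb n Q) U = wb (n + 1) (insert n Q) U +
      ((st n Q).map (fun a => wb (n + 1) (insert a Q) U)).sum := by
  have h1 : (st n Q).map (fun a => wb (n + 1) (insert a Q) U) =
      (st n Q).map (fun a => wb n (insert a Q) U) := by
    refine List.map_congr_left fun a ha => ?_
    have hn' : n ∉ insert a Q := by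
      rw [mem_insert, not_or]
      exact ⟨by have := (st_mem ha).1; omega, hQ⟩
    rw [wb_out hn']
  rw [h1, wb_tel n Q U (st n Q) [] rfl, wb_in (mem_insert_self _ _), st_congr (ins_lt Q),
    wb_congr (ins_lt Q)]
  ring

end Pool.Agent.LS3
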