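import Pool.Agent.Lib.MP_2c0b9b_co_NL.WebA

/-!
# The web basis: expansion of monomials
-/

set_option autoImplicit false

open Finset

namespace Pool.Agent.LS3

/-- combinations of the `wb n B`, `|B| = s`, of total size at most `M` -/
private def WRep (n s : ℕ) (f : Finset ℕ → ℤ) (M : ℤ) : Prop :=
  ∃ c : Finset ℕ → ℤ, (∀ U, f U = ∑ B ∈ powersetCard s (range n), c B * wb n B U) ∧
    ∑ B ∈ powersetCard s (range n), |c B| ≤ M

private theorem WRep.zero (n s : ℕ) : WRep n s (fun _ => 0) 0 := by
  refine ⟨fun _ => 0, fun U => ?_, ?_⟩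
  · simp
  · simp

private theorem WRep.add {n s : ℕ} {f g : Finset ℕ → ℤ} {M N : ℤ} (hf : WRep n s f M)
    (hg : WRep n s g N) : WRep n s (fun U => f U + g U) (M + N) := by
  obtain ⟨a, ha, ha'⟩ := hf
  obtain ⟨b, hb, hb'⟩ := hg
  refine ⟨fun B => a B + b B, fun U => ?_, ?_⟩
  · change f U + g U = ∑ B ∈ powersetCard s (range n), (a B + b B) * wb n B U
    rw [ha, hb, ← sum_add_distrib]
    exact sum_congr rfl fun B _ => by ring
  · calc ∑ B ∈ powersetCard s (range n), |a B + b B| ≤
        ∑ B ∈ powersetCard s (range n), (|a B| + |b B|) := sum_le_sum fun B _ => abs_add_le _ _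
      _ = ∑ B ∈ powersetCard s (range n), |a B| + ∑ B ∈ powersetCard s (range n), |b B| :=
        sum_add_distrib
      _ ≤ M + N := add_le_add ha' hb'

private theorem WRep.smul {n s : ℕ} {f : Finset ℕ → ℤ} {M : ℤ} (m : ℤ) (hf : WRep n s f M) :
    WRep n s (fun U => m * f U) (|m| * M) := by
  obtain ⟨a, ha, ha'⟩ := hf
  refine ⟨fun B => m * a B, fun U => ?_, ?_⟩
  · change m * f U = ∑ B ∈ powersetCard s (range n), (m * a B) * wb n B U
    rw [ha, mul_sum]
    exact sum_congr rfl fun B _ => by ring
  · calc ∑ B ∈ powersetCard s (range n), |m * a B| =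
        |m| * ∑ B ∈ powersetCard s (range n), |a B| := by
          rw [mul_sum]
          exact sum_congr rfl fun B _ => abs_mul _ _
      _ ≤ |m| * M := mul_le_mul_of_nonneg_left ha' (abs_nonneg _)

private theorem WRep.mono {n s : ℕ} {f g : Finset ℕ → ℤ} {M N : ℤ} (hf : WRep n s f M)
    (hg : ∀ U, g U = f U) (hMN : M ≤ N) : WRep n s g N := by
  obtain ⟨a, ha, ha'⟩ := hf
  exact ⟨a, fun U => (hg U).trans (ha U), ha'.trans hMN⟩

private theorem WRep.single {n s : ℕ} {B : Finset ℕ} (hB : B ∈ powersetCard s (range n)) :
    WRep n s (wb n B) 1 := by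
  refine ⟨fun B' => if B' = B then 1 else 0, fun U => ?_, ?_⟩
  · simp only [ite_mul, one_mul, zero_mul]
    rw [sum_ite_eq' _ B, if_pos hB]
  · have h1 : ∀ B' : Finset ℕ, |(if B' = B then (1 : ℤ) else 0)| = if B' = B then 1 else 0 := by
      intro B'
      split_ifs <;> simp
    rw [sum_congr rfl fun B' _ => h1 B', sum_ite_eq' _ B, if_pos hB]

private theorem WRep.list {n s : ℕ} (l : List ℕ) (g : ℕ → Finset ℕ → ℤ)
    (h : ∀ a ∈ l, WRep n s (g a) 1) :
    WRep n s (fun U => (l.map (fun a => g a U)).sum) l.length := by
  induction l with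
  | nil =>
    refine (WRep.zero n s).mono (fun U => rfl) ?_
    simp
  | cons a l ih =>
    refine ((h a List.mem_cons_self).add (ih fun b hb => h b (List.mem_cons_of_mem _ hb))).mono
      (fun U => ?_) ?_
    · rw [List.map_cons, List.sum_cons]
    · rw [List.length_cons]
      push_cast
      linarith

private theorem WRep.sum {n s : ℕ} {ι : Type*} (I : Finset ι) (a : ι → ℤ)
    (g : ι → Finset ℕ → ℤ) {M : ℤ} (h : ∀ i ∈ I, WRep n s (g i) M) :
    WRep n s (fun U => ∑ i ∈ I, a i * g i U) ((∑ i ∈ I, |a i|) * M) := by
  classical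
  induction I using Finset.induction_on with
  | empty =>
    refine (WRep.zero n s).mono (fun U => ?_) ?_
    · rw [sum_empty]
    · rw [sum_empty, zero_mul]
  | insert i I hi ih =>
    refine (((h i (mem_insert_self i I)).smul (a i)).add
      (ih fun j hj => h j (mem_insert_of_mem hj))).mono (fun U => ?_) ?_
    · rw [sum_insert hi]
    · rw [sum_insert hi, add_mul]

/-- Every monomial is an integer combination of the `wb n B` with `|B| = s`, with coefficients
of total size at most `n ^ s`. -/
theorem web_expand (n s : ℕ) (T : Finset ℕ) (hT : T ∈ powersetCard s (range n)) :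
    ∃ c : Finset ℕ → ℤ,
      (∀ U, (if U = T then (1 : ℤ) else 0) = ∑ B ∈ powersetCard s (range n), c B * wb n B U) ∧
      ∑ B ∈ powersetCard s (range n), |c B| ≤ (n : ℤ) ^ s := by
  change WRep n s (fun U => if U = T then (1 : ℤ) else 0) ((n : ℤ) ^ s)
  induction n generalizing s T with
  | zero =>
    rw [mem_powersetCard] at hT
    obtain ⟨h1, h2⟩ := hT
    have hT0 : T = ∅ := by
      rw [range_zero, subset_empty] at h1
      exact h1
    have hs : s = 0 := by
      rw [← h2, hT0, card_empty]
    subst hs
    subst hT0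
    refine (WRep.single (n := 0) (s := 0) (B := ∅) (by simp)).mono (fun U => rfl) ?_
    simp
  | succ n ih =>
    rw [mem_powersetCard] at hT
    obtain ⟨h1, h2⟩ := hT
    have hout : ∀ {Q : Finset ℕ}, n ∉ Q → wb (n + 1) Q = wb n Q := by
      intro Q hQ
      rw [wb]
      exact if_neg hQ
    by_cases hn : n ∈ T
    · -- `n ∈ T`
      obtain ⟨s', rfl⟩ : ∃ s', s = s' + 1 := by
        refine ⟨s - 1, ?_⟩
        have := card_pos.2 ⟨n, hn⟩
        omega
      have hT' : T.erase n ∈ powersetCard s' (range n) := by
        rw [mem_powersetCard]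
        refine ⟨fun x hx => ?_, ?_⟩
        · have h3 := mem_range.1 (h1 (mem_of_mem_erase hx))
          have h4 := ne_of_mem_erase hx
          exact mem_range.2 (by omega)
        · rw [card_erase_of_mem hn, h2]
          rfl
      obtain ⟨c, hc, hc'⟩ := ih s' (T.erase n) hT'
      have hx : ∀ Q ∈ powersetCard s' (range n),
          WRep (n + 1) (s' + 1) (xm n (wb n Q)) ((n : ℤ) + 1) := by
        intro Q hQ
        rw [mem_powersetCard] at hQ
        have hnQ : n ∉ Q := fun h => lt_irrefl _ (mem_range.1 (hQ.1 h))
        have hins : ∀ a, a < n + 1 → a ∉ Q → insert a Q ∈ powersetCard (s' + 1) (range (n + 1)) := by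
          intro a ha haQ
          rw [mem_powersetCard]
          refine ⟨fun x hx => ?_, ?_⟩
          · rcases mem_insert.1 hx with h3 | h3
            · rw [h3]
              exact mem_range.2 ha
            · have := mem_range.1 (hQ.1 h3)
              exact mem_range.2 (by omega)
          · rw [card_insert_of_notMem haQ, hQ.2]
        refine ((WRep.single (hins n (by omega) hnQ)).add (WRep.list (st n Q)
          (fun a => wb (n + 1) (insert a Q)) fun a ha => WRep.single (hins a
            (by have := (st_mem ha).1; omega) (st_mem ha).2))).mono (fun U => ?_) ?_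
        · exact wb_key n Q hnQ U
        · have h3 : ((st n Q).length : ℤ) ≤ n := by exact_mod_cast st_length n Q
          linarith
      refine (WRep.sum (powersetCard s' (range n)) c (fun Q => xm n (wb n Q)) hx).mono
        (fun U => ?_) ?_
      · have h3 : (fun U => if U = T.erase n then (1 : ℤ) else 0) =
            fun U => ∑ B ∈ powersetCard s' (range n), c B * wb n B U := funext hc
        have h4 := congrFun (xm_sum n (powersetCard s' (range n)) c (wb n)) U
        change xm n (fun U => ∑ B ∈ powersetCard s' (range n), c B * wb n B U) U =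
          ∑ B ∈ powersetCard s' (range n), c B * xm n (wb n B) U at h4
        rw [← h4, ← h3]
        unfold xm
        by_cases hU : n ∈ U
        · rw [if_pos hU]
          change (if U = T then (1 : ℤ) else 0) = if U.erase n = T.erase n then 1 else 0
          by_cases hUT : U = T
          · rw [if_pos hUT, if_pos (congrArg (fun W => erase W n) hUT)]
          · rw [if_neg hUT, if_neg]
            intro h5
            apply hUT
            rw [← insert_erase hU, h5, insert_erase hn]
        · rw [if_neg hU, if_neg]
          rintro rfl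
          exact hU hn
      · have h0 : (0 : ℤ) ≤ (n : ℤ) + 1 := by positivity
        calc (∑ i ∈ powersetCard s' (range n), |c i|) * ((n : ℤ) + 1) ≤
            (n : ℤ) ^ s' * ((n : ℤ) + 1) := mul_le_mul_of_nonneg_right hc' h0
          _ ≤ ((n : ℤ) + 1) ^ s' * ((n : ℤ) + 1) := by
            refine mul_le_mul_of_nonneg_right ?_ h0
            exact pow_le_pow_left₀ (by positivity) (by linarith) _
          _ = ((n + 1 : ℕ) : ℤ) ^ (s' + 1) := by
            push_cast
            rw [pow_succ]
    · -- `n ∉ T`
      have hT' : T ∈ powersetCard s (range n) := by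
        rw [mem_powersetCard]
        refine ⟨fun x hx => ?_, h2⟩
        have h3 := mem_range.1 (h1 hx)
        have h4 : x ≠ n := fun h => hn (h ▸ hx)
        exact mem_range.2 (by omega)
      obtain ⟨c, hc, hc'⟩ := ih s T hT'
      refine (WRep.sum (powersetCard s (range n)) c (wb n) (M := 1) ?_).mono hc ?_
      · intro Q hQ
        rw [mem_powersetCard] at hQ
        have hnQ : n ∉ Q := fun h => lt_irrefl _ (mem_range.1 (hQ.1 h))
        rw [← hout hnQ]
        refine WRep.single ?_
        rw [mem_powersetCard]
        exact ⟨hQ.1.trans (range_subset_range.2 (by omega)), hQ.2⟩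
      · rw [mul_one]
        refine hc'.trans ?_
        push_cast
        exact pow_le_pow_left₀ (by positivity) (by linarith) _

end Pool.Agent.LS3
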