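import Pool.Agent.Lib.MP_2c0b9b_co_NL.WebA

/-!
# The web basis: matched words give octahedra
-/

set_option autoImplicit false

open Finset

namespace Pool.Agent.LS3

private theorem webc_bij (s : ℕ) : Function.Bijective
    (Sum.elim (fun J : Finset (Fin s) => J.map (Fin.succEmb s))
      (fun J : Finset (Fin s) => insert (0 : Fin (s + 1)) (J.map (Fin.succEmb s)))) := by
  have h0 : ∀ J : Finset (Fin s), (0 : Fin (s + 1)) ∉ J.map (Fin.succEmb s) := by
    intro J h
    rw [mem_map] at h
    obtain ⟨i, -, hi⟩ := h
    exact Fin.succ_ne_zero i hi
  rw [Fintype.bijective_iff_injective_and_card]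
  constructor
  · rintro (J | J) (J' | J') h
    · simp only [Sum.elim_inl] at h
      rw [map_injective _ h]
    · simp only [Sum.elim_inl, Sum.elim_inr] at h
      exfalso
      apply h0 J
      rw [h]
      exact mem_insert_self _ _
    · simp only [Sum.elim_inl, Sum.elim_inr] at h
      exfalso
      apply h0 J'
      rw [← h]
      exact mem_insert_self _ _
    · simp only [Sum.elim_inr] at h
      have h1 := congrArg (fun W => erase W (0 : Fin (s + 1))) h
      simp only [erase_insert (h0 _)] at h1
      rw [map_injective _ h1]
  · rw [Fintype.card_sum, Fintype.card_finset, Fintype.card_finset, Fintype.card_fin,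
      Fintype.card_fin, pow_succ]
    ring

private theorem webc_sum (s : ℕ) (f : Finset (Fin (s + 1)) → ℤ) :
    ∑ J, f J = ∑ J : Finset (Fin s), f (J.map (Fin.succEmb s)) +
      ∑ J : Finset (Fin s), f (insert 0 (J.map (Fin.succEmb s))) := by
  rw [← (webc_bij s).sum_comp f, Fintype.sum_sum_type]
  rfl

private theorem webc_mem {s : ℕ} {J : Finset (Fin s)} {i : Fin s} :
    i.succ ∈ J.map (Fin.succEmb s) ↔ i ∈ J := by
  rw [mem_map]
  constructor
  · rintro ⟨j, hj, h⟩
    have : j = i := Fin.succ_injective s h
    rw [← this]
    exact hj
  · intro h
    exact ⟨i, h, rfl⟩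

private theorem webc_zero {s : ℕ} (J : Finset (Fin s)) :
    (0 : Fin (s + 1)) ∉ J.map (Fin.succEmb s) := by
  intro h
  rw [mem_map] at h
  obtain ⟨i, -, hi⟩ := h
  exact Fin.succ_ne_zero i hi

private theorem webc_tr1 {s : ℕ} (p : (Fin s → ℕ) × (Fin s → ℕ)) (a b : ℕ)
    (J : Finset (Fin s)) :
    tr ((Fin.cons a p.1 : Fin (s + 1) → ℕ), (Fin.cons b p.2 : Fin (s + 1) → ℕ))
      (J.map (Fin.succEmb s)) = insert a (tr p J) := by
  ext x
  rw [PodAux.mem_tr, mem_insert, PodAux.mem_tr, Fin.exists_fin_succ]
  simp only [Fin.cons_zero, Fin.cons_succ, webc_mem, webc_zero, false_and, not_false_eq_true,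
    true_and, false_or]
  rw [eq_comm]

private theorem webc_tr2 {s : ℕ} (p : (Fin s → ℕ) × (Fin s → ℕ)) (a b : ℕ)
    (J : Finset (Fin s)) :
    tr ((Fin.cons a p.1 : Fin (s + 1) → ℕ), (Fin.cons b p.2 : Fin (s + 1) → ℕ))
      (insert 0 (J.map (Fin.succEmb s))) = insert b (tr p J) := by
  ext x
  rw [PodAux.mem_tr, mem_insert, PodAux.mem_tr, Fin.exists_fin_succ]
  simp only [Fin.cons_zero, Fin.cons_succ, mem_insert, webc_mem, true_or, not_true_eq_false,
    false_and, true_and, or_false, Fin.succ_ne_zero, false_or]
  rw [eq_comm]

private theorem webc_xm {s : ℕ} (p : (Fin s → ℕ) × (Fin s → ℕ)) (a : ℕ)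
    (ha : ∀ i, p.1 i ≠ a ∧ p.2 i ≠ a) (U : Finset ℕ) :
    xm a (pod p) U = ∑ J : Finset (Fin s), if insert a (tr p J) = U then (-1) ^ J.card else 0 := by
  have hJ : ∀ J : Finset (Fin s), a ∉ tr p J := by
    intro J h
    obtain ⟨i, ⟨-, h1⟩ | ⟨-, h1⟩⟩ := PodAux.mem_tr.1 h
    · exact (ha i).2 h1
    · exact (ha i).1 h1
  unfold xm
  by_cases hU : a ∈ U
  · rw [if_pos hU]
    unfold pod
    refine sum_congr rfl fun J _ => ?_
    have h1 : tr p J = U.erase a ↔ insert a (tr p J) = U := by
      constructor
      · intro h
        rw [h, insert_erase hU]
      · intro h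
        rw [← h, erase_insert (hJ J)]
    simp only [h1]
  · rw [if_neg hU]
    symm
    refine sum_eq_zero fun J _ => ?_
    rw [if_neg]
    intro h
    exact hU (h ▸ mem_insert_self _ _)

/-- If all closers are matched, `wb n B` is the pod of an octahedron. -/
theorem web_oct (n s : ℕ) (B : Finset ℕ) (hB : B ∈ powersetCard s (range n)) (hb : bal n B) :
    2 * s + (st n B).length = n ∧
      ∃ p : (Fin s → ℕ) × (Fin s → ℕ), Oct p ∧
        (∀ i, (p.1 i ∈ range n ∧ p.2 i ∈ range n) ∧ p.1 i ∉ st n B ∧ p.2 i ∉ st n B) ∧
        ∀ U, wb n B U = pod p U := by
  induction n generalizing s B with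
  | zero =>
    rw [mem_powersetCard] at hB
    obtain ⟨h1, h2⟩ := hB
    have hB0 : B = ∅ := by
      rw [range_zero, subset_empty] at h1
      exact h1
    have hs : s = 0 := by
      rw [← h2, hB0, card_empty]
    subst hs
    refine ⟨rfl, (fun i => i.elim0, fun i => i.elim0), ?_, fun i => i.elim0, fun U => ?_⟩
    · intro x y _
      rcases x with x | x <;> exact x.elim0
    · unfold pod
      have h3 : (univ : Finset (Finset (Fin 0))) = {∅} := rfl
      rw [h3, sum_singleton]
      have h4 : tr ((fun i => i.elim0, fun i => i.elim0) : (Fin 0 → ℕ) × (Fin 0 → ℕ)) ∅ = ∅ := rfl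
      rw [h4, card_empty, pow_zero]
      change (if U = ∅ then (1 : ℤ) else 0) = _
      by_cases hU : U = ∅
      · rw [if_pos hU, if_pos hU.symm]
      · rw [if_neg hU, if_neg fun h => hU h.symm]
  | succ n ih =>
    rw [mem_powersetCard] at hB
    obtain ⟨h1, h2⟩ := hB
    by_cases hn : n ∈ B
    · -- a closer
      obtain ⟨s', rfl⟩ : ∃ s', s = s' + 1 := by
        refine ⟨s - 1, ?_⟩
        have := card_pos.2 ⟨n, hn⟩
        omega
      have hB' : B.erase n ∈ powersetCard s' (range n) := by
        rw [mem_powersetCard]
        refine ⟨fun x hx => ?_, ?_⟩
        · have h3 := mem_range.1 (h1 (mem_of_mem_erase hx))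
          have h4 := ne_of_mem_erase hx
          exact mem_range.2 (by omega)
        · rw [card_erase_of_mem hn, h2]
          rfl
      have hcg : ∀ x < n, (x ∈ B ↔ x ∈ B.erase n) := by
        intro x hx
        rw [mem_erase]
        exact ⟨fun h => ⟨by omega, h⟩, fun h => h.2⟩
      have hb1 : bal n B := hb.1
      have hb2 : st n B ≠ [] := hb.2 hn
      obtain ⟨h5, p, hp, hpi, hpU⟩ := ih s' (B.erase n) hB' ((bal_congr hcg).1 hb1)
      rw [← st_congr hcg] at h5
      rw [← st_congr hcg] at hpi
      rw [← wb_congr hcg] at hpU
      rcases hl : st n B with _ | ⟨a, l⟩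
      · exact absurd hl hb2
      · have hst : st (n + 1) B = l := by
          rw [st]
          rw [if_pos hn, hl]
          rfl
        have hwb : wb (n + 1) B = fun U => xm n (wb n B) U - xm a (wb n B) U := by
          rw [wb]
          rw [if_pos hn, hl]
        have hal : a ∈ st n B := by
          rw [hl]
          exact List.mem_cons_self
        have han : a < n := (st_mem hal).1
        have hnd : a ∉ l := by
          have := st_nodup n B
          rw [hl] at this
          exact (List.nodup_cons.1 this).1
        have hnl : n ∉ l := by
          intro h
          have : n ∈ st n B := by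
            rw [hl]
            exact List.mem_cons_of_mem _ h
          exact lt_irrefl _ (st_mem this).1
        have hpa : ∀ i, p.1 i ≠ a ∧ p.2 i ≠ a := by
          intro i
          obtain ⟨-, h6, h7⟩ := hpi i
          exact ⟨fun h => h6 (h ▸ hal), fun h => h7 (h ▸ hal)⟩
        have hpn : ∀ i, p.1 i ≠ n ∧ p.2 i ≠ n := by
          intro i
          obtain ⟨⟨h6, h7⟩, -⟩ := hpi i
          rw [mem_range] at h6 h7
          exact ⟨by omega, by omega⟩
        refine ⟨?_, (Fin.cons n p.1, Fin.cons a p.2), ?_, ?_, fun U => ?_⟩
        · rw [hst]
          rw [hl, List.length_cons] at h5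
          omega
        · -- injectivity
          rintro (i | i) (j | j) hij <;> simp only [Sum.elim_inl, Sum.elim_inr] at hij
          · congr 1
            induction i using Fin.cases with
            | zero =>
              induction j using Fin.cases with
              | zero => rfl
              | succ j =>
                rw [Fin.cons_zero, Fin.cons_succ] at hij
                exact absurd hij.symm (hpn j).1
            | succ i =>
              induction j using Fin.cases with
              | zero =>
                rw [Fin.cons_zero, Fin.cons_succ] at hij
                exact absurd hij (hpn i).1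
              | succ j =>
                rw [Fin.cons_succ, Fin.cons_succ] at hij
                rw [PodAux.oct_inj1 hp hij]
          · exfalso
            induction i using Fin.cases with
            | zero =>
              induction j using Fin.cases with
              | zero =>
                rw [Fin.cons_zero, Fin.cons_zero] at hij
                omega
              | succ j =>
                rw [Fin.cons_zero, Fin.cons_succ] at hij
                exact absurd hij.symm (hpn j).2
            | succ i =>
              induction j using Fin.cases with
              | zero =>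
                rw [Fin.cons_zero, Fin.cons_succ] at hij
                exact absurd hij (hpa i).1
              | succ j =>
                rw [Fin.cons_succ, Fin.cons_succ] at hij
                exact PodAux.oct_ne hp hij
          · exfalso
            induction i using Fin.cases with
            | zero =>
              induction j using Fin.cases with
              | zero =>
                rw [Fin.cons_zero, Fin.cons_zero] at hij
                omega
              | succ j =>
                rw [Fin.cons_zero, Fin.cons_succ] at hij
                exact absurd hij.symm (hpa j).1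
            | succ i =>
              induction j using Fin.cases with
              | zero =>
                rw [Fin.cons_zero, Fin.cons_succ] at hij
                exact absurd hij (hpn i).2
              | succ j =>
                rw [Fin.cons_succ, Fin.cons_succ] at hij
                exact PodAux.oct_ne hp hij.symm
          · congr 1
            induction i using Fin.cases with
            | zero =>
              induction j using Fin.cases with
              | zero => rfl
              | succ j =>
                rw [Fin.cons_zero, Fin.cons_succ] at hij
                exact absurd hij.symm (hpa j).2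
            | succ i =>
              induction j using Fin.cases with
              | zero =>
                rw [Fin.cons_zero, Fin.cons_succ] at hij
                exact absurd hij (hpa i).2
              | succ j =>
                rw [Fin.cons_succ, Fin.cons_succ] at hij
                rw [PodAux.oct_inj2 hp hij]
        · intro i
          rw [hst]
          induction i using Fin.cases with
          | zero =>
            simp only [Fin.cons_zero]
            exact ⟨⟨mem_range.2 (by omega), mem_range.2 (by omega)⟩, hnl, hnd⟩
          | succ i =>
            simp only [Fin.cons_succ]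
            obtain ⟨⟨h6, h7⟩, h8, h9⟩ := hpi i
            rw [hl, List.mem_cons, not_or] at h8 h9
            rw [mem_range] at h6 h7
            exact ⟨⟨mem_range.2 (by omega), mem_range.2 (by omega)⟩, h8.2, h9.2⟩
        · rw [hwb]
          change xm n (wb n B) U - xm a (wb n B) U = _
          have h6 : wb n B = pod p := funext hpU
          rw [h6, webc_xm p n hpn, webc_xm p a hpa]
          unfold pod
          rw [webc_sum, sub_eq_add_neg, ← sum_neg_distrib]
          congr 1
          · refine sum_congr rfl fun J _ => ?_
            rw [webc_tr1, card_map]
          · refine sum_congr rfl fun J _ => ?_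
            rw [webc_tr2, card_insert_of_notMem (webc_zero J), card_map, pow_succ]
            split_ifs <;> ring
    · -- an opener
      have hB' : B ∈ powersetCard s (range n) := by
        rw [mem_powersetCard]
        refine ⟨fun x hx => ?_, h2⟩
        have h3 := mem_range.1 (h1 hx)
        have h4 : x ≠ n := fun h => hn (h ▸ hx)
        exact mem_range.2 (by omega)
      obtain ⟨h5, p, hp, hpi, hpU⟩ := ih s B hB' hb.1
      have hst : st (n + 1) B = n :: st n B := by
        rw [st]
        exact if_neg hn
      have hwb : wb (n + 1) B = wb n B := by
        rw [wb]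
        exact if_neg hn
      refine ⟨?_, p, hp, ?_, fun U => ?_⟩
      · rw [hst, List.length_cons]
        omega
      · intro i
        obtain ⟨⟨h6, h7⟩, h8, h9⟩ := hpi i
        rw [mem_range] at h6 h7
        rw [hst]
        refine ⟨⟨mem_range.2 (by omega), mem_range.2 (by omega)⟩, ?_, ?_⟩
        · rw [List.mem_cons, not_or]
          exact ⟨by omega, h8⟩
        · rw [List.mem_cons, not_or]
          exact ⟨by omega, h9⟩
      · rw [hwb]
        exact hpU U

end Pool.Agent.LS3
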