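import Pool.Agent.Lib.MP_2c0b9b_co_NL.WebC

/-!
# The web basis: null combinations only use matched words
-/

set_option autoImplicit false

open Finset

namespace Pool.Agent.LS3

private theorem webd_notMem {m s : ℕ} {Q : Finset ℕ} (hQ : Q ∈ powersetCard s (range m)) :
    m ∉ Q := fun h => lt_irrefl _ (mem_range.1 ((mem_powersetCard.1 hQ).1 h))

private theorem webd_up {m s : ℕ} {Q : Finset ℕ} (hQ : Q ∈ powersetCard s (range m)) :
    Q ∈ powersetCard s (range (m + 1)) := by
  rw [mem_powersetCard] at hQ ⊢
  exact ⟨hQ.1.trans (range_subset_range.2 (by omega)), hQ.2⟩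

private theorem webd_ins {m s : ℕ} {Q : Finset ℕ} (hQ : Q ∈ powersetCard s (range m)) :
    insert m Q ∈ powersetCard (s + 1) (range (m + 1)) := by
  have hm := webd_notMem hQ
  rw [mem_powersetCard] at hQ ⊢
  refine ⟨fun x hx => ?_, ?_⟩
  · rcases mem_insert.1 hx with h | h
    · rw [h]
      exact mem_range.2 (by omega)
    · have := mem_range.1 (hQ.1 h)
      exact mem_range.2 (by omega)
  · rw [card_insert_of_notMem hm, hQ.2]

private theorem webd_split {m s : ℕ} (f : Finset ℕ → ℤ) :
    ∑ B ∈ powersetCard (s + 1) (range (m + 1)), f B =
      ∑ B ∈ powersetCard (s + 1) (range m), f B +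
        ∑ Q ∈ powersetCard s (range m), f (insert m Q) := by
  rw [range_add_one, powersetCard_succ_insert notMem_range_self, sum_union, sum_image]
  · intro Q hQ Q' hQ' h
    rw [← erase_insert (webd_notMem hQ), ← erase_insert (webd_notMem hQ'), h]
  · rw [disjoint_left]
    intro B hB hB'
    obtain ⟨Q, -, rfl⟩ := mem_image.1 hB'
    exact webd_notMem hB (mem_insert_self _ _)

private theorem webd_cases {m s : ℕ} {B : Finset ℕ}
    (hB : B ∈ powersetCard (s + 1) (range (m + 1))) :
    B ∈ powersetCard (s + 1) (range m) ∨ ∃ Q ∈ powersetCard s (range m), B = insert m Q := by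
  rw [range_add_one, powersetCard_succ_insert notMem_range_self, mem_union, mem_image] at hB
  rcases hB with h | ⟨Q, hQ, h⟩
  · exact Or.inl h
  · exact Or.inr ⟨Q, hQ, h.symm⟩

private theorem webd_congr {m : ℕ} (Q : Finset ℕ) : ∀ x < m, (x ∈ insert m Q ↔ x ∈ Q) := by
  intro x hx
  rw [mem_insert]
  exact or_iff_right (by omega)

private theorem webd_out {m : ℕ} {Q : Finset ℕ} (hQ : m ∉ Q) : wb (m + 1) Q = wb m Q := by
  rw [wb]
  exact if_neg hQ

private theorem webd_zero {m : ℕ} {B U : Finset ℕ} (hU : m ∈ U) : wb m B U = 0 := by
  by_contra h
  exact lt_irrefl _ (mem_range.1 (wb_supp h hU))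

/-- the value at a set which contains `m` -/
private theorem webd_link {m : ℕ} (Q : Finset ℕ) {U : Finset ℕ} (hU : m ∉ U) :
    wb (m + 1) (insert m Q) (insert m U) = wb m Q U := by
  have h1 : wb (m + 1) (insert m Q) = (match st m (insert m Q) with
        | [] => xm m (wb m (insert m Q))
        | a :: _ => fun U => xm m (wb m (insert m Q)) U - xm a (wb m (insert m Q)) U) := by
    rw [wb]
    exact if_pos (mem_insert_self _ _)
  have h2 : xm m (wb m (insert m Q)) (insert m U) = wb m Q U := by
    unfold xm
    rw [if_pos (mem_insert_self _ _), erase_insert hU, wb_congr (webd_congr Q)]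
  rw [h1]
  rcases hl : st m (insert m Q) with _ | ⟨a, l⟩
  · exact h2
  · change xm m (wb m (insert m Q)) (insert m U) - xm a (wb m (insert m Q)) (insert m U) = _
    have ha : a < m := (st_mem (B := insert m Q) (by rw [hl]; exact List.mem_cons_self)).1
    have h3 : xm a (wb m (insert m Q)) (insert m U) = 0 := by
      unfold xm
      split_ifs with h4
      · exact webd_zero (mem_erase.2 ⟨by omega, mem_insert_self _ _⟩)
      · rfl
    rw [h2, h3, sub_zero]

private theorem webd_ps0 (m : ℕ) : powersetCard 0 (range m) = {∅} := powersetCard_zero _

/-- The `wb n B` with `|B| = s` are linearly independent. -/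
theorem web_indep (n s : ℕ) (c : Finset ℕ → ℤ)
    (h : ∀ U ∈ powersetCard s (range n), ∑ B ∈ powersetCard s (range n), c B * wb n B U = 0) :
    ∀ B ∈ powersetCard s (range n), c B = 0 := by
  induction n generalizing s c with
  | zero =>
    intro B hB
    have h0 := mem_powersetCard.1 hB
    have hB0 : B = ∅ := by
      have := h0.1
      rw [range_zero, subset_empty] at this
      exact this
    have hs : s = 0 := by
      rw [← h0.2, hB0, card_empty]
    subst hs
    subst hB0
    have h1 := h ∅ hB
    rw [webd_ps0, sum_singleton] at h1
    have h2 : wb 0 ∅ ∅ = 1 := rfl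
    rw [h2, mul_one] at h1
    exact h1
  | succ n ih =>
    rcases s with _ | s
    · intro B hB
      rw [webd_ps0, mem_singleton] at hB
      subst hB
      refine ih 0 c (fun U hU => ?_) ∅ (by rw [webd_ps0]; exact mem_singleton_self _)
      have h1 := h U (by rw [webd_ps0] at hU ⊢; exact hU)
      rw [webd_ps0, sum_singleton] at h1 ⊢
      rwa [webd_out (notMem_empty _)] at h1
    · have hA : ∀ Q ∈ powersetCard s (range n), c (insert n Q) = 0 := by
        refine ih s (fun Q => c (insert n Q)) fun U hU => ?_
        have h1 := h (insert n U) (webd_ins hU)
        rw [webd_split, sum_eq_zero, zero_add] at h1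
        · rw [← h1]
          refine sum_congr rfl fun Q _ => ?_
          rw [webd_link Q (webd_notMem hU)]
        · intro B hB
          rw [webd_out (webd_notMem hB), webd_zero (mem_insert_self _ _), mul_zero]
      have hB' : ∀ B ∈ powersetCard (s + 1) (range n), c B = 0 := by
        refine ih (s + 1) c fun U hU => ?_
        have h1 := h U (webd_up hU)
        rw [webd_split, sum_eq_zero (s := powersetCard s (range n)), add_zero] at h1
        · rw [← h1]
          refine sum_congr rfl fun B hB => ?_
          rw [webd_out (webd_notMem hB)]
        · intro Q hQ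
          rw [hA Q hQ, zero_mul]
      intro B hB
      rcases webd_cases hB with h1 | ⟨Q, hQ, rfl⟩
      · exact hB' B h1
      · exact hA Q hQ

private theorem webd_bal (n : ℕ) : bal n ∅ := by
  induction n with
  | zero => trivial
  | succ n ih => exact ⟨ih, fun h => absurd h (notMem_empty _)⟩

/-- A null combination has no terms `wb n B` with an unmatched closer. -/
theorem web_vanish (n s : ℕ) (c : Finset ℕ → ℤ)
    (h : PodAux.Null s (range n) (fun U => ∑ B ∈ powersetCard s (range n), c B * wb n B U)) :
    ∀ B ∈ powersetCard s (range n), ¬ bal n B → c B = 0 := by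
  induction n generalizing s c with
  | zero =>
    intro B hB hb
    exact absurd trivial hb
  | succ m ih =>
    by_cases hsm : m + 1 < 2 * s
    · intro B hB _
      refine web_indep (m + 1) s c (fun U hU => ?_) B hB
      exact h.zero (by rw [card_range]; exact hsm) hU
    · rcases s with _ | s
      · intro B hB hb
        rw [webd_ps0, mem_singleton] at hB
        subst hB
        exact absurd (webd_bal _) hb
      · -- the sets which contain `m`
        set F : Finset ℕ → ℤ :=
          fun U => ∑ B ∈ powersetCard (s + 1) (range (m + 1)), c B * wb (m + 1) B U with hF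
        set G : Finset ℕ → ℤ :=
          fun U => ∑ Q ∈ powersetCard s (range m), c (insert m Q) * wb m Q U with hG
        have hFG : ∀ U, m ∉ U → F (insert m U) = G U := by
          intro U hU
          rw [hF, hG]
          simp only
          rw [webd_split, sum_eq_zero, zero_add]
          · refine sum_congr rfl fun Q _ => ?_
            rw [webd_link Q hU]
          · intro B hB
            rw [webd_out (webd_notMem hB), webd_zero (mem_insert_self _ _), mul_zero]
        have hGn : PodAux.Null s (range m) G := by
          intro R hR hRs
          have hmR : m ∉ R := fun h' => lt_irrefl _ (mem_range.1 (hR h'))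
          have h1 := h (insert m R) (by
            intro x hx
            rcases mem_insert.1 hx with h' | h'
            · rw [h']
              exact mem_range.2 (by omega)
            · have := mem_range.1 (hR h')
              exact mem_range.2 (by omega)) (by
            rw [card_insert_of_notMem hmR]
            omega)
          change ∑ U ∈ (powersetCard (s + 1) (range (m + 1))).filter
            (fun U => insert m R ⊆ U), F U = 0 at h1
          rw [sum_filter, webd_split, sum_eq_zero, zero_add] at h1
          · rw [sum_filter]
            refine (sum_congr rfl fun U hU => ?_).trans h1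
            have hmU := webd_notMem hU
            have h2 : insert m R ⊆ insert m U ↔ R ⊆ U := insert_subset_insert_iff hmR
            simp only [h2, hFG U hmU]
          · intro B hB
            rw [if_neg]
            intro h'
            exact webd_notMem hB (h' (mem_insert_self _ _))
        have hGv := ih s (fun Q => c (insert m Q)) hGn
        have hbal : ∀ Q ∈ powersetCard s (range m), bal m Q → bal (m + 1) (insert m Q) := by
          intro Q hQ hb
          refine ⟨(bal_congr (webd_congr Q)).2 hb, fun _ => ?_⟩
          rw [st_congr (webd_congr Q)]
          have h1 := (web_oct m s Q hQ hb).1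
          intro h2
          rw [h2, List.length_nil] at h1
          omega
        -- the sets which do not contain `m`
        set D : Finset ℕ → ℤ :=
          fun U => ∑ B ∈ powersetCard (s + 1) (range m), c B * wb m B U with hD
        have hFD : ∀ U, F U = D U +
            ∑ Q ∈ powersetCard s (range m), c (insert m Q) * wb (m + 1) (insert m Q) U := by
          intro U
          rw [hF, hD]
          simp only
          rw [webd_split]
          congr 1
          refine sum_congr rfl fun B hB => ?_
          rw [webd_out (webd_notMem hB)]
        have hDn : PodAux.Null (s + 1) (range m) D := by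
          intro R hR hRs
          have hR' : R ⊆ range (m + 1) := hR.trans (range_subset_range.2 (by omega))
          have h1 := h R hR' hRs
          change ∑ U ∈ (powersetCard (s + 1) (range (m + 1))).filter
            (fun U => R ⊆ U), F U = 0 at h1
          rw [sum_congr rfl fun U _ => hFD U, sum_add_distrib] at h1
          have h2 : ∑ U ∈ (powersetCard (s + 1) (range (m + 1))).filter (fun U => R ⊆ U),
              ∑ Q ∈ powersetCard s (range m),
                c (insert m Q) * wb (m + 1) (insert m Q) U = 0 := by
            rw [sum_comm]
            refine sum_eq_zero fun Q hQ => ?_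
            rw [← mul_sum]
            by_cases hb : bal m Q
            · obtain ⟨-, p, hp, hpi, hpU⟩ := web_oct (m + 1) (s + 1) (insert m Q) (webd_ins hQ)
                (hbal Q hQ hb)
              have h3 := PodAux.pod_null hp (fun i => (hpi i).1) R hR' hRs
              rw [sum_congr rfl fun U _ => hpU U, h3, mul_zero]
            · rw [hGv Q hQ hb, zero_mul]
          rw [h2, add_zero, sum_filter, webd_split] at h1
          rw [sum_filter]
          rw [sum_eq_zero (s := powersetCard s (range m)), add_zero] at h1
          · exact h1
          · intro Q _
            split_ifs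
            · refine sum_eq_zero fun B _ => ?_
              rw [webd_zero (mem_insert_self _ _), mul_zero]
            · rfl
        have hDv := ih (s + 1) c hDn
        intro B hB hb
        rcases webd_cases hB with h1 | ⟨Q, hQ, rfl⟩
        · refine hDv B h1 fun h2 => hb ⟨h2, fun h3 => absurd h3 (webd_notMem h1)⟩
        · exact hGv Q hQ fun h2 => hb (hbal Q hQ h2)

end Pool.Agent.LS3
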