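import Pool.Agent.Lib.MP_2c0b9b_co_NL.WebB
import Pool.Agent.Lib.MP_2c0b9b_co_NL.WebD

/-!
# Null functions are short combinations of pods
-/

set_option autoImplicit false

open Finset

namespace Pool.Agent.LS3

private theorem WebE_range (v : ℕ) :
    range v = (univ : Finset (Fin v)).map Fin.valEmbedding := by
  ext x
  simp only [mem_range, mem_map, mem_univ, true_and, Fin.valEmbedding_apply]
  constructor
  · intro h
    exact ⟨⟨x, h⟩, rfl⟩
  · rintro ⟨y, rfl⟩
    exact y.2

private theorem WebE_sum (s v : ℕ) (f : Finset ℕ → ℤ) :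
    ∑ U ∈ powersetCard s (range v), f U =
      ∑ W ∈ powersetCard s (univ : Finset (Fin v)), f (W.map Fin.valEmbedding) := by
  rw [WebE_range, powersetCard_map, sum_map]
  rfl

/-- the function on sets of natural numbers -/
private def WebE_d {v : ℕ} (d : Finset (Fin v) → ℤ) (U : Finset ℕ) : ℤ :=
  d (univ.filter (fun x : Fin v => (x : ℕ) ∈ U))

private theorem WebE_filter {v : ℕ} (W : Finset (Fin v)) :
    univ.filter (fun x : Fin v => (x : ℕ) ∈ W.map Fin.valEmbedding) = W := by
  ext x
  rw [mem_filter, mem_map]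
  constructor
  · rintro ⟨-, y, hy, h⟩
    rw [Fin.valEmbedding_apply] at h
    rwa [← Fin.ext h]
  · intro h
    exact ⟨mem_univ _, x, h, rfl⟩

private theorem WebE_d_map {v : ℕ} (d : Finset (Fin v) → ℤ) (W : Finset (Fin v)) :
    WebE_d d (W.map Fin.valEmbedding) = d W := by
  unfold WebE_d
  rw [WebE_filter]

private theorem WebE_lift {v : ℕ} {R : Finset ℕ} (h : R ⊆ range v) :
    (univ.filter (fun x : Fin v => (x : ℕ) ∈ R)).map Fin.valEmbedding = R := by
  ext x
  rw [mem_map]
  constructor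
  · rintro ⟨y, hy, rfl⟩
    exact (mem_filter.1 hy).2
  · intro hx
    exact ⟨⟨x, mem_range.1 (h hx)⟩, mem_filter.2 ⟨mem_univ _, hx⟩, rfl⟩

private theorem WebE_null (s v : ℕ) (d : Finset (Fin v) → ℤ)
    (hd : ∀ R : Finset (Fin v), R.card < s →
      ∑ U ∈ (powersetCard s univ).filter (fun U => R ⊆ U), d U = 0)
    (F : Finset ℕ → ℤ) (hF : ∀ U ∈ powersetCard s (range v), F U = WebE_d d U) :
    PodAux.Null s (range v) F := by
  intro R hR hRs
  have hRl := WebE_lift hR
  have hcard : (univ.filter (fun x : Fin v => (x : ℕ) ∈ R)).card = R.card := by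
    conv_rhs => rw [← hRl]
    rw [card_map]
  have h1 := hd (univ.filter (fun x : Fin v => (x : ℕ) ∈ R)) (by rw [hcard]; exact hRs)
  have h2 : ∑ U ∈ (powersetCard s (range v)).filter (fun U => R ⊆ U), F U =
      ∑ U ∈ (powersetCard s (range v)).filter (fun U => R ⊆ U), WebE_d d U :=
    sum_congr rfl fun U hU => hF U (mem_filter.1 hU).1
  rw [h2, sum_filter, WebE_sum s v (fun U => if R ⊆ U then WebE_d d U else 0)]
  refine Eq.trans ?_ h1
  rw [sum_filter]
  refine sum_congr rfl fun W _ => ?_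
  have h3 : R ⊆ W.map Fin.valEmbedding ↔ univ.filter (fun x : Fin v => (x : ℕ) ∈ R) ⊆ W := by
    conv_lhs => rw [← hRl]
    exact map_subset_map
  rw [WebE_d_map]
  by_cases h4 : R ⊆ W.map Fin.valEmbedding
  · rw [if_pos h4, if_pos (h3.1 h4)]
  · rw [if_neg h4, if_neg (fun h5 => h4 (h3.2 h5))]

private theorem WebE_oct (v s : ℕ) (p : (Fin s → ℕ) × (Fin s → ℕ)) (hp : Oct p)
    (h1 : ∀ i, p.1 i < v) (h2 : ∀ i, p.2 i < v) :
    ∃ p' : (Fin s → Fin v) × (Fin s → Fin v), Oct p' ∧
      ∀ W : Finset (Fin v), pod p (W.map Fin.valEmbedding) = pod p' W := by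
  refine ⟨(fun i => ⟨p.1 i, h1 i⟩, fun i => ⟨p.2 i, h2 i⟩), ?_, fun W => ?_⟩
  · intro a b hab
    apply hp
    have e : ∀ a : Fin s ⊕ Fin s, Sum.elim p.1 p.2 a =
        ((Sum.elim (fun i => (⟨p.1 i, h1 i⟩ : Fin v)) (fun i => (⟨p.2 i, h2 i⟩ : Fin v)) a :
          Fin v) : ℕ) := by
      intro a
      rcases a with a | a
      · rfl
      · rfl
    rw [e a, e b]
    exact congrArg Fin.val hab
  · unfold pod
    refine sum_congr rfl fun J _ => ?_
    have e : tr p J = (tr ((fun i => (⟨p.1 i, h1 i⟩ : Fin v)),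
        (fun i => (⟨p.2 i, h2 i⟩ : Fin v))) J).map Fin.valEmbedding := by
      unfold tr
      rw [map_eq_image, image_image]
      refine image_congr fun i _ => ?_
      simp only [Function.comp_apply, Fin.valEmbedding_apply]
      split_ifs <;> rfl
    rw [e]
    simp only [map_inj]

theorem pods_web (s v : ℕ) (d : Finset (Fin v) → ℤ)
    (hd : ∀ R : Finset (Fin v), R.card < s →
      ∑ U ∈ (powersetCard s univ).filter (fun U => R ⊆ U), d U = 0) :
    ∃ c : (Fin s → Fin v) × (Fin s → Fin v) → ℤ,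
      (∀ p, c p ≠ 0 → Oct p) ∧
      (∀ U : Finset (Fin v), U.card = s → d U = ∑ p, c p * pod p U) ∧
      ∑ p, |c p| ≤ (v : ℤ) ^ s * ∑ U ∈ powersetCard s univ, |d U| := by
  classical
  choose! cT hc1 hc2 using (fun T (hT : T ∈ powersetCard s (range v)) => web_expand v s T hT)
  obtain ⟨cc, hcc⟩ : ∃ cc : Finset ℕ → ℤ, ∀ B, cc B =
      ∑ T ∈ powersetCard s (range v), WebE_d d T * cT T B := ⟨_, fun _ => rfl⟩
  have hF : ∀ U ∈ powersetCard s (range v),
      ∑ B ∈ powersetCard s (range v), cc B * wb v B U = WebE_d d U := by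
    intro U hU
    have h1 : ∑ T ∈ powersetCard s (range v), WebE_d d T * (if U = T then (1 : ℤ) else 0) =
        WebE_d d U := by
      rw [sum_eq_single U]
      · rw [if_pos rfl, mul_one]
      · intro T _ hT
        rw [if_neg hT.symm, mul_zero]
      · intro h
        exact absurd hU h
    rw [← h1]
    have h2 : ∀ T ∈ powersetCard s (range v), WebE_d d T * (if U = T then (1 : ℤ) else 0) =
        ∑ B ∈ powersetCard s (range v), WebE_d d T * cT T B * wb v B U := by
      intro T hT
      rw [hc1 T hT U, mul_sum]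
      refine sum_congr rfl fun B _ => ?_
      ring
    rw [sum_congr rfl h2, sum_comm]
    refine sum_congr rfl fun B _ => ?_
    rw [hcc, sum_mul]
  have hsum : ∑ B ∈ powersetCard s (range v), |cc B| ≤
      (v : ℤ) ^ s * ∑ U ∈ powersetCard s univ, |d U| := by
    have h1 : ∑ B ∈ powersetCard s (range v), |cc B| ≤
        ∑ B ∈ powersetCard s (range v), ∑ T ∈ powersetCard s (range v),
          |WebE_d d T| * |cT T B| := by
      refine sum_le_sum fun B _ => ?_
      rw [hcc]
      refine (abs_sum_le_sum_abs _ _).trans (le_of_eq ?_)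
      exact sum_congr rfl fun T _ => abs_mul _ _
    refine h1.trans ?_
    rw [sum_comm]
    have h2 : ∑ T ∈ powersetCard s (range v), ∑ B ∈ powersetCard s (range v),
        |WebE_d d T| * |cT T B| ≤ ∑ T ∈ powersetCard s (range v), (v : ℤ) ^ s * |WebE_d d T| := by
      refine sum_le_sum fun T hT => ?_
      rw [← mul_sum, mul_comm]
      exact mul_le_mul_of_nonneg_right (hc2 T hT) (abs_nonneg _)
    refine h2.trans (le_of_eq ?_)
    rw [← mul_sum, WebE_sum s v (fun T => |WebE_d d T|)]
    congr 1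
    refine sum_congr rfl fun W _ => ?_
    rw [WebE_d_map]
  have hvan := web_vanish v s cc (WebE_null s v d hd _ hF)
  have hdF : ∀ U : Finset (Fin v), U.card = s →
      d U = ∑ B ∈ powersetCard s (range v), cc B * wb v B (U.map Fin.valEmbedding) := by
    intro U hU
    rw [hF (U.map Fin.valEmbedding) ?_, WebE_d_map]
    rw [mem_powersetCard, card_map, WebE_range]
    exact ⟨map_subset_map.2 (subset_univ _), hU⟩
  have key : ∀ B ∈ powersetCard s (range v), cc B ≠ 0 →
      ∃ p : (Fin s → Fin v) × (Fin s → Fin v), Oct p ∧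
        ∀ W : Finset (Fin v), wb v B (W.map Fin.valEmbedding) = pod p W := by
    intro B hB h0
    have hb : bal v B := by
      by_contra hb
      exact h0 (hvan B hB hb)
    obtain ⟨-, p, hp, hr, hw⟩ := web_oct v s B hB hb
    obtain ⟨p', hp', h'⟩ := WebE_oct v s p hp (fun i => mem_range.1 (hr i).1.1)
      (fun i => mem_range.1 (hr i).1.2)
    exact ⟨p', hp', fun W => (hw _).trans (h' W)⟩
  by_cases hex : ∃ B ∈ powersetCard s (range v), cc B ≠ 0
  · obtain ⟨B₀, hB₀, h₀⟩ := hex
    obtain ⟨p₀, -, -⟩ := key B₀ hB₀ h₀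
    have hne : Nonempty ((Fin s → Fin v) × (Fin s → Fin v)) := ⟨p₀⟩
    choose! pB hoct hpod using key
    obtain ⟨PC, hPC⟩ : ∃ PC : Finset (Finset ℕ), PC =
        (powersetCard s (range v)).filter (fun B => cc B ≠ 0) := ⟨_, rfl⟩
    have hmem : ∀ B ∈ PC, B ∈ powersetCard s (range v) ∧ cc B ≠ 0 := by
      intro B hB
      rw [hPC, mem_filter] at hB
      exact hB
    refine ⟨fun p => ∑ B ∈ PC.filter (fun B => pB B = p), cc B, ?_, ?_, ?_⟩
    · intro p hp
      obtain ⟨B, hB, -⟩ := exists_ne_zero_of_sum_ne_zero hp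
      rw [mem_filter] at hB
      rw [← hB.2]
      exact hoct B (hmem B hB.1).1 (hmem B hB.1).2
    · intro U hU
      rw [hdF U hU]
      have h1 : ∑ B ∈ powersetCard s (range v), cc B * wb v B (U.map Fin.valEmbedding) =
          ∑ B ∈ PC, cc B * wb v B (U.map Fin.valEmbedding) := by
        rw [hPC]
        refine (sum_filter_of_ne fun B _ h => ?_).symm
        intro h2
        rw [h2, zero_mul] at h
        exact h rfl
      rw [h1, ← sum_fiberwise PC pB]
      refine sum_congr rfl fun p _ => ?_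
      rw [sum_mul]
      refine sum_congr rfl fun B hB => ?_
      rw [mem_filter] at hB
      rw [hpod B (hmem B hB.1).1 (hmem B hB.1).2, hB.2]
    · refine le_trans ?_ hsum
      calc ∑ p, |∑ B ∈ PC.filter (fun B => pB B = p), cc B|
          ≤ ∑ p, ∑ B ∈ PC.filter (fun B => pB B = p), |cc B| :=
            sum_le_sum fun p _ => abs_sum_le_sum_abs _ _
        _ = ∑ B ∈ PC, |cc B| := sum_fiberwise PC pB _
        _ ≤ ∑ B ∈ powersetCard s (range v), |cc B| := by
            rw [hPC]
            exact sum_le_sum_of_subset_of_nonneg (filter_subset _ _)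
              fun _ _ _ => abs_nonneg _
  · push Not at hex
    refine ⟨fun _ => 0, fun p hp => absurd rfl hp, fun U hU => ?_, ?_⟩
    · rw [hdF U hU, sum_eq_zero fun B hB => by rw [hex B hB, zero_mul]]
      simp
    · simp only [abs_zero, sum_const_zero]
      positivity

end Pool.Agent.LS3
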